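import Mathlib

set_option autoImplicit false

/-!
# The left ideal of a group ring attached to a subgroup
-/

namespace Pool.Agent.Helper317

open MonoidAlgebra

section

variable (R : Type*) {G : Type*} [CommRing R] [Group G]

/-- The left ideal generated by the elements `k - 1`, `k ∈ K`. -/
noncomputable def aug (K : Subgroup G) : Ideal (MonoidAlgebra R G) :=
  Ideal.span ((fun k : G => single k (1 : R) - 1) '' (K : Set G))

/-- summation over the left cosets of `K` -/
noncomputable def cosetSum (K : Subgroup G) : MonoidAlgebra R G →+ (G ⧸ K →₀ R) :=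
  (Finsupp.mapDomain.addMonoidHom (fun g : G => (g : G ⧸ K))).comp
    (coeffAddEquiv (R := R) (M := G)).toAddMonoidHom

variable {R}

theorem cosetSum_single (K : Subgroup G) (g : G) (r : R) :
    cosetSum R K (single g r) = Finsupp.single (g : G ⧸ K) r := by
  simp [cosetSum, Finsupp.mapDomain.addMonoidHom, Finsupp.mapDomain_single]

theorem cosetSum_mul (K : Subgroup G) (k : G) (hk : k ∈ K) (a : MonoidAlgebra R G) :
    cosetSum R K (a * (single k (1 : R) - 1)) = 0 := by
  induction a using MonoidAlgebra.induction_linear with
  | zero => simp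
  | add x y hx hy => rw [add_mul, map_add, hx, hy, add_zero]
  | single g r =>
    rw [mul_sub, mul_one, single_mul_single, mul_one, map_sub, cosetSum_single, cosetSum_single]
    rw [sub_eq_zero]
    congr 1
    exact (QuotientGroup.eq.2 (by simpa using hk)).symm

theorem cosetSum_of_mem (K : Subgroup G) {x : MonoidAlgebra R G} (hx : x ∈ aug R K) :
    cosetSum R K x = 0 := by
  unfold aug at hx
  induction hx using Submodule.span_induction with
  | mem x h =>
    obtain ⟨k, hk, rfl⟩ := h
    have := cosetSum_mul (R := R) K k hk 1
    simpa using this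
  | zero => simp
  | add x y _ _ hx hy => rw [map_add, hx, hy, add_zero]
  | smul a x h ih =>
    -- need a stronger statement; handled through the closure of products
    have key : ∀ y ∈ Ideal.span ((fun k : G => single k (1 : R) - 1) '' (K : Set G)),
        ∀ a : MonoidAlgebra R G, cosetSum R K (a * y) = 0 := by
      intro y hy
      induction hy using Submodule.span_induction with
      | mem x h =>
        obtain ⟨k, hk, rfl⟩ := h
        exact fun a => cosetSum_mul K k hk a
      | zero => simp
      | add x y _ _ hx hy => intro a; rw [mul_add, map_add, hx, hy, add_zero]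
      | smul b x _ hx => intro a; rw [smul_eq_mul, ← mul_assoc]; exact hx _
    exact key x h a

theorem mem_aug_iff [Nontrivial R] (K : Subgroup G) (g : G) :
    single g (1 : R) - 1 ∈ aug R K ↔ g ∈ K := by
  constructor
  · intro h
    have h1 := cosetSum_of_mem K h
    rw [map_sub, one_def, cosetSum_single, cosetSum_single, sub_eq_zero] at h1
    have h2 := Finsupp.single_left_injective (one_ne_zero (α := R)) h1
    have h3 : (1 : G)⁻¹ * g ∈ K := QuotientGroup.eq.1 h2.symm
    simpa using h3
  · intro h
    exact Ideal.subset_span ⟨g, h, rfl⟩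

theorem aug_mono {K K' : Subgroup G} (h : K ≤ K') : aug R K ≤ aug R K' :=
  Ideal.span_mono (Set.image_mono h)

theorem le_of_aug_le [Nontrivial R] {K K' : Subgroup G} (h : aug R K ≤ aug R K') : K ≤ K' :=
  fun g hg => (mem_aug_iff K' g).1 (h ((mem_aug_iff (R := R) K g).2 hg))

end

/-- The maximal condition on subgroups. -/
theorem fg_of_noetherian (R G : Type*) [CommRing R] [Nontrivial R] [Group G]
    [hN : IsNoetherianRing (MonoidAlgebra R G)] (K : Subgroup G) : K.FG := by
  classical
  have hwf : WellFoundedGT (Ideal (MonoidAlgebra R G)) := by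
    exact isNoetherian_iff'.1 hN
  let P : Set (Ideal (MonoidAlgebra R G)) :=
    {I | ∃ S : Finset G, (S : Set G) ⊆ K ∧ I = aug R (Subgroup.closure (S : Set G))}
  obtain ⟨I, ⟨S, hSK, rfl⟩, hmax⟩ := hwf.wf.has_min P ⟨_, ∅, by simp, rfl⟩
  refine ⟨S, le_antisymm ((Subgroup.closure_le K).2 hSK) ?_⟩
  intro k hk
  by_contra hcon
  refine hmax (aug R (Subgroup.closure (insert k S : Finset G))) ⟨insert k S, ?_, rfl⟩ ?_
  · intro z hz
    rw [Finset.coe_insert, Set.mem_insert_iff] at hz
    rcases hz with rfl | hz
    · exact hk
    · exact hSK hz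
  · refine lt_of_le_of_ne (aug_mono (Subgroup.closure_mono (by simp))) ?_
    intro he
    apply hcon
    have h1 : Subgroup.closure ((insert k S : Finset G) : Set G) ≤ Subgroup.closure (S : Set G) :=
      le_of_aug_le (R := R) he.ge
    exact h1 (Subgroup.subset_closure (by simp))

end Pool.Agent.Helper317
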