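import Mathlib

set_option autoImplicit false

/-!
# A group with a Noetherian group ring satisfies the Folner condition

The argument is the one of Bartholdi (a converse of the Garden of Eden theorem), over an infinite
domain of coefficients: if the Folner condition fails, there is an injective linear map from a free
module of rank `m + 1` to a free module of rank `m`, and a Noetherian ring has no such maps.
-/

namespace Pool.Agent.Helper317

open Finset
open scoped Pointwise

open Classical in
/-- The (right) Folner condition. -/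
def Fol (G : Type*) [Group G] : Prop :=
  ∀ (S : Finset G) (N : ℕ), ∃ F : Finset G, F.Nonempty ∧
    ∀ s ∈ S, N * ((F.image (fun x => x * s)) \ F).card ≤ F.card

theorem vand {R ι : Type*} [CommRing R] [IsDomain R] (s : Finset ι) (a u : ι → R)
    (ha : Set.InjOn a s) (k : ℕ) (hk : s.card ≤ k)
    (h : ∀ j < k, ∑ t ∈ s, u t * a t ^ j = 0) : ∀ t ∈ s, u t = 0 := by
  classical
  let e := s.equivFin
  have h1 : (fun i : Fin s.card => u (e.symm i : ι)) = 0 := by
    apply Matrix.eq_zero_of_forall_pow_sum_mul_pow_eq_zero (f := fun i : Fin s.card => a (e.symm i : ι))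
    · intro i j hij
      have := ha (e.symm i).2 (e.symm j).2 hij
      exact e.symm.injective (Subtype.ext this)
    · intro j
      have h2 := h j (lt_of_lt_of_le j.2 hk)
      rw [← Finset.sum_coe_sort] at h2
      rw [← h2]
      exact Fintype.sum_equiv e.symm _ _ (fun i => rfl)
  intro t ht
  have := congrFun h1 (e ⟨t, ht⟩)
  simpa using this

section Inj

variable {R G : Type*} [CommRing R] [IsDomain R] [Group G]

/-- the index set of the target -/
abbrev Yt (L : ℕ) := Σ i : Fin (L + 1), Fin (2 ^ (i : ℕ)) × Fin (2 ^ (L - (i : ℕ)))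

/-- the index set of the evaluation points -/
abbrev Zt (T : Finset G) (L : ℕ) := T × (Σ i : Fin (L + 1), Fin (2 ^ (L - (i : ℕ))))

theorem card_Yt (L : ℕ) : Fintype.card (Yt L) = (L + 1) * 2 ^ L := by
  simp only [Fintype.card_sigma, Fintype.card_prod, Fintype.card_fin]
  rw [Finset.sum_congr rfl (g := fun _ => 2 ^ L)]
  · simp
  · intro i _
    rw [← pow_add]
    congr 1
    have := i.2
    omega

/-- the entries of the matrix -/
noncomputable def ent (T : Finset G) (L n : ℕ) (a : T → R) (c : Zt T L → R)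
    (r : Fin n) (y : Yt L) : MonoidAlgebra R G :=
  ∑ t : T, MonoidAlgebra.single (t : G) (c (t, ⟨y.1, y.2.2⟩) ^ (r : ℕ) * a t ^ (y.2.1 : ℕ))

/-- the linear map of the matrix -/
noncomputable def mat (T : Finset G) (L n : ℕ) (a : T → R) (c : Zt T L → R) :
    (Fin n → MonoidAlgebra R G) →ₗ[MonoidAlgebra R G] (Yt L → MonoidAlgebra R G) where
  toFun x y := ∑ r, x r * ent T L n a c r y
  map_add' x x' := by
    funext y
    simp [add_mul, Finset.sum_add_distrib]
  map_smul' b x := by
    funext y
    simp [Finset.mul_sum, mul_assoc]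

omit [IsDomain R] in
theorem mat_coeff (T : Finset G) (L n : ℕ) (a : T → R) (c : Zt T L → R)
    (x : Fin n → MonoidAlgebra R G) (y : Yt L) (h : G) :
    (mat T L n a c x y).coeff h =
      ∑ t : T, (∑ r, (x r).coeff (h * (t : G)⁻¹) * c (t, ⟨y.1, y.2.2⟩) ^ (r : ℕ)) *
        a t ^ (y.2.1 : ℕ) := by
  simp only [mat, ent, LinearMap.coe_mk, AddHom.coe_mk, MonoidAlgebra.coeff_sum,
    Finsupp.coe_finsetSum, Finset.sum_apply, Finset.mul_sum]
  rw [Finset.sum_comm]
  refine Finset.sum_congr rfl fun t _ => ?_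
  rw [Finset.sum_mul]
  refine Finset.sum_congr rfl fun r _ => ?_
  rw [MonoidAlgebra.coeff_mul_single_eq_coeff_mul (h * (t : G)⁻¹) (by
    intro m' _
    constructor
    · rintro rfl; group
    · rintro rfl; group)]
  ring

theorem mat_inj (T : Finset G) (L n : ℕ) (a : T → R) (ha : Function.Injective a)
    (c : Zt T L → R) (hc : Function.Injective c) (hT : T.card ≤ 2 ^ L)
    (hn : n ≤ 2 * ((L + 1) * 2 ^ L)) [DecidableEq G]
    (hF : ∀ F : Finset G, F.Nonempty → 4 * (L + 1) * F.card ≤ (F * T).card) :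
    Function.Injective (mat T L n a c) := by
  classical
  rw [injective_iff_map_eq_zero]
  intro x hx
  by_contra hne
  -- the support
  let F : Finset G := Finset.univ.biUnion fun r : Fin n => (x r).coeff.support
  have hFmem : ∀ g, g ∈ F ↔ ∃ r, (x r).coeff g ≠ 0 := by
    intro g; simp [F]
  have hFne : F.Nonempty := by
    obtain ⟨r, hr⟩ := Function.ne_iff.1 hne
    have : (x r).coeff ≠ 0 := fun h => hr (by simpa using h)
    obtain ⟨g, hg⟩ := Finsupp.ne_iff.1 this
    exact ⟨g, (hFmem g).2 ⟨r, by simpa using hg⟩⟩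
  -- covering numbers
  let cov : G → ℕ := fun h => (T.filter fun t => h * t⁻¹ ∈ F).card
  have hcov1 : ∀ g ∈ F, ∀ t ∈ T, 1 ≤ cov (g * t) := by
    intro g hg t ht
    refine Finset.card_pos.2 ⟨t, ?_⟩
    simp [ht, hg]
  have hcovT : ∀ h, cov h ≤ T.card := fun h => Finset.card_filter_le _ _
  -- counting
  have hcount : ∑ g ∈ F, ∑ t ∈ T, (1 : ℚ) / cov (g * t) = (F * T).card := by
    have h1 : ∑ g ∈ F, ∑ t ∈ T, (1 : ℚ) / cov (g * t)
        = ∑ p ∈ F ×ˢ T, (1 : ℚ) / cov (p.1 * p.2) := by
      rw [Finset.sum_product]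
    have h2 : ∀ p ∈ F ×ˢ T, p.1 * p.2 ∈ F * T := by
      intro p hp
      rw [Finset.mem_product] at hp
      exact Finset.mul_mem_mul hp.1 hp.2
    rw [h1, ← Finset.sum_fiberwise_of_maps_to h2]
    have h3 : ∀ h ∈ F * T, ∑ p ∈ (F ×ˢ T).filter (fun p => p.1 * p.2 = h),
        (1 : ℚ) / cov (p.1 * p.2) = 1 := by
      intro h hh
      have h4 : ((F ×ˢ T).filter (fun p => p.1 * p.2 = h)).card = cov h := by
        refine Finset.card_bij (fun p _ => p.2) ?_ ?_ ?_
        · rintro ⟨g, t⟩ hp
          simp only [Finset.mem_filter, Finset.mem_product] at hp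
          simp only [Finset.mem_filter]
          refine ⟨hp.1.2, ?_⟩
          rw [← hp.2]; simpa using hp.1.1
        · rintro ⟨g, t⟩ hp ⟨g', t'⟩ hp' htt
          simp only [Finset.mem_filter, Finset.mem_product] at hp hp'
          simp only at htt
          subst htt
          have : g = g' := mul_right_cancel (hp.2.trans hp'.2.symm)
          rw [this]
        · intro t ht
          simp only [Finset.mem_filter] at ht
          exact ⟨(h * t⁻¹, t), by simp [ht.1, ht.2], rfl⟩
      have h5 : cov h ≠ 0 := by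
        obtain ⟨g, hg, t, ht, rfl⟩ := Finset.mem_mul.1 hh
        have := hcov1 g hg t ht
        omega
      rw [Finset.sum_congr rfl (g := fun _ => (1 : ℚ) / cov h)]
      · rw [Finset.sum_const, h4, nsmul_eq_mul]
        field_simp
      · intro p hp
        rw [(Finset.mem_filter.1 hp).2]
    rw [Finset.sum_congr rfl h3]
    simp
  -- a point where the covering numbers are small
  obtain ⟨g, hg, hsum⟩ : ∃ g ∈ F, (4 * (L + 1) : ℚ) ≤ ∑ t ∈ T, (1 : ℚ) / cov (g * t) := by
    by_contra hcon
    push Not at hcon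
    have h1 : ∑ g ∈ F, ∑ t ∈ T, (1 : ℚ) / cov (g * t) < ∑ g ∈ F, (4 * (L + 1) : ℚ) :=
      Finset.sum_lt_sum_of_nonempty hFne hcon
    rw [hcount, Finset.sum_const, nsmul_eq_mul] at h1
    have h2 : ((4 * (L + 1) * F.card : ℕ) : ℚ) ≤ ((F * T).card : ℚ) := by exact_mod_cast hF F hFne
    push_cast at h2
    nlinarith
  -- the exponents
  have hex : ∀ t : T, ∃ i : Fin (L + 1), cov (g * t) ≤ 2 ^ (i : ℕ) ∧ 2 ^ (i : ℕ) ≤ 2 * cov (g * t) := by
    intro t
    have h1 := hcov1 g hg t t.2
    have h2 : cov (g * t) ≤ 2 ^ L := (hcovT _).trans hT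
    refine ⟨⟨Nat.clog 2 (cov (g * t)), ?_⟩, ?_, ?_⟩
    · exact Nat.lt_succ_of_le ((Nat.clog_le_iff_le_pow (by norm_num)).2 h2)
    · exact Nat.le_pow_clog (by norm_num) _
    · rcases Nat.lt_or_ge 1 (cov (g * t)) with h3 | h3
      · have h4 : 2 ^ (Nat.clog 2 (cov (g * t))).pred < cov (g * t) :=
          Nat.pow_pred_clog_lt_self (by norm_num) h3
        have h5 : 0 < Nat.clog 2 (cov (g * t)) := Nat.clog_pos (by norm_num) h3
        have h6 : 2 ^ (Nat.clog 2 (cov (g * t))) = 2 * 2 ^ (Nat.clog 2 (cov (g * t))).pred := by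
          rw [← pow_succ']
          congr 1
          exact (Nat.succ_pred_eq_of_pos h5).symm
        show 2 ^ (Nat.clog 2 (cov (g * t))) ≤ _
        omega
      · have h4 : cov (g * t) = 1 := le_antisymm h3 h1
        simp [h4]
  choose i hi1 hi2 using hex
  -- the polynomial at g
  let p : Polynomial R := ∑ r : Fin n, Polynomial.C ((x r).coeff g) * Polynomial.X ^ (r : ℕ)
  have hpeval : ∀ z, p.eval z = ∑ r, (x r).coeff g * z ^ (r : ℕ) := by
    intro z
    simp [p, Polynomial.eval_finsetSum]
  have hpcoeff : ∀ r : Fin n, p.coeff r = (x r).coeff g := by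
    intro r
    simp only [p, Polynomial.finsetSum_coeff, Polynomial.coeff_C_mul, Polynomial.coeff_X_pow]
    rw [Finset.sum_eq_single r]
    · simp
    · intro b _ hb
      have : (r : ℕ) ≠ b := fun h => hb (Fin.ext h.symm)
      simp [this]
    · simp
  have hpne : p ≠ 0 := by
    obtain ⟨r, hr⟩ := (hFmem g).1 hg
    intro h0
    apply hr
    rw [← hpcoeff r, h0]
    simp
  have hpdeg : p.natDegree < n := by
    have hn0 : 0 < n := by
      obtain ⟨r, hr⟩ := (hFmem g).1 hg
      exact r.pos
    rw [Polynomial.natDegree_lt_iff_degree_lt hpne]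
    refine lt_of_le_of_lt (Polynomial.degree_sum_le _ _) ?_
    rw [Finset.sup_lt_iff (by exact_mod_cast (WithBot.bot_lt_coe n))]
    intro r _
    refine lt_of_le_of_lt (Polynomial.degree_C_mul_X_pow_le _ _) ?_
    exact_mod_cast r.2
  -- roots
  have hroot : ∀ (t : T) (l : Fin (2 ^ (L - (i t : ℕ)))), p.eval (c (t, ⟨i t, l⟩)) = 0 := by
    intro t l
    have hv := vand (R := R) (ι := T) (Finset.univ.filter fun t' : T => (g * t) * (t' : G)⁻¹ ∈ F) a
      (fun t' => ∑ r, (x r).coeff ((g * t) * (t' : G)⁻¹) * c (t', ⟨i t, l⟩) ^ (r : ℕ))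
      ha.injOn (2 ^ (i t : ℕ)) ?_ ?_ t ?_
    · rw [hpeval]
      simpa using hv
    · refine le_trans (le_of_eq ?_) (hi1 t)
      refine Finset.card_bij (fun t' _ => (t' : G)) ?_ ?_ ?_
      · intro t' ht'
        simp only [Finset.mem_filter, Finset.mem_univ, true_and] at ht'
        simp only [Finset.mem_filter]
        exact ⟨t'.2, ht'⟩
      · intro t' _ t'' _ h
        exact Subtype.ext h
      · intro t' ht'
        simp only [Finset.mem_filter] at ht'
        exact ⟨⟨t', ht'.1⟩, by simp [ht'.2], rfl⟩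
    · intro j hj
      have h1 := congrArg (fun z => (z ⟨i t, ⟨j, hj⟩, l⟩ : MonoidAlgebra R G).coeff (g * t)) hx
      simp only [mat_coeff] at h1
      rw [Finset.sum_filter]
      have h2 : ((0 : Yt L → MonoidAlgebra R G) ⟨i t, ⟨j, hj⟩, l⟩).coeff (g * (t : G)) = 0 := by
        simp
      rw [h2] at h1
      refine Eq.trans ?_ h1
      refine Finset.sum_congr rfl fun t' _ => ?_
      split_ifs with h3
      · rfl
      · have h4 : ∀ r, (x r).coeff (g * ↑t * (t' : G)⁻¹) = 0 := by
          intro r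
          by_contra h5
          exact h3 ((hFmem _).2 ⟨r, h5⟩)
        simp [h4]
    · simp [hg]
  -- count the roots
  let Z : Finset (Zt T L) := Finset.univ.biUnion fun t : T =>
    (Finset.univ : Finset (Fin (2 ^ (L - (i t : ℕ))))).image fun l => (t, ⟨i t, l⟩)
  have hZcard : Z.card = ∑ t : T, 2 ^ (L - (i t : ℕ)) := by
    rw [Finset.card_biUnion]
    · refine Finset.sum_congr rfl fun t _ => ?_
      rw [Finset.card_image_of_injective]
      · simp
      · intro l l' h
        simpa using h
    · intro t _ t' _ htt'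
      rw [Function.onFun, Finset.disjoint_left]
      intro z hz hz'
      simp only [Finset.mem_image, Finset.mem_univ, true_and] at hz hz'
      obtain ⟨l, rfl⟩ := hz
      obtain ⟨l', h⟩ := hz'
      exact htt' (congrArg Prod.fst h).symm
  have hZroot : (Z.image c).val ⊆ p.roots := by
    intro z hz
    rw [Finset.mem_val, Finset.mem_image] at hz
    obtain ⟨w, hw, rfl⟩ := hz
    simp only [Z, Finset.mem_biUnion, Finset.mem_univ, true_and, Finset.mem_image] at hw
    obtain ⟨t, l, rfl⟩ := hw
    rw [Polynomial.mem_roots hpne]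
    exact hroot t l
  have hle : Z.card ≤ p.natDegree := by
    have h1 : (Z.image c).card ≤ p.roots.card := by
      have : (Z.image c).val ≤ p.roots := (Multiset.le_iff_subset (Z.image c).nodup).2 hZroot
      exact Multiset.card_le_card this
    rw [Finset.card_image_of_injective _ hc] at h1
    exact h1.trans (Polynomial.card_roots' p)
  have hge : 2 * ((L + 1) * 2 ^ L) ≤ Z.card := by
    have h1 : ((2 * ((L + 1) * 2 ^ L) : ℕ) : ℚ) ≤ (Z.card : ℚ) := by
      rw [hZcard]
      push_cast
      have h2 : ∀ t : T, (2 : ℚ) ^ L / 2 * (1 / cov (g * t)) ≤ 2 ^ (L - (i t : ℕ)) := by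
        intro t
        have h3 : 0 < cov (g * t) := hcov1 g hg t t.2
        have h4 : (0 : ℚ) < cov (g * t) := by exact_mod_cast h3
        have h5 : ((2 : ℚ) ^ (i t : ℕ)) ≤ 2 * cov (g * t) := by exact_mod_cast hi2 t
        have h6 : (2 : ℚ) ^ L = 2 ^ (L - (i t : ℕ)) * 2 ^ (i t : ℕ) := by
          rw [← pow_add]
          congr 1
          have := (i t).2
          omega
        rw [h6]
        have h7 : (0 : ℚ) < 2 ^ (L - (i t : ℕ)) := by positivity
        rw [div_mul_div_comm, div_le_iff₀ (by positivity)]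
        nlinarith
      have h3 : (2 : ℚ) ^ L / 2 * ∑ t ∈ T, (1 : ℚ) / cov (g * t) ≤ ∑ t : T, (2 : ℚ) ^ (L - (i t : ℕ)) := by
        rw [Finset.mul_sum, ← Finset.sum_coe_sort]
        exact Finset.sum_le_sum fun t _ => h2 t
      refine le_trans ?_ h3
      have h4 : (0 : ℚ) < 2 ^ L := by positivity
      nlinarith
    exact_mod_cast h1
  omega

end Inj

/-- exponential growth beats linear growth -/
theorem exists_pow (q N : ℕ) : ∃ j : ℕ, 4 * (q * j + 1) * N ^ j ≤ (N + 1) ^ j := by
  have hr : |(N : ℝ) / (N + 1)| < 1 := by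
    rw [abs_of_nonneg (by positivity)]
    rw [div_lt_one (by positivity)]
    linarith
  have h0 := tendsto_pow_const_mul_const_pow_of_abs_lt_one 0 hr
  have h1 := tendsto_pow_const_mul_const_pow_of_abs_lt_one 1 hr
  have h2 : Filter.Tendsto (fun n : ℕ => 4 * q * ((n : ℝ) ^ 1 * ((N : ℝ) / (N + 1)) ^ n)
      + 4 * ((n : ℝ) ^ 0 * ((N : ℝ) / (N + 1)) ^ n)) Filter.atTop (nhds 0) := by
    simpa using (h1.const_mul (4 * q : ℝ)).add (h0.const_mul 4)
  obtain ⟨n, hn⟩ := (h2.eventually (gt_mem_nhds (zero_lt_one (α := ℝ)))).exists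
  refine ⟨n, ?_⟩
  have h3 : (0 : ℝ) < ((N : ℝ) + 1) ^ n := by positivity
  have h4 : (4 * ((q : ℝ) * n + 1)) * (N : ℝ) ^ n / ((N : ℝ) + 1) ^ n < 1 := by
    refine lt_of_le_of_lt (le_of_eq ?_) hn
    rw [div_pow]
    ring
  rw [div_lt_one h3] at h4
  exact_mod_cast h4.le

/-- **Bartholdi's theorem**, in the form needed here: a group with a Noetherian group ring over an
infinite domain satisfies the Folner condition. -/
theorem fol_of_noetherian (R G : Type*) [CommRing R] [IsDomain R] [Infinite R] [Group G]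
    [IsNoetherianRing (MonoidAlgebra R G)] : Fol G := by
  classical
  by_contra hcon
  unfold Fol at hcon
  push Not at hcon
  obtain ⟨S, N, hS⟩ := hcon
  let S' : Finset G := insert 1 S
  have hstep : ∀ F : Finset G, F.Nonempty → (N + 1) * F.card ≤ N * (F * S').card := by
    intro F hF
    obtain ⟨s, hs, hlt⟩ := hS F hF
    have h1 : F.card + ((F.image (fun x => x * s)) \ F).card ≤ (F * S').card := by
      rw [← Finset.card_union_of_disjoint Finset.disjoint_sdiff]
      apply Finset.card_le_card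
      intro z hz
      rw [Finset.mem_union, Finset.mem_sdiff, Finset.mem_image] at hz
      rcases hz with hz | ⟨⟨x, hx, rfl⟩, _⟩
      · exact Finset.mem_mul.2 ⟨z, hz, 1, Finset.mem_insert_self _ _, mul_one z⟩
      · exact Finset.mem_mul.2 ⟨x, hx, s, Finset.mem_insert_of_mem hs, rfl⟩
    calc (N + 1) * F.card = N * F.card + F.card := by ring
      _ ≤ N * F.card + N * ((F.image (fun x => x * s)) \ F).card := by
          refine Nat.add_le_add_left ?_ _
          convert hlt.le
      _ = N * (F.card + ((F.image (fun x => x * s)) \ F).card) := by ring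
      _ ≤ N * (F * S').card := Nat.mul_le_mul_left _ h1
  have hiter : ∀ (j : ℕ) (F : Finset G), F.Nonempty →
      (N + 1) ^ j * F.card ≤ N ^ j * (F * S' ^ j).card := by
    intro j
    induction j with
    | zero => intro F hF; simp
    | succ j ih =>
      intro F hF
      have hne : (F * S' ^ j).Nonempty := by
        refine hF.mul ?_
        exact Finset.Nonempty.pow ⟨1, Finset.mem_insert_self _ _⟩
      calc (N + 1) ^ (j + 1) * F.card = (N + 1) * ((N + 1) ^ j * F.card) := by ring
        _ ≤ (N + 1) * (N ^ j * (F * S' ^ j).card) := Nat.mul_le_mul_left _ (ih F hF)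
        _ = N ^ j * ((N + 1) * (F * S' ^ j).card) := by ring
        _ ≤ N ^ j * (N * (F * S' ^ j * S').card) := Nat.mul_le_mul_left _ (hstep _ hne)
        _ = N ^ (j + 1) * (F * S' ^ (j + 1)).card := by
            rw [mul_assoc F, ← pow_succ S' j]
            ring
  obtain ⟨j, hj⟩ := exists_pow S'.card N
  let T := S' ^ j
  let L := S'.card * j
  have hTL : T.card ≤ 2 ^ L := by
    calc T.card ≤ S'.card ^ j := Finset.card_pow_le
      _ ≤ (2 ^ S'.card) ^ j := Nat.pow_le_pow_left (Nat.lt_two_pow_self).le _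
      _ = 2 ^ L := by rw [← pow_mul]
  have hN : 0 < N := by
    rcases Nat.eq_zero_or_pos N with h | h
    · exfalso
      obtain ⟨s, hs, hlt⟩ := hS {1} ⟨1, by simp⟩
      simp [h] at hlt
    · exact h
  have hF : ∀ F : Finset G, F.Nonempty → 4 * (L + 1) * F.card ≤ (F * T).card := by
    intro F hF
    have h1 := hiter j F hF
    have h2 : 0 < N ^ j := by positivity
    have h3 : 4 * (L + 1) * N ^ j * F.card ≤ (N + 1) ^ j * F.card := Nat.mul_le_mul_right _ hj
    have h4 : N ^ j * (4 * (L + 1) * F.card) ≤ N ^ j * (F * T).card := by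
      calc N ^ j * (4 * (L + 1) * F.card) = 4 * (L + 1) * N ^ j * F.card := by ring
        _ ≤ (N + 1) ^ j * F.card := h3
        _ ≤ _ := h1
    exact Nat.le_of_mul_le_mul_left h4 h2
  let nn : ℕ := (L + 1) * 2 ^ L + 1
  obtain ⟨a⟩ : Nonempty (T ↪ R) := by
    exact ⟨(Fintype.equivFin T).toEmbedding.trans
      (Fin.valEmbedding.trans (Infinite.natEmbedding R))⟩
  obtain ⟨c⟩ : Nonempty (Zt T L ↪ R) := by
    exact ⟨(Fintype.equivFin (Zt T L)).toEmbedding.trans
      (Fin.valEmbedding.trans (Infinite.natEmbedding R))⟩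
  have hnn : nn ≤ 2 * ((L + 1) * 2 ^ L) := by
    have : 0 < (L + 1) * 2 ^ L := by positivity
    omega
  have hinj := mat_inj (R := R) T L nn a a.injective c c.injective hTL hnn hF
  have h := card_le_of_injective (MonoidAlgebra R G) (mat T L nn a c) hinj
  rw [card_Yt, Fintype.card_fin] at h
  omega

end Pool.Agent.Helper317
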