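import Mathlib

set_option autoImplicit false

/-!
# Torsion elements with finitely many conjugates in a group with the maximal condition
-/

namespace Pool.Agent.Helper317

open scoped Pointwise

variable {G : Type*} [Group G]

/-- The torsion elements with only finitely many conjugates. -/
def TFC (G : Type*) [Group G] : Set G :=
  {g | IsOfFinOrder g ∧ (Subgroup.centralizer {g}).FiniteIndex}

/-- the FC centre -/
def FCC (G : Type*) [Group G] : Subgroup G where
  carrier := {g | (Subgroup.centralizer {g}).FiniteIndex}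
  one_mem' := by
    have : Subgroup.centralizer {(1 : G)} = ⊤ := by
      ext x; simp [Subgroup.mem_centralizer_iff]
    rw [Set.mem_ofPred_eq, this]; infer_instance
  mul_mem' := by
    intro a b ha hb
    rw [Set.mem_ofPred_eq] at ha hb ⊢
    have : Subgroup.centralizer {a} ⊓ Subgroup.centralizer {b} ≤ Subgroup.centralizer {a * b} := by
      intro x hx
      have h1 := hx.1
      have h2 := hx.2
      have h1' := Subgroup.mem_centralizer_singleton_iff.1 h1
      have h2' := Subgroup.mem_centralizer_singleton_iff.1 h2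
      rw [Subgroup.mem_centralizer_singleton_iff]
      rw [← mul_assoc, h1', mul_assoc, h2', mul_assoc]
    exact Subgroup.finiteIndex_of_le this
  inv_mem' := by
    intro a ha
    rw [Set.mem_ofPred_eq] at ha ⊢
    have : Subgroup.centralizer {a} ≤ Subgroup.centralizer {a⁻¹} := by
      intro x h1
      rw [Subgroup.mem_centralizer_singleton_iff] at h1 ⊢
      have : Commute x a := h1
      exact this.inv_right
    exact Subgroup.finiteIndex_of_le this

theorem mem_FCC {g : G} : g ∈ FCC G ↔ (Subgroup.centralizer {g}).FiniteIndex := Iff.rfl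

theorem tfc_finite (hmax : ∀ K : Subgroup G, K.FG) : (TFC G).Finite := by
  classical
  obtain ⟨S, hS⟩ := hmax (FCC G)
  let Z : Subgroup G := ⨅ s : S, Subgroup.centralizer {(s : G)}
  have hZ : Z.FiniteIndex := by
    apply Subgroup.finiteIndex_iInf
    intro s
    have : (s : G) ∈ FCC G := by rw [← hS]; exact Subgroup.subset_closure s.2
    exact this
  have hZcomm : ∀ z ∈ Z, ∀ d ∈ FCC G, d * z = z * d := by
    intro z hz d hd
    have h1 : d ∈ Subgroup.centralizer {z} := by
      rw [← hS] at hd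
      refine (Subgroup.closure_le _).2 ?_ hd
      intro s hs
      have := (Subgroup.mem_iInf.1 hz) ⟨s, hs⟩
      rw [Subgroup.mem_centralizer_singleton_iff] at this
      rw [SetLike.mem_coe, Subgroup.mem_centralizer_singleton_iff]
      exact this.symm
    rw [Subgroup.mem_centralizer_singleton_iff] at h1
    exact h1
  -- the torsion of `FCC G ⊓ Z`
  let A : Subgroup G := FCC G ⊓ Z
  have hAc : ∀ a ∈ A, ∀ b ∈ A, a * b = b * a := fun a ha b hb => hZcomm b hb.2 a ha.1
  let B : Subgroup G :=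
    { carrier := {a | a ∈ A ∧ IsOfFinOrder a}
      one_mem' := ⟨A.one_mem, IsOfFinOrder.one⟩
      mul_mem' := by
        rintro a b ⟨ha, ha'⟩ ⟨hb, hb'⟩
        exact ⟨A.mul_mem ha hb, (show Commute a b from hAc a ha b hb).isOfFinOrder_mul ha' hb'⟩
      inv_mem' := by
        rintro a ⟨ha, ha'⟩
        exact ⟨A.inv_mem ha, ha'.inv⟩ }
  have hB : Finite B := by
    let _ : CommGroup B := { (inferInstance : Group B) with
      mul_comm := fun a b => Subtype.ext (hAc a a.2.1 b b.2.1) }
    have : Group.FG B := (Group.fg_iff_subgroup_fg B).2 (hmax B)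
    refine CommGroup.finite_of_fg_isMulTorsion B ?_
    intro b
    have := b.2.2
    exact Submonoid.isOfFinOrder_coe.1 this
  -- the index
  have hZi : Z.index ≠ 0 := hZ.index_ne_zero
  let n := Z.index.factorial
  have hn : 0 < n := Nat.factorial_pos _
  have hpow : ∀ x : G, x ^ n ∈ Z := fun x =>
    Subgroup.pow_mem_of_index_ne_zero_of_dvd hZi x (fun m hm hm' => Nat.dvd_factorial hm hm')
  -- cosets
  have : Finite (G ⧸ Z) := Subgroup.finite_quotient_of_finiteIndex
  have hfib : ∀ q : G ⧸ Z, {x | x ∈ TFC G ∧ (x : G ⧸ Z) = q}.Finite := by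
    intro q
    by_cases hq : ∃ x, x ∈ TFC G ∧ (x : G ⧸ Z) = q
    · obtain ⟨x, hx, rfl⟩ := hq
      have hBf : ((fun b : G => x * b) '' (B : Set G)).Finite :=
        (Set.toFinite (B : Set G)).image _
      refine hBf.subset ?_
      rintro y ⟨hy, hyx⟩
      refine ⟨x⁻¹ * y, ?_, by simp⟩
      have h1 : x⁻¹ * y ∈ Z := QuotientGroup.eq.1 hyx.symm
      have h2 : x⁻¹ * y ∈ FCC G := (FCC G).mul_mem ((FCC G).inv_mem hx.2) hy.2
      refine ⟨⟨h2, h1⟩, ?_⟩
      have h3 : Commute x (x⁻¹ * y) := hZcomm _ h1 _ hx.2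
      have h4 : y ^ n = x ^ n * (x⁻¹ * y) ^ n := by
        rw [← h3.mul_pow]; congr 1; group
      have h5 : (x⁻¹ * y) ^ n = (x ^ n)⁻¹ * y ^ n := by rw [h4]; group
      have h6 : IsOfFinOrder ((x⁻¹ * y) ^ n) := by
        rw [h5]
        have hxn : x ^ n ∈ A := ⟨(FCC G).pow_mem hx.2 _, hpow x⟩
        have hyn : y ^ n ∈ A := ⟨(FCC G).pow_mem hy.2 _, hpow y⟩
        refine (show Commute (x ^ n)⁻¹ (y ^ n) from hAc _ (A.inv_mem hxn) _ hyn).isOfFinOrder_mul
          ?_ ?_
        · exact (hx.1.pow).inv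
        · exact hy.1.pow
      exact (isOfFinOrder_pow.1 h6).resolve_right hn.ne'
    · refine Set.Finite.subset Set.finite_empty ?_
      rintro x hx
      exact (hq ⟨x, hx⟩).elim
  have : TFC G = ⋃ q : G ⧸ Z, {x | x ∈ TFC G ∧ (x : G ⧸ Z) = q} := by
    ext x; simp
  rw [this]
  exact Set.finite_iUnion hfib

theorem tfc_conj {g : G} (hg : g ∈ TFC G) (x : G) : x⁻¹ * g * x ∈ TFC G := by
  refine ⟨?_, ?_⟩
  · have := hg.1
    rw [isOfFinOrder_iff_pow_eq_one] at this ⊢
    obtain ⟨n, hn, h⟩ := this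
    refine ⟨n, hn, ?_⟩
    have h2 : (x⁻¹ * g * x) ^ n = x⁻¹ * g ^ n * x := by
      have := conj_pow (i := n) (a := x⁻¹) (b := g)
      simpa using this
    rw [h2, h]; group
  · have h1 := hg.2
    have h2 : Subgroup.centralizer {x⁻¹ * g * x} =
        (Subgroup.centralizer {g}).map (MulAut.conj x⁻¹).toMonoidHom := by
      ext y
      simp only [Subgroup.mem_centralizer_singleton_iff, Subgroup.mem_map]
      constructor
      · intro h
        refine ⟨x * y * x⁻¹, ?_, ?_⟩
        · calc x * y * x⁻¹ * g = x * (y * (x⁻¹ * g * x)) * x⁻¹ := by group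
            _ = x * ((x⁻¹ * g * x) * y) * x⁻¹ := by rw [h]
            _ = g * (x * y * x⁻¹) := by group
        · simp [mul_assoc]
      · rintro ⟨z, hz, rfl⟩
        simp only [MulEquiv.coe_toMonoidHom, MulAut.conj_apply, inv_inv]
        calc x⁻¹ * z * x * (x⁻¹ * g * x) = x⁻¹ * (z * g) * x := by group
          _ = x⁻¹ * (g * z) * x := by rw [hz]
          _ = _ := by group
    rw [h2]
    constructor
    have h3 := Subgroup.index_map_equiv (H := Subgroup.centralizer {g}) (MulAut.conj x⁻¹)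
    intro h0
    apply h1.index_ne_zero
    rw [← h3]
    exact h0

theorem one_mem_tfc : (1 : G) ∈ TFC G := ⟨IsOfFinOrder.one, (FCC G).one_mem⟩

/-- A finite subgroup `H` has a conjugate that meets a given finite set only in torsion elements
with finitely many conjugates. -/
theorem exists_conj (H : Subgroup G) [Finite H] (E : Finset G) :
    ∃ g : G, ∀ h ∈ H, g⁻¹ * h * g ∈ E → h ∈ TFC G := by
  classical
  by_contra hcon
  push Not at hcon
  have hHf : (H : Set G).Finite := Set.toFinite _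
  let s : Finset (G × G) := (hHf.toFinset ×ˢ E).filter fun p =>
    p.1 ∉ TFC G ∧ ∃ g : G, g⁻¹ * p.1 * g = p.2
  let gg : G × G → G := fun p => if h : ∃ g : G, g⁻¹ * p.1 * g = p.2 then h.choose else 1
  have hgg : ∀ p ∈ s, (gg p)⁻¹ * p.1 * gg p = p.2 := by
    intro p hp
    have h := (Finset.mem_filter.1 hp).2.2
    simp only [gg, dif_pos h]
    exact h.choose_spec
  have hcov : ⋃ p ∈ s, gg p • ((Subgroup.centralizer {p.2} : Subgroup G) : Set G) = Set.univ := by
    rw [Set.eq_univ_iff_forall]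
    intro g
    obtain ⟨h, hh, hE, hT⟩ := hcon g
    have hs : (h, g⁻¹ * h * g) ∈ s := by
      simp only [s, Finset.mem_filter, Finset.mem_product, Set.Finite.mem_toFinset]
      exact ⟨⟨hh, hE⟩, hT, g, rfl⟩
    refine Set.mem_iUnion₂.2 ⟨_, hs, ?_⟩
    rw [Set.mem_smul_set]
    refine ⟨(gg (h, g⁻¹ * h * g))⁻¹ * g, ?_, by simp⟩
    have h1 := hgg _ hs
    set w := gg (h, g⁻¹ * h * g)
    simp only at h1
    rw [SetLike.mem_coe, Subgroup.mem_centralizer_singleton_iff]
    calc w⁻¹ * g * (g⁻¹ * h * g) = w⁻¹ * h * w * (w⁻¹ * g) := by group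
      _ = g⁻¹ * h * g * (w⁻¹ * g) := by rw [h1]
  obtain ⟨p, hp, hfin⟩ := Subgroup.exists_finiteIndex_of_leftCoset_cover hcov
  have h1 := (Finset.mem_filter.1 hp).2.1
  have h2 := hgg p hp
  have h3 : p.1 ∈ H := by
    have := (Finset.mem_filter.1 hp).1
    rw [Finset.mem_product] at this
    simpa using this.1
  apply h1
  have h4 : p.2 ∈ TFC G := by
    refine ⟨?_, hfin⟩
    rw [← h2]
    have h5 : IsOfFinOrder p.1 := by
      have := isOfFinOrder_of_finite (⟨p.1, h3⟩ : H)
      exact Submonoid.isOfFinOrder_coe.2 this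
    rw [isOfFinOrder_iff_pow_eq_one] at h5 ⊢
    obtain ⟨n, hn, h⟩ := h5
    refine ⟨n, hn, ?_⟩
    have h6 : ((gg p)⁻¹ * p.1 * gg p) ^ n = (gg p)⁻¹ * p.1 ^ n * gg p := by
      have := conj_pow (i := n) (a := (gg p)⁻¹) (b := p.1)
      simpa using this
    rw [h6, h]; group
  have h5 := tfc_conj h4 (gg p)⁻¹
  rw [← h2] at h5
  have h6 : ((gg p)⁻¹)⁻¹ * ((gg p)⁻¹ * p.1 * gg p) * (gg p)⁻¹ = p.1 := by group
  rwa [h6] at h5

end Pool.Agent.Helper317
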