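import Mathlib
import Pool.Agent.Helper317.Folner
import Pool.Agent.Helper317.Tor

set_option autoImplicit false

/-!
# Left ideals generated by the sums over finite subgroups
-/

namespace Pool.Agent.Helper317

open MonoidAlgebra

variable {k G : Type*} [Field k] [Group G]

/-- the sum of the elements of a finite subgroup -/
noncomputable def nrm (k : Type*) {G : Type*} [Field k] [Group G] (K : Subgroup G) [Finite K] :
    MonoidAlgebra k G :=
  ∑ x ∈ (Set.toFinite (K : Set G)).toFinset, single x 1

open Classical in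
theorem coeff_single_mul_nrm (K : Subgroup G) [Finite K] (a : G) (r : k) (x : G) :
    (single a r * nrm k K).coeff x = if a⁻¹ * x ∈ K then r else 0 := by
  simp only [nrm, Finset.mul_sum, single_mul_single, coeff_sum, coeff_single, mul_one,
    Finsupp.coe_finsetSum, Finset.sum_apply, Finsupp.single_apply]
  split_ifs with h
  · rw [Finset.sum_eq_single (a⁻¹ * x)]
    · simp
    · intro b _ hb
      rw [if_neg]
      rintro rfl
      exact hb (by group)
    · intro h2
      exact (h2 (by simpa using h)).elim
  · refine Finset.sum_eq_zero fun b hb => ?_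
    rw [if_neg]
    rintro rfl
    apply h
    simpa using hb

/-- restriction to a finite set -/
def res (k : Type*) {G : Type*} [Field k] [Group G] (E : Finset G) :
    MonoidAlgebra k G →+ (E → k) where
  toFun x e := x.coeff e
  map_zero' := by funext e; simp
  map_add' x y := by funext e; simp

/-- the characteristic function of `e K` on `E` -/
noncomputable def ind (k : Type*) {G : Type*} [Field k] [Group G] (E : Finset G) (K : Subgroup G)
    (e : G) : E → k := by
  classical
  exact fun x => if e⁻¹ * (x : G) ∈ K then 1 else 0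

theorem ind_congr (E : Finset G) (K : Subgroup G) {e e' : G} (h : (e : G ⧸ K) = e') :
    ind k E K e = ind k E K e' := by
  classical
  funext x
  have h1 : e⁻¹ * e' ∈ K := QuotientGroup.eq.1 h
  have h2 : e⁻¹ * (x : G) ∈ K ↔ e'⁻¹ * (x : G) ∈ K := by
    constructor
    · intro h3
      have := K.mul_mem (K.inv_mem h1) h3
      have e1 : (e⁻¹ * e')⁻¹ * (e⁻¹ * (x : G)) = e'⁻¹ * x := by group
      rwa [e1] at this
    · intro h3
      have := K.mul_mem h1 h3
      have e1 : (e⁻¹ * e') * (e'⁻¹ * (x : G)) = e⁻¹ * x := by group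
      rwa [e1] at this
  simp only [ind, h2]

theorem res_mem {ι : Type*} (E : Finset G) (K : ι → Subgroup G) [∀ i, Finite (K i)]
    {x : MonoidAlgebra k G} (hx : x ∈ Ideal.span (Set.range fun i => nrm k (K i))) :
    res k E x ∈ Submodule.span k (Set.range fun p : ι × E => ind k E (K p.1) (p.2 : G)) := by
  classical
  have key : ∀ y ∈ Ideal.span (Set.range fun i => nrm k (K i)),
      ∀ a : MonoidAlgebra k G, res k E (a * y) ∈
        Submodule.span k (Set.range fun p : ι × E => ind k E (K p.1) (p.2 : G)) := by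
    intro y hy
    induction hy using Submodule.span_induction with
    | mem x h =>
      obtain ⟨i, rfl⟩ := h
      intro a
      induction a using MonoidAlgebra.induction_linear with
      | zero => simp
      | add x y hx hy => rw [add_mul, map_add]; exact Submodule.add_mem _ hx hy
      | single g r =>
        by_cases hE : ∃ e : E, g⁻¹ * (e : G) ∈ K i
        · obtain ⟨e, he⟩ := hE
          have h1 : res k E (single g r * nrm k (K i)) = r • ind k E (K i) e := by
            funext x
            simp only [res, AddMonoidHom.coe_mk, ZeroHom.coe_mk, Pi.smul_apply, smul_eq_mul]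
            rw [coeff_single_mul_nrm, ← ind_congr E (K i) (QuotientGroup.eq.2 he)]
            simp [ind]
          rw [h1]
          exact Submodule.smul_mem _ _ (Submodule.subset_span ⟨(i, e), rfl⟩)
        · have h1 : res k E (single g r * nrm k (K i)) = 0 := by
            funext x
            simp only [res, AddMonoidHom.coe_mk, ZeroHom.coe_mk, Pi.zero_apply]
            rw [coeff_single_mul_nrm, if_neg]
            intro h
            exact hE ⟨x, h⟩
          rw [h1]
          exact Submodule.zero_mem _
    | zero => intro a; simp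
    | add x y _ _ hx hy => intro a; rw [mul_add, map_add]; exact Submodule.add_mem _ (hx a) (hy a)
    | smul b x _ hx => intro a; rw [smul_eq_mul, ← mul_assoc]; exact hx _
  have := key x hx 1
  rwa [one_mul] at this

open Classical in
/-- the number of cosets of `K` that meet `E` -/
noncomputable def nc (E : Finset G) (K : Subgroup G) : ℕ :=
  (E.image fun e : G => (QuotientGroup.mk e : G ⧸ K)).card

theorem nc_le (E : Finset G) (K : Subgroup G) [Finite K] (N : ℕ) (hN : 0 < N)
    (hE : ∀ s ∈ K, N * (open Classical in ((E.image fun x => x * s) \ E).card) ≤ E.card) :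
    (nc E K : ℚ) ≤ E.card * (1 / Nat.card K + 1 / N) := by
  classical
  -- representatives
  have hrep : ∀ q ∈ E.image (fun e : G => (QuotientGroup.mk e : G ⧸ K)),
      ∃ e : G, e ∈ E ∧ (QuotientGroup.mk e : G ⧸ K) = q := by
    intro q hq
    obtain ⟨e, he, h⟩ := Finset.mem_image.1 hq
    exact ⟨e, he, h⟩
  choose! r hr1 hr2 using hrep
  let KF : Finset G := (Set.toFinite (K : Set G)).toFinset
  have hKF : ∀ s, s ∈ KF ↔ s ∈ K := by intro s; simp [KF]
  have hKcard : KF.card = Nat.card K := by
    rw [← Nat.card_eq_card_finite_toFinset]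
    rfl
  let U : Finset G := E ∪ KF.biUnion fun s => (E.image fun x => x * s) \ E
  have h1 : nc E K * KF.card ≤ U.card := by
    unfold nc
    rw [← Finset.card_product]
    refine Finset.card_le_card_of_injOn (fun p => r p.1 * p.2) ?_ ?_
    · rintro ⟨q, s⟩ hp
      rw [Finset.mem_coe, Finset.mem_product] at hp
      rw [Finset.mem_coe, Finset.mem_union]
      by_cases h : r q * s ∈ E
      · exact Or.inl h
      · right
        rw [Finset.mem_biUnion]
        refine ⟨s, hp.2, ?_⟩
        rw [Finset.mem_sdiff]
        exact ⟨Finset.mem_image.2 ⟨r q, hr1 q hp.1, rfl⟩, h⟩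
    · rintro ⟨q, s⟩ hp ⟨q', s'⟩ hp' heq
      rw [Finset.mem_coe, Finset.mem_product] at hp hp'
      simp only at heq hp hp'
      have h2 : q = q' := by
        rw [← hr2 q hp.1, ← hr2 q' hp'.1, QuotientGroup.eq]
        have e1 : (r q)⁻¹ * r q' = s * s'⁻¹ := by
          have : r q' = r q * s * s'⁻¹ := by rw [heq]; group
          rw [this]; group
        rw [e1]
        exact K.mul_mem ((hKF _).1 hp.2) (K.inv_mem ((hKF _).1 hp'.2))
      subst h2
      have h3 : s = s' := mul_left_cancel heq
      rw [h3]
  have h2 : U.card ≤ E.card + ∑ s ∈ KF, ((E.image fun x => x * s) \ E).card :=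
    (Finset.card_union_le _ _).trans (Nat.add_le_add_left Finset.card_biUnion_le _)
  have hNq : (0 : ℚ) < N := by exact_mod_cast hN
  have hKq : (0 : ℚ) < Nat.card K := by exact_mod_cast Nat.card_pos
  have h3 : ((∑ s ∈ KF, ((E.image fun x => x * s) \ E).card : ℕ) : ℚ) ≤ Nat.card K * (E.card / N) := by
    push_cast
    calc (∑ s ∈ KF, (((E.image fun x => x * s) \ E).card : ℚ)) ≤ ∑ s ∈ KF, ((E.card : ℚ) / N) := by
          refine Finset.sum_le_sum fun s hs => ?_
          rw [le_div_iff₀ hNq]
          have := hE s ((hKF s).1 hs)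
          have h4 : ((N * ((E.image fun x => x * s) \ E).card : ℕ) : ℚ) ≤ (E.card : ℚ) := by
            exact_mod_cast this
          push_cast at h4
          linarith
      _ = _ := by rw [Finset.sum_const, hKcard, nsmul_eq_mul]
  have h4 : (nc E K : ℚ) * Nat.card K ≤ E.card + Nat.card K * (E.card / N) := by
    have h5 : ((nc E K * KF.card : ℕ) : ℚ) ≤ ((E.card + ∑ s ∈ KF, ((E.image fun x => x * s) \ E).card : ℕ) : ℚ) := by
      exact_mod_cast h1.trans h2
    rw [hKcard] at h5
    push_cast at h5 h3
    linarith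
  have h6 : (nc E K : ℚ) ≤ (E.card + Nat.card K * (E.card / N)) / Nat.card K := by
    rw [le_div_iff₀ hKq]; exact h4
  refine h6.trans (le_of_eq ?_)
  field_simp

/-- a large subset of `E` whose elements are far from one another -/
theorem exists_sep (hT : (TFC G).Finite) (E : Finset G) :
    ∃ E0 : Finset G, E0 ⊆ E ∧ (∀ e ∈ E0, ∀ e' ∈ E0, e⁻¹ * e' ∈ TFC G → e = e') ∧
      E.card ≤ E0.card * (TFC G).ncard := by
  classical
  let P : Finset (Finset G) := E.powerset.filter fun E0 =>
    ∀ e ∈ E0, ∀ e' ∈ E0, e⁻¹ * e' ∈ TFC G → e = e'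
  have hP : P.Nonempty := ⟨∅, by simp [P]⟩
  obtain ⟨E0, hE0, hmax⟩ := Finset.exists_max_image P Finset.card hP
  simp only [P, Finset.mem_filter, Finset.mem_powerset] at hE0
  refine ⟨E0, hE0.1, hE0.2, ?_⟩
  have hinv : ∀ g ∈ TFC G, g⁻¹ ∈ TFC G := fun g hg => ⟨hg.1.inv, (FCC G).inv_mem hg.2⟩
  have hcov : E ⊆ (E0 ×ˢ hT.toFinset).image fun p => p.1 * p.2 := by
    intro x hx
    by_contra hcon
    have h1 : ∀ e ∈ E0, e⁻¹ * x ∉ TFC G := by
      intro e he h
      apply hcon
      refine Finset.mem_image.2 ⟨(e, e⁻¹ * x), ?_, by simp⟩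
      simp [he, h]
    have h2 : x ∉ E0 := fun h => h1 x h (by rw [inv_mul_cancel]; exact one_mem_tfc)
    have h3 : insert x E0 ∈ P := by
      simp only [P, Finset.mem_filter, Finset.mem_powerset]
      refine ⟨Finset.insert_subset hx hE0.1, ?_⟩
      intro e he e' he' h
      rw [Finset.mem_insert] at he he'
      rcases he with rfl | he
      · rcases he' with rfl | he'
        · rfl
        · exfalso
          apply h1 e' he'
          have := hinv _ h
          simpa using this
      · rcases he' with rfl | he'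
        · exact (h1 e he h).elim
        · exact hE0.2 e he e' he' h
    have h4 := hmax _ h3
    rw [Finset.card_insert_of_notMem h2] at h4
    omega
  calc E.card ≤ ((E0 ×ˢ hT.toFinset).image fun p => p.1 * p.2).card := Finset.card_le_card hcov
    _ ≤ (E0 ×ˢ hT.toFinset).card := Finset.card_image_le
    _ = E0.card * (TFC G).ncard := by
        rw [Finset.card_product, Set.ncard_eq_toFinset_card _ hT]

/-- the conjugate `g⁻¹ H g` -/
def cj (H : Subgroup G) (g : G) : Subgroup G := H.map (MulAut.conj g⁻¹).toMonoidHom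

theorem mem_cj {H : Subgroup G} {g x : G} : x ∈ cj H g ↔ g * x * g⁻¹ ∈ H := by
  unfold cj
  rw [Subgroup.mem_map]
  constructor
  · rintro ⟨y, hy, rfl⟩
    have : g * ((MulAut.conj g⁻¹).toMonoidHom y) * g⁻¹ = y := by simp [mul_assoc]
    rwa [this]
  · intro h
    refine ⟨_, h, ?_⟩
    simp [mul_assoc]

instance cj_finite (H : Subgroup G) [Finite H] (g : G) : Finite (cj H g) :=
  Finite.of_equiv H (H.equivMapOfInjective (MulAut.conj g⁻¹).toMonoidHom
    (MulAut.conj g⁻¹).injective).toEquiv

theorem card_cj (H : Subgroup G) (g : G) : Nat.card (cj H g) = Nat.card H := by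
  unfold cj
  exact (Nat.card_congr (H.equivMapOfInjective _ (MulAut.conj g⁻¹).injective).toEquiv).symm

/-- The density argument. -/
theorem density (hF : Fol G) (hT : (TFC G).Finite) {ι : Type*} [Fintype ι] (K : ι → Subgroup G)
    [∀ i, Finite (K i)] (H : Subgroup G) [Finite H]
    (hK : ∑ i, (1 : ℚ) / Nat.card (K i) < 1 / (2 * (TFC G).ncard))
    (hall : ∀ g, nrm k (cj H g) ∈ Ideal.span (Set.range fun i => nrm k (K i))) : False := by
  classical
  have hτ : 0 < (TFC G).ncard := (Set.ncard_pos hT).2 ⟨1, one_mem_tfc⟩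
  set τ := (TFC G).ncard with hτdef
  let N : ℕ := 4 * (Fintype.card ι + 1) * τ
  have hN : 0 < N := by positivity
  let S : Finset G := Finset.univ.biUnion fun i => (Set.toFinite (K i : Set G)).toFinset
  obtain ⟨E, hEne, hE⟩ := hF S N
  have hEK : ∀ i, ∀ s ∈ K i, N * ((E.image fun x => x * s) \ E).card ≤ E.card := by
    intro i s hs
    apply hE
    simp only [S, Finset.mem_biUnion, Finset.mem_univ, true_and]
    exact ⟨i, by simpa using hs⟩
  obtain ⟨E0, hE0, hsep, hcard⟩ := exists_sep hT E
  let V := Submodule.span k (Set.range fun p : ι × E => ind k E (K p.1) (p.2 : G))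
  -- upper bound
  have hup : (Module.finrank k V : ℚ) ≤ E.card * (∑ i, (1 : ℚ) / Nat.card (K i) + (Fintype.card ι : ℚ) / N) := by
    let D : Finset (E → k) := Finset.univ.biUnion fun i : ι =>
      (Finset.univ : Finset E).image fun e : E => ind k E (K i) (e : G)
    have hD : (Set.range fun p : ι × E => ind k E (K p.1) (p.2 : G)) = (D : Set (E → k)) := by
      ext f
      simp [D]
    have h1 : Module.finrank k V ≤ D.card := by
      show Module.finrank k (Submodule.span k _) ≤ _
      rw [hD]
      exact finrank_span_finset_le_card D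
    have h2 : D.card ≤ ∑ i : ι, nc E (K i) := by
      refine Finset.card_biUnion_le.trans (Finset.sum_le_sum fun i _ => ?_)
      unfold nc
      have h3 : ∀ f ∈ (Finset.univ : Finset E).image fun e : E => ind k E (K i) (e : G),
          ∃ q ∈ E.image (fun e : G => (QuotientGroup.mk e : G ⧸ K i)),
            ∀ e : G, (QuotientGroup.mk e : G ⧸ K i) = q → ind k E (K i) e = f := by
        intro f hf
        obtain ⟨e, _, rfl⟩ := Finset.mem_image.1 hf
        refine ⟨QuotientGroup.mk (e : G), Finset.mem_image.2 ⟨e, e.2, rfl⟩,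
          fun e' he' => ind_congr E (K i) he'⟩
      choose! q hq1 hq2 using h3
      refine Finset.card_le_card_of_injOn q (fun f hf => hq1 f hf) ?_
      intro f hf f' hf' hff
      obtain ⟨e, he⟩ := QuotientGroup.mk_surjective (q f)
      rw [← hq2 f hf e he, ← hq2 f' hf' e (by rw [he, hff])]
    have h3 : ((∑ i : ι, nc E (K i) : ℕ) : ℚ) ≤ ∑ i, (E.card : ℚ) * (1 / Nat.card (K i) + 1 / N) := by
      push_cast
      exact Finset.sum_le_sum fun i _ => nc_le E (K i) N hN (hEK i)
    calc (Module.finrank k V : ℚ) ≤ ((∑ i : ι, nc E (K i) : ℕ) : ℚ) := by exact_mod_cast h1.trans h2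
      _ ≤ _ := h3
      _ = _ := by
        rw [← Finset.mul_sum, Finset.sum_add_distrib, Finset.sum_const, nsmul_eq_mul,
          Finset.card_univ]
        ring
  -- lower bound
  have hlow : E0.card ≤ Module.finrank k V := by
    let ρ : (E → k) →ₗ[k] (E0 → k) := LinearMap.funLeft k k fun e : E0 => (⟨e, hE0 e.2⟩ : E)
    have h1 : Submodule.map ρ V = ⊤ := by
      rw [eq_top_iff, ← (Pi.basisFun k E0).span_eq, Submodule.span_le]
      rintro _ ⟨e, rfl⟩
      obtain ⟨g, hg⟩ := exists_conj H (Finset.image (fun p : G × G => p.1⁻¹ * p.2) (E ×ˢ E))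
      have h2 : single (e : G) 1 * nrm k (cj H g) ∈ Ideal.span (Set.range fun i => nrm k (K i)) :=
        Ideal.mul_mem_left _ _ (hall g)
      refine ⟨_, res_mem E K h2, ?_⟩
      funext e'
      simp only [ρ, LinearMap.funLeft_apply, res, AddMonoidHom.coe_mk, ZeroHom.coe_mk,
        Pi.basisFun_apply]
      rw [coeff_single_mul_nrm]
      by_cases h3 : e' = e
      · subst h3
        rw [Pi.single_eq_same, if_pos]
        rw [inv_mul_cancel]
        exact Subgroup.one_mem _
      · rw [Pi.single_eq_of_ne h3, if_neg]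
        intro h4
        apply h3
        have h5 := mem_cj.1 h4
        have h6 : g⁻¹ * (g * ((e : G)⁻¹ * e') * g⁻¹) * g = (e : G)⁻¹ * e' := by group
        have h7 := hg _ h5 (by
          rw [h6]
          refine Finset.mem_image.2 ⟨(e, e'), ?_, rfl⟩
          exact Finset.mem_product.2 ⟨hE0 e.2, hE0 e'.2⟩)
        have h8 := tfc_conj h7 g
        rw [h6] at h8
        exact Subtype.ext (hsep e e.2 e' e'.2 h8).symm
    have h2 : Module.finrank k (Submodule.map ρ V) ≤ Module.finrank k V := Submodule.finrank_map_le ρ V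
    rw [h1, finrank_top, Module.finrank_fintype_fun_eq_card, Fintype.card_coe] at h2
    exact h2
  -- conclusion
  have hEq : (0 : ℚ) < E.card := by exact_mod_cast Finset.card_pos.2 hEne
  have hτq : (0 : ℚ) < τ := by exact_mod_cast hτ
  have h1 : (Fintype.card ι : ℚ) / N ≤ 1 / (4 * τ) := by
    rw [div_le_div_iff₀ (by exact_mod_cast hN) (by positivity)]
    show (Fintype.card ι : ℚ) * (4 * τ) ≤ 1 * ((4 * (Fintype.card ι + 1) * τ : ℕ) : ℚ)
    push_cast
    nlinarith
  have h2 : (E.card : ℚ) ≤ E0.card * τ := by exact_mod_cast hcard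
  have h3 : (E0.card : ℚ) ≤ Module.finrank k V := by exact_mod_cast hlow
  have h4 : (E0.card : ℚ) < E.card * (1 / (2 * τ) + 1 / (4 * τ)) := by
    refine lt_of_le_of_lt (h3.trans hup) ?_
    refine mul_lt_mul_of_pos_left ?_ hEq
    linarith
  have h5 : (E0.card : ℚ) * τ < E.card * (1 / (2 * τ) + 1 / (4 * τ)) * τ :=
    mul_lt_mul_of_pos_right h4 hτq
  have h6 : (E.card : ℚ) * (1 / (2 * τ) + 1 / (4 * τ)) * τ = E.card * (3 / 4) := by
    field_simp
    norm_num
  rw [h6] at h5
  linarith

end Pool.Agent.Helper317
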