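import Mathlib
import Pool.Agent.Helper317.Rank
import Pool.Agent.Helper317.Aug

set_option autoImplicit false

/-!
# Finite subgroups of groups with a Noetherian group ring have bounded order
-/

namespace Pool.Agent.Helper317

open MonoidAlgebra

theorem noetherian_quot (R G : Type*) [CommRing R] [Group G]
    [IsNoetherianRing (MonoidAlgebra R G)] (m : Ideal R) :
    IsNoetherianRing (MonoidAlgebra (R ⧸ m) G) := by
  refine isNoetherianRing_of_surjective _ _ (MonoidAlgebra.mapRingHom G (Ideal.Quotient.mk m)) ?_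
  intro x
  induction x using MonoidAlgebra.induction_linear with
  | zero => exact ⟨0, map_zero _⟩
  | add x y hx hy =>
    obtain ⟨a, rfl⟩ := hx
    obtain ⟨b, rfl⟩ := hy
    exact ⟨a + b, map_add _ _ _⟩
  | single g r =>
    obtain ⟨r, rfl⟩ := Ideal.Quotient.mk_surjective r
    exact ⟨single g r, by simp⟩

theorem bounded_of_field {k G : Type*} [Field k] [Group G] [IsNoetherianRing (MonoidAlgebra k G)]
    (hF : Fol G) (hmax : ∀ K : Subgroup G, K.FG) :
    ∃ n : ℕ, ∀ H : Subgroup G, Finite H → Nat.card H ≤ n := by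
  classical
  have hT : (TFC G).Finite := tfc_finite hmax
  by_contra hcon
  push Not at hcon
  have hτ : 0 < (TFC G).ncard := (Set.ncard_pos hT).2 ⟨1, one_mem_tfc⟩
  choose H hHf hHc using fun i : ℕ => hcon (2 ^ (i + 2) * (TFC G).ncard)
  haveI : ∀ i, Finite (H i) := hHf
  let I : (m : ℕ) → (ℕ → G) → Ideal (MonoidAlgebra k G) := fun m g =>
    Ideal.span (Set.range fun i : Fin m => nrm k (cj (H i) (g i)))
  obtain ⟨J, ⟨m, g, hJ⟩, hmaxJ⟩ := set_has_maximal_iff_noetherian.2
    (inferInstance : IsNoetherian (MonoidAlgebra k G) (MonoidAlgebra k G))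
    {J | ∃ m g, J = I m g} ⟨I 0 fun _ => 1, 0, fun _ => 1, rfl⟩
  refine density (k := k) hF hT (fun i : Fin m => cj (H i) (g i)) (H m) ?_ ?_
  · have hτq : (0 : ℚ) < (TFC G).ncard := by exact_mod_cast hτ
    have h1 : ∀ n : ℕ, ∑ i : Fin n, (1 : ℚ) / Nat.card (cj (H i) (g i)) ≤
        (1 / (2 * (TFC G).ncard)) * (1 - 1 / 2 ^ n) := by
      intro n
      induction n with
      | zero => simp
      | succ n ih =>
        rw [Fin.sum_univ_castSucc]
        have h2 : (1 : ℚ) / Nat.card (cj (H n) (g n)) ≤ 1 / (2 ^ (n + 2) * (TFC G).ncard) := by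
          rw [card_cj]
          apply one_div_le_one_div_of_le
          · positivity
          · exact_mod_cast (hHc n).le
        have h3 : ((1 : ℚ) / (2 * (TFC G).ncard)) * (1 - 1 / 2 ^ n) + 1 / (2 ^ (n + 2) * (TFC G).ncard)
            = (1 / (2 * (TFC G).ncard)) * (1 - 1 / 2 ^ (n + 1)) := by
          field_simp
          ring
        simp only [Fin.val_castSucc, Fin.val_last]
        linarith
    refine lt_of_le_of_lt (h1 m) ?_
    have h4 : (0 : ℚ) < 1 / (2 * (TFC G).ncard) := by positivity
    have h5 : (0 : ℚ) < 1 / 2 ^ m := by positivity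
    nlinarith
  · intro x
    let g' : ℕ → G := fun i => if i < m then g i else x
    have hsub : J ≤ I (m + 1) g' := by
      rw [hJ]
      refine Ideal.span_le.2 ?_
      rintro _ ⟨i, rfl⟩
      refine Ideal.subset_span ⟨i.castSucc, ?_⟩
      simp [g', i.2]
    have hnot := hmaxJ _ ⟨m + 1, g', rfl⟩
    have heq : I (m + 1) g' ≤ J := by
      by_contra hlt
      exact hnot (lt_of_le_not_ge hsub hlt)
    have hmem : nrm k (cj (H m) x) ∈ I (m + 1) g' := by
      refine Ideal.subset_span ⟨Fin.last m, ?_⟩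
      simp [g']
    have := heq hmem
    rw [hJ] at this
    exact this

theorem bounded (R G : Type*) [CommRing R] [IsDomain R] [Infinite R] [Group G]
    [IsNoetherianRing (MonoidAlgebra R G)] :
    ∃ n : ℕ, ∀ H : Subgroup G, Finite H → Nat.card H ≤ n := by
  obtain ⟨m, hm⟩ := Ideal.exists_maximal R
  letI : Field (R ⧸ m) := Ideal.Quotient.field m
  haveI : IsNoetherianRing (MonoidAlgebra (R ⧸ m) G) := noetherian_quot R G m
  exact bounded_of_field (k := R ⧸ m) (fol_of_noetherian R G) (fg_of_noetherian R G)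

end Pool.Agent.Helper317
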