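import Mathlib
import Pool.Agent.Helper317.Aug

set_option autoImplicit false

/-!
# Deviation of posets (Krull dimension) and a descending chain of left ideals in group rings
-/

namespace Pool.Agent.Helper317

open MonoidAlgebra

/-- `DevLT n a b` says that the deviation of the interval from `a` to `b` is less than `n`: for
`n = 0` the interval is trivial, and in general every descending sequence in the interval has all
but finitely many of its factors of deviation less than `n - 1`. -/
def DevLT {α : Type*} [PartialOrder α] : ℕ → α → α → Prop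
  | 0, a, b => a = b
  | n + 1, a, b => ∀ f : ℕ → α, Antitone f → (∀ i, a ≤ f i ∧ f i ≤ b) →
      ∃ m : ℕ, ∀ i, m ≤ i → DevLT n (f (i + 1)) (f i)

theorem DevLT.mono {α : Type*} [PartialOrder α] : ∀ (n : ℕ) {a b a' b' : α}, DevLT n a b →
    a ≤ a' → a' ≤ b' → b' ≤ b → DevLT n a' b'
  | 0, a, b, a', b', h, h1, h2, h3 => by
    have h' : a = b := h
    subst h'
    have e1 : a' = a := le_antisymm (h2.trans h3) h1
    have e2 : b' = a := le_antisymm h3 (h1.trans h2)
    show a' = b'
    rw [e1, e2]
  | n + 1, a, b, a', b', h, h1, h2, h3 => by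
    intro f hf hab
    exact h f hf fun i => ⟨h1.trans (hab i).1, (hab i).2.trans h3⟩

/-- Transfer of the bound along a strictly monotone map. -/
theorem DevLT.of_map {α β : Type*} [PartialOrder α] [PartialOrder β] (φ : α → β) :
    ∀ (n : ℕ) {a b : α} {c d : β}, DevLT n c d → a ≤ b → c ≤ φ a → φ b ≤ d →
      (∀ x y, a ≤ x → x ≤ y → y ≤ b → φ x ≤ φ y) →
      (∀ x y, a ≤ x → x ≤ y → y ≤ b → φ x = φ y → x = y) → DevLT n a b
  | 0, a, b, c, d, h, hab, h1, h2, hm, hs => by
    have h' : c = d := h
    subst h'
    refine hs a b le_rfl hab le_rfl ?_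
    exact le_antisymm (hm a b le_rfl hab le_rfl) (h2.trans h1)
  | n + 1, a, b, c, d, h, hab, h1, h2, hm, hs => by
    intro f hf hfab
    have hanti : Antitone fun i => φ (f i) := by
      intro i j hij
      exact hm _ _ (hfab j).1 (hf hij) (hfab i).2
    obtain ⟨m, hm'⟩ := h (fun i => φ (f i)) hanti fun i =>
      ⟨h1.trans (hm _ _ le_rfl (hfab i).1 (hfab i).2), (hm _ _ (hfab i).1 (hfab i).2 le_rfl).trans h2⟩
    refine ⟨m, fun i hi => ?_⟩
    refine DevLT.of_map φ n (hm' i hi) (hf (Nat.le_succ i)) le_rfl le_rfl ?_ ?_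
    · intro x y hx hxy hy
      exact hm x y ((hfab _).1.trans hx) hxy (hy.trans (hfab _).2)
    · intro x y hx hxy hy he
      exact hs x y ((hfab _).1.trans hx) hxy (hy.trans (hfab _).2) he

/-- A ring has finite (left) Krull dimension if the lattice of its left ideals has finite
deviation. -/
def FiniteKrullDim (R : Type*) [Ring R] : Prop :=
  ∃ n : ℕ, DevLT n (⊥ : Ideal R) (⊤ : Ideal R)

section

variable {R G : Type*} [CommRing R] [Group G]

open Classical in
theorem mem_aug_of_cosetSum (K : Subgroup G) {x : MonoidAlgebra R G} (hx : cosetSum R K x = 0) :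
    x ∈ aug R K := by
  let ρ : (G ⧸ K →₀ R) →+ MonoidAlgebra R G :=
    Finsupp.liftAddHom fun q : G ⧸ K =>
      { toFun := fun r => single (Quotient.out q) r
        map_zero' := by simp
        map_add' := fun a b => by simp }
  have key : ∀ y : MonoidAlgebra R G, y - ρ (cosetSum R K y) ∈ aug R K := by
    intro y
    induction y using MonoidAlgebra.induction_linear with
    | zero => simp
    | add a b ha hb =>
      rw [map_add, map_add]
      have : a + b - (ρ (cosetSum R K a) + ρ (cosetSum R K b)) =
        (a - ρ (cosetSum R K a)) + (b - ρ (cosetSum R K b)) := by abel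
      rw [this]
      exact Ideal.add_mem _ ha hb
    | single g r =>
      rw [cosetSum_single]
      have h1 : ρ (Finsupp.single (g : G ⧸ K) r) = single (Quotient.out (g : G ⧸ K)) r := by
        simp [ρ]
      rw [h1]
      set h := Quotient.out (g : G ⧸ K) with hdef
      have h2 : h⁻¹ * g ∈ K := by
        have : (h : G ⧸ K) = (g : G ⧸ K) := Quotient.out_eq' (g : G ⧸ K)
        exact QuotientGroup.eq.1 this
      have h3 : single g r - single h r = single h r * (single (h⁻¹ * g) (1 : R) - 1) := by
        rw [mul_sub, mul_one, single_mul_single, mul_one, mul_inv_cancel_left]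
      rw [h3]
      exact Ideal.mul_mem_left _ _ (Ideal.subset_span ⟨_, h2, rfl⟩)
  have := key x
  rwa [hx, map_zero, sub_zero] at this

/-- right translation on the left cosets of `K` by an element normalising `K` -/
def rmul (K : Subgroup G) (s : G) (hs : ∀ k ∈ K, s⁻¹ * k * s ∈ K) : G ⧸ K → G ⧸ K :=
  Quotient.map' (fun g => g * s) (by
    intro a b hab
    rw [QuotientGroup.leftRel_apply] at hab ⊢
    have := hs _ hab
    have e : s⁻¹ * (a⁻¹ * b) * s = (a * s)⁻¹ * (b * s) := by group
    rwa [e] at this)

theorem rmul_mk (K : Subgroup G) (s : G) (hs : ∀ k ∈ K, s⁻¹ * k * s ∈ K) (g : G) :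
    rmul K s hs (g : G ⧸ K) = ((g * s : G) : G ⧸ K) := rfl

theorem cosetSum_mul_single (K : Subgroup G) (s : G) (hs : ∀ k ∈ K, s⁻¹ * k * s ∈ K)
    (x : MonoidAlgebra R G) :
    cosetSum R K (x * single s 1) = Finsupp.mapDomain (rmul K s hs) (cosetSum R K x) := by
  induction x using MonoidAlgebra.induction_linear with
  | zero => simp
  | add a b ha hb => rw [add_mul, map_add, map_add, Finsupp.mapDomain_add, ha, hb]
  | single g r =>
    rw [single_mul_single, mul_one, cosetSum_single, cosetSum_single, Finsupp.mapDomain_single,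
      rmul_mk]

end

section

variable {G : Type*} [Group G]

/-- the Laplacian of a finite set -/
noncomputable def lap (S : Finset G) : MonoidAlgebra ℤ G :=
  ∑ s ∈ S, (1 - single s 1)

theorem lap_mem (S : Finset G) (F : Subgroup G) (hS : (S : Set G) ⊆ F) : lap S ∈ aug ℤ F := by
  refine Ideal.sum_mem _ fun s hs => ?_
  have : (1 : MonoidAlgebra ℤ G) - single s 1 = -(single s 1 - 1) := by abel
  rw [this]
  exact (aug ℤ F).neg_mem (Ideal.subset_span ⟨s, hS hs, rfl⟩)

/-- Maximum principle. -/
theorem lap_injective (K F : Subgroup G) (hKF : K ≤ F) (hn : ∀ s ∈ F, ∀ k ∈ K, s * k * s⁻¹ ∈ K)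
    (hinf : K.relIndex F = 0) (S : Finset G) (hSi : ∀ s ∈ S, s⁻¹ ∈ S)
    (hS : Subgroup.closure (S : Set G) = F) {x : MonoidAlgebra ℤ G}
    (hx : x * lap S ∈ aug ℤ K) : x ∈ aug ℤ K := by
  classical
  have hSF : ∀ s ∈ S, s ∈ F := fun s hs => hS ▸ Subgroup.subset_closure hs
  have hn' : ∀ s ∈ F, ∀ k ∈ K, s⁻¹ * k * s ∈ K := by
    intro s hs k hk
    have := hn s⁻¹ (F.inv_mem hs) k hk
    simpa using this
  set y : G ⧸ K →₀ ℤ := cosetSum ℤ K x with hy
  -- the equation
  have heq : ∀ g : G, ∑ s ∈ S, (y (g : G ⧸ K) - y ((g * s : G) : G ⧸ K)) = 0 := by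
    intro g
    have h1 := cosetSum_of_mem K hx
    have h2 : cosetSum ℤ K (x * lap S) =
        ∑ s ∈ S, (y - cosetSum ℤ K (x * single s 1)) := by
      unfold lap
      rw [Finset.mul_sum, map_sum]
      refine Finset.sum_congr rfl fun s _ => ?_
      rw [mul_sub, mul_one, map_sub]
    rw [h2] at h1
    have h3 := DFunLike.congr_fun h1 (g : G ⧸ K)
    rw [Finsupp.coe_zero, Pi.zero_apply, Finsupp.finsetSum_apply] at h3
    rw [← h3]
    have h4 : ∀ s ∈ S, (cosetSum ℤ K (x * single s 1)) (g : G ⧸ K) = y ((g * s⁻¹ : G) : G ⧸ K) := by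
      intro s hs
      rw [cosetSum_mul_single K s (hn' s (hSF s hs))]
      have hinj : Function.Injective (rmul K s (hn' s (hSF s hs))) := by
        intro p q hpq
        induction p using QuotientGroup.induction_on with
        | H a =>
          induction q using QuotientGroup.induction_on with
          | H b =>
            rw [rmul_mk, rmul_mk, QuotientGroup.eq] at hpq
            rw [QuotientGroup.eq]
            have := hn s (hSF s hs) _ hpq
            have e : s * ((a * s)⁻¹ * (b * s)) * s⁻¹ = a⁻¹ * b := by group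
            rwa [e] at this
      have e : (g : G ⧸ K) = rmul K s (hn' s (hSF s hs)) ((g * s⁻¹ : G) : G ⧸ K) := by
        rw [rmul_mk]; simp
      conv_lhs => rw [e]
      exact Finsupp.mapDomain_apply hinj _ _
    have h5 : ∑ s ∈ S, (y (g : G ⧸ K) - y ((g * s : G) : G ⧸ K)) =
        ∑ s ∈ S, (y (g : G ⧸ K) - y ((g * s⁻¹ : G) : G ⧸ K)) := by
      refine Finset.sum_nbij' (fun s => s⁻¹) (fun s => s⁻¹) ?_ ?_ ?_ ?_ ?_
      · intro s hs; exact hSi s hs
      · intro s hs; exact hSi s hs
      · intro s _; simp
      · intro s _; simp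
      · intro s _; simp
    rw [h5]
    refine Finset.sum_congr rfl fun s hs => ?_
    rw [Finsupp.sub_apply, h4 s hs]
  -- the maximum principle
  have hmax : ∀ z : G ⧸ K →₀ ℤ,
      (∀ g : G, ∑ s ∈ S, (z (g : G ⧸ K) - z ((g * s : G) : G ⧸ K)) = 0) → ∀ q, z q ≤ 0 := by
    intro z hz
    by_contra hcon
    push Not at hcon
    obtain ⟨q0, hq0⟩ := hcon
    have hne : z.support.Nonempty := ⟨q0, by simpa using hq0.ne'⟩
    obtain ⟨q1, hq1, hq1max⟩ := Finset.exists_max_image z.support z hne
    have hM : ∀ q, z q ≤ z q1 := by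
      intro q
      by_cases hq : q ∈ z.support
      · exact hq1max q hq
      · have h0 : z q = 0 := by simpa using hq
        rw [h0]
        have := hq1max q0 (by simpa using hq0.ne')
        omega
    have hMpos : 0 < z q1 := lt_of_lt_of_le hq0 (hM q0)
    obtain ⟨g1, rfl⟩ := QuotientGroup.mk_surjective q1
    have hstep : ∀ g : G, z (g : G ⧸ K) = z (g1 : G ⧸ K) → ∀ s ∈ S,
        z ((g * s : G) : G ⧸ K) = z (g1 : G ⧸ K) := by
      intro g hg s hs
      have h1 := hz g
      have h2 := (Finset.sum_eq_zero_iff_of_nonneg (fun s _ => by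
        have := hM ((g * s : G) : G ⧸ K)
        rw [hg]; omega)).1 h1 s hs
      rw [hg] at h2
      omega
    have hall : ∀ f ∈ F, ∀ g : G, z (g : G ⧸ K) = z (g1 : G ⧸ K) →
        z ((g * f : G) : G ⧸ K) = z (g1 : G ⧸ K) := by
      intro f hf
      rw [← hS] at hf
      induction hf using Subgroup.closure_induction'' with
      | mem s hs => intro g hg; exact hstep g hg s hs
      | inv_mem s hs => intro g hg; exact hstep g hg _ (hSi s hs)
      | one => intro g hg; simpa using hg
      | mul a b _ _ ha hb =>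
        intro g hg
        rw [← mul_assoc]
        exact hb _ (ha g hg)
    -- infinitely many cosets in the support
    have hfin : Finite (F ⧸ K.subgroupOf F) := by
      let φ : F ⧸ K.subgroupOf F → z.support := fun q =>
        ⟨((g1 * (Quotient.out q : F) : G) : G ⧸ K), by
          have := hall (Quotient.out q : F) (Quotient.out q : F).2 g1 rfl
          rw [Finsupp.mem_support_iff, this]
          exact hMpos.ne'⟩
      refine Finite.of_injective φ ?_
      intro p q hpq
      have h1 := congrArg Subtype.val hpq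
      simp only [φ] at h1
      rw [QuotientGroup.eq] at h1
      have e : (g1 * ((Quotient.out p : F) : G))⁻¹ * (g1 * ((Quotient.out q : F) : G)) =
        (((Quotient.out p)⁻¹ * (Quotient.out q) : F) : G) := by
        push_cast
        group
      rw [e] at h1
      have h2 : ((Quotient.out p : F) : F ⧸ K.subgroupOf F) = ((Quotient.out q : F) : F ⧸ K.subgroupOf F) :=
        QuotientGroup.eq.2 (Subgroup.mem_subgroupOf.2 h1)
      simpa using h2
    have h0 : (K.subgroupOf F).index = 0 := hinf
    have h1 : (K.subgroupOf F).index ≠ 0 := by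
      rw [Subgroup.index]
      exact Nat.card_pos.ne'
    exact h1 h0
  have hle := hmax y heq
  have hge := hmax (-y) (by
    intro g
    have h1 := heq g
    have h2 : ∑ s ∈ S, ((-y) (g : G ⧸ K) - (-y) ((g * s : G) : G ⧸ K)) =
        - ∑ s ∈ S, (y (g : G ⧸ K) - y ((g * s : G) : G ⧸ K)) := by
      rw [← Finset.sum_neg_distrib]
      refine Finset.sum_congr rfl fun s _ => ?_
      rw [Finsupp.neg_apply, Finsupp.neg_apply]
      ring
    rw [h2, h1, neg_zero])
  apply mem_aug_of_cosetSum
  rw [← hy]
  ext q
  have h1 := hle q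
  have h2 := hge q
  rw [Finsupp.neg_apply] at h2
  rw [Finsupp.coe_zero, Pi.zero_apply]
  omega

end

end Pool.Agent.Helper317
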