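import Mathlib
import Pool.Agent.Helper317.Krull

set_option autoImplicit false

/-!
# Chains of subgroups with infinite factors and Krull dimension
-/

namespace Pool.Agent.Helper317

open MonoidAlgebra

variable {G : Type*} [Group G]

/-- `K` is a normal subgroup of `H` (both subgroups of a common group) -/
def Nm (K H : Subgroup G) : Prop := K ≤ H ∧ ∀ h ∈ H, ∀ k ∈ K, h * k * h⁻¹ ∈ K

/-- right multiplication by an element followed by adding the left ideal of `K` -/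
noncomputable def phi (K : Subgroup G) (r : MonoidAlgebra ℤ G) (I : Ideal (MonoidAlgebra ℤ G)) :
    Ideal (MonoidAlgebra ℤ G) :=
  Submodule.map (LinearMap.toSpanSingleton (MonoidAlgebra ℤ G) (MonoidAlgebra ℤ G) r) I ⊔ aug ℤ K

theorem mem_phi {K : Subgroup G} {r : MonoidAlgebra ℤ G} {I : Ideal (MonoidAlgebra ℤ G)}
    {x : MonoidAlgebra ℤ G} : x ∈ phi K r I ↔ ∃ y ∈ I, ∃ c ∈ aug ℤ K, y * r + c = x := by
  unfold phi
  rw [Submodule.mem_sup]
  constructor
  · rintro ⟨u, hu, c, hc, rfl⟩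
    obtain ⟨y, hy, rfl⟩ := Submodule.mem_map.1 hu
    exact ⟨y, hy, c, hc, rfl⟩
  · rintro ⟨y, hy, c, hc, rfl⟩
    exact ⟨y * r, Submodule.mem_map.2 ⟨y, hy, rfl⟩, c, hc, rfl⟩

theorem phi_mono (K : Subgroup G) (r : MonoidAlgebra ℤ G) {I J : Ideal (MonoidAlgebra ℤ G)}
    (h : I ≤ J) : phi K r I ≤ phi K r J := by
  intro x hx
  obtain ⟨y, hy, c, hc, rfl⟩ := mem_phi.1 hx
  exact mem_phi.2 ⟨y, h hy, c, hc, rfl⟩

theorem devLT_step (K F : Subgroup G) (hKF : Nm K F) (hinf : K.relIndex F = 0) (hfg : F.FG) (n : ℕ)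
    (h : DevLT (n + 1) (aug ℤ K) (⊤ : Ideal (MonoidAlgebra ℤ G))) :
    DevLT n (aug ℤ F) (⊤ : Ideal (MonoidAlgebra ℤ G)) := by
  classical
  obtain ⟨S0, hS0⟩ := hfg
  let S : Finset G := S0 ∪ S0.image (fun s => s⁻¹)
  have hSi : ∀ s ∈ S, s⁻¹ ∈ S := by
    intro s hs
    rw [Finset.mem_union, Finset.mem_image] at hs ⊢
    rcases hs with hs | ⟨t, ht, rfl⟩
    · exact Or.inr ⟨s, hs, rfl⟩
    · rw [inv_inv]; exact Or.inl ht
  have hS : Subgroup.closure (S : Set G) = F := by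
    apply le_antisymm
    · rw [Subgroup.closure_le]
      intro s hs
      rw [Finset.mem_coe, Finset.mem_union, Finset.mem_image] at hs
      rcases hs with hs | ⟨t, ht, rfl⟩
      · rw [← hS0]; exact Subgroup.subset_closure hs
      · rw [← hS0]; exact Subgroup.inv_mem _ (Subgroup.subset_closure ht)
    · rw [← hS0]
      refine Subgroup.closure_mono ?_
      intro s hs
      rw [Finset.mem_coe, Finset.mem_union]
      exact Or.inl hs
  have hSF : (S : Set G) ⊆ F := by rw [← hS]; exact Subgroup.subset_closure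
  set a := lap S with ha
  have haF : a ∈ aug ℤ F := lap_mem S F hSF
  have hinj : ∀ m : ℕ, ∀ x : MonoidAlgebra ℤ G, x * a ^ m ∈ aug ℤ K → x ∈ aug ℤ K := by
    intro m
    induction m with
    | zero => intro x hx; simpa using hx
    | succ m ih =>
      intro x hx
      rw [pow_succ, ← mul_assoc] at hx
      exact ih x (lap_injective K F hKF.1 hKF.2 hinf S hSi hS hx)
  have hle : ∀ m, phi K (a ^ (m + 1)) ⊤ ≤ phi K (a ^ m) (aug ℤ F) := by
    intro m x hx
    obtain ⟨y, _, c, hc, rfl⟩ := mem_phi.1 hx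
    refine mem_phi.2 ⟨y * a, Ideal.mul_mem_left _ _ haF, c, hc, ?_⟩
    rw [pow_succ', mul_assoc]
  obtain ⟨m, hm⟩ := h (fun i => phi K (a ^ i) ⊤)
    (antitone_nat_of_succ_le fun i => (hle i).trans (phi_mono K _ le_top))
    fun i => ⟨le_sup_right, le_top⟩
  refine DevLT.of_map (phi K (a ^ m)) n (hm m le_rfl) le_top (hle m) le_rfl ?_ ?_
  · intro x y _ hxy _
    exact phi_mono K _ hxy
  · intro x y hx hxy _ he
    refine le_antisymm hxy ?_
    intro u hu
    have h1 : u * a ^ m ∈ phi K (a ^ m) y := mem_phi.2 ⟨u, hu, 0, Ideal.zero_mem _, by rw [add_zero]⟩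
    rw [← he] at h1
    obtain ⟨v, hv, c, hc, hvc⟩ := mem_phi.1 h1
    have h2 : (u - v) * a ^ m ∈ aug ℤ K := by
      rw [sub_mul, ← hvc, add_sub_cancel_left]
      exact hc
    have h3 : u - v ∈ x := hx (aug_mono hKF.1 (hinj m _ h2))
    have h4 : u = (u - v) + v := by abel
    rw [h4]
    exact Ideal.add_mem _ h3 hv

/-- `InfChain n K H`: between `K` and `H` there is a chain
`K ≤ K₁ ⊲ F₁ ≤ K₂ ⊲ F₂ ≤ ⋯ ≤ Kₙ ⊲ Fₙ ≤ H` in which all the indices of `Kᵢ` in `Fᵢ` are infinite. -/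
def InfChain : ℕ → Subgroup G → Subgroup G → Prop
  | 0, K, H => K ≤ H
  | n + 1, K, H => ∃ K' F : Subgroup G, K ≤ K' ∧ Nm K' F ∧ K'.relIndex F = 0 ∧ InfChain n F H

theorem InfChain.mono_top : ∀ (n : ℕ) {K H H' : Subgroup G}, InfChain n K H → H ≤ H' →
    InfChain n K H'
  | 0, _, _, _, h, hH => le_trans (show _ ≤ _ from h) hH
  | n + 1, _, _, _, ⟨K', F, h1, h2, h3, h4⟩, hH => ⟨K', F, h1, h2, h3, h4.mono_top n hH⟩

theorem InfChain.mono_bot : ∀ (n : ℕ) {K L H : Subgroup G}, InfChain n K H → L ≤ K →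
    InfChain n L H
  | 0, _, _, _, h, hH => le_trans hH (show _ ≤ _ from h)
  | n + 1, _, _, _, ⟨K', F, h1, h2, h3, h4⟩, hH => ⟨K', F, hH.trans h1, h2, h3, h4⟩

theorem InfChain.trans : ∀ (a b : ℕ) {K L H : Subgroup G}, InfChain a K L → InfChain b L H →
    InfChain (a + b) K H
  | 0, b, _, _, _, h, h' => by
    rw [Nat.zero_add]; exact h'.mono_bot b h
  | a + 1, b, _, _, _, ⟨K', F, h1, h2, h3, h4⟩, h' => by
    rw [show a + 1 + b = (a + b) + 1 by ring]
    exact ⟨K', F, h1, h2, h3, h4.trans a b h'⟩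

theorem devLT_chain (hmax : ∀ K : Subgroup G, K.FG) : ∀ (n m : ℕ) {K H : Subgroup G},
    InfChain n K H → DevLT (m + n) (aug ℤ K) (⊤ : Ideal (MonoidAlgebra ℤ G)) →
      DevLT m (aug ℤ H) (⊤ : Ideal (MonoidAlgebra ℤ G))
  | 0, m, K, H, h, hd => DevLT.mono m hd (aug_mono h) le_top le_rfl
  | n + 1, m, K, H, ⟨K', F, h1, h2, h3, h4⟩, hd => by
    refine devLT_chain hmax n m h4 ?_
    refine devLT_step K' F h2 h3 (hmax F) (m + n) ?_
    exact DevLT.mono (m + n + 1) hd (aug_mono h1) le_top le_rfl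

theorem aug_ne_top (H : Subgroup G) : aug ℤ H ≠ ⊤ := by
  intro h
  have h1 : (1 : MonoidAlgebra ℤ G) ∈ aug ℤ H := by rw [h]; trivial
  have h2 := cosetSum_of_mem H h1
  rw [one_def, cosetSum_single] at h2
  have h3 := DFunLike.congr_fun h2 ((1 : G) : G ⧸ H)
  simp at h3

/-- The number of infinite factors in a chain of subgroups is bounded by the Krull dimension. -/
theorem not_infChain (hmax : ∀ K : Subgroup G, K.FG) (n : ℕ)
    (h : DevLT n (⊥ : Ideal (MonoidAlgebra ℤ G)) ⊤) : ¬ InfChain n (⊥ : Subgroup G) ⊤ := by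
  intro hc
  have h1 : DevLT (0 + n) (aug ℤ (⊥ : Subgroup G)) (⊤ : Ideal (MonoidAlgebra ℤ G)) := by
    rw [Nat.zero_add]
    exact DevLT.mono n h bot_le le_top le_rfl
  have h2 : DevLT 0 (aug ℤ (⊤ : Subgroup G)) (⊤ : Ideal (MonoidAlgebra ℤ G)) :=
    devLT_chain hmax n 0 hc h1
  exact aug_ne_top _ h2

end Pool.Agent.Helper317
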