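import Mathlib
import Pool.Agent.Helper317.Chain

set_option autoImplicit false

/-!
# Series of subgroups: definitions and transport
-/

namespace Pool.Agent.Helper317

variable {G P Q : Type*} [Group G] [Group P] [Group Q]

/-- `H / K` is cyclic -/
def Cyc (K H : Subgroup G) : Prop := ∃ x ∈ H, ∀ h ∈ H, ∃ n : ℤ, h * x ^ n ∈ K

/-- `H / K` is infinite and simple -/
def Sim (K H : Subgroup G) : Prop :=
  K.relIndex H = 0 ∧ ∀ B : Subgroup G, K ≤ B → Nm B H → B = K ∨ B = H

/-- `H / K` is residually finite, hereditarily just infinite and not virtually cyclic -/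
def HJ (K H : Subgroup G) : Prop := K.relIndex H = 0 ∧
  (∀ x ∈ H, x ∉ K → ∃ L : Subgroup G, K ≤ L ∧ L ≤ H ∧ L.relIndex H ≠ 0 ∧ x ∉ L) ∧
  (∀ L B : Subgroup G, K ≤ B → Nm B L → L ≤ H → L.relIndex H ≠ 0 → B ≠ K → B.relIndex H ≠ 0) ∧
  ∀ C : Subgroup G, K ≤ C → C ≤ H → C.relIndex H ≠ 0 → ¬ Cyc K C

/-- the admissible factors -/
def Fac (K H : Subgroup G) : Prop :=
  Nm K H ∧ (K.relIndex H ≠ 0 ∨ Cyc K H ∨ Sim K H ∨ HJ K H)

/-- finite series of subgroups with admissible factors -/
inductive Ser : Subgroup G → Subgroup G → Prop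
  | refl (K : Subgroup G) : Ser K K
  | step {K H T : Subgroup G} : Ser K H → Fac H T → Ser K T

theorem Ser.trans {K H T : Subgroup G} (h1 : Ser K H) (h2 : Ser H T) : Ser K T := by
  induction h2 with
  | refl => exact h1
  | step _ hf ih => exact Ser.step ih hf

theorem Ser.of_fac {K H : Subgroup G} (h : Fac K H) : Ser K H := Ser.step (Ser.refl K) h

theorem Nm.comap (f : P →* Q) {K H : Subgroup Q} (h : Nm K H) : Nm (K.comap f) (H.comap f) :=
  ⟨Subgroup.comap_mono h.1, fun x hx k hk => by
    rw [Subgroup.mem_comap] at hx hk ⊢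
    rw [map_mul, map_mul, map_inv]
    exact h.2 _ hx _ hk⟩

theorem Nm.map (f : P →* Q) {K H : Subgroup P} (h : Nm K H) : Nm (K.map f) (H.map f) := by
  refine ⟨Subgroup.map_mono h.1, ?_⟩
  rintro _ ⟨x, hx, rfl⟩ _ ⟨k, hk, rfl⟩
  exact ⟨x * k * x⁻¹, h.2 x hx k hk, by simp⟩

theorem relIndex_comap_comap (f : P →* Q) (hf : Function.Surjective f) (K H : Subgroup Q) :
    (K.comap f).relIndex (H.comap f) = K.relIndex H := by
  rw [Subgroup.relIndex_comap, Subgroup.map_comap_eq_self_of_surjective hf]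

theorem Cyc.map (f : P →* Q) {K C : Subgroup P} (h : Cyc K C) : Cyc (K.map f) (C.map f) := by
  obtain ⟨x, hx, h⟩ := h
  refine ⟨f x, ⟨x, hx, rfl⟩, ?_⟩
  rintro _ ⟨y, hy, rfl⟩
  obtain ⟨n, hn⟩ := h y hy
  exact ⟨n, y * x ^ n, hn, by simp⟩

theorem Cyc.comap (f : P →* Q) (hf : Function.Surjective f) {K C : Subgroup Q} (h : Cyc K C) :
    Cyc (K.comap f) (C.comap f) := by
  obtain ⟨x, hx, h⟩ := h
  obtain ⟨x, rfl⟩ := hf x
  refine ⟨x, hx, ?_⟩
  intro y hy
  obtain ⟨n, hn⟩ := h (f y) hy
  exact ⟨n, by rw [Subgroup.mem_comap]; simpa using hn⟩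

theorem Cyc.comap_inj (f : P →* Q) (hf : Function.Injective f) {K C : Subgroup P}
    (h : Cyc (K.map f) (C.map f)) : Cyc K C := by
  obtain ⟨_, ⟨x, hx, rfl⟩, h⟩ := h
  refine ⟨x, hx, ?_⟩
  intro y hy
  obtain ⟨n, z, hz, hn⟩ := h (f y) ⟨y, hy, rfl⟩
  refine ⟨n, ?_⟩
  rw [← map_zpow, ← map_mul] at hn
  rw [← hf hn]
  exact hz

theorem eq_comap_map (f : P →* Q) {K : Subgroup Q} {B : Subgroup P} (h : K.comap f ≤ B) :
    (B.map f).comap f = B := by
  apply Subgroup.comap_map_eq_self
  refine le_trans ?_ h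
  intro x hx
  rw [MonoidHom.mem_ker] at hx
  rw [Subgroup.mem_comap, hx]
  exact K.one_mem

theorem Fac.comap (f : P →* Q) (hf : Function.Surjective f) {K H : Subgroup Q} (h : Fac K H) :
    Fac (K.comap f) (H.comap f) := by
  obtain ⟨hn, h⟩ := h
  refine ⟨hn.comap f, ?_⟩
  rw [relIndex_comap_comap f hf]
  have hmap : ∀ B : Subgroup P, B ≤ H.comap f → B.map f ≤ H := fun B hB => Subgroup.map_le_iff_le_comap.2 hB
  rcases h with h | h | h | h
  · exact Or.inl h
  · exact Or.inr (Or.inl (h.comap f hf))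
  · right; right; left
    refine ⟨by rw [relIndex_comap_comap f hf]; exact h.1, ?_⟩
    intro B hB hBn
    have e := eq_comap_map f hB
    have h1 : Nm (B.map f) H := by
      have := hBn.map f
      rwa [Subgroup.map_comap_eq_self_of_surjective hf] at this
    have h2 : K ≤ B.map f := by
      have := Subgroup.map_mono (f := f) hB
      rwa [Subgroup.map_comap_eq_self_of_surjective hf] at this
    rcases h.2 _ h2 h1 with h3 | h3
    · left; rw [← e, h3]
    · right; rw [← e, h3]
  · right; right; right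
    obtain ⟨h1, h2, h3, h4⟩ := h
    refine ⟨by rw [relIndex_comap_comap f hf]; exact h1, ?_, ?_, ?_⟩
    · intro x hx hxK
      obtain ⟨L, hL1, hL2, hL3, hL4⟩ := h2 (f x) hx hxK
      exact ⟨L.comap f, Subgroup.comap_mono hL1, Subgroup.comap_mono hL2,
        by rw [relIndex_comap_comap f hf]; exact hL3, hL4⟩
    · intro L B hKB hBL hL hLi hBK
      have eB := eq_comap_map f hKB
      have eL := eq_comap_map f (hKB.trans hBL.1)
      have hKB' : K ≤ B.map f := by
        have := Subgroup.map_mono (f := f) hKB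
        rwa [Subgroup.map_comap_eq_self_of_surjective hf] at this
      rw [← eL, relIndex_comap_comap f hf] at hLi
      rw [← eB, relIndex_comap_comap f hf]
      refine h3 (L.map f) (B.map f) hKB' (hBL.map f) (hmap L hL) hLi ?_
      intro hcon
      exact hBK (by rw [← eB, hcon])
    · intro C hKC hCH hCi hcyc
      have eC := eq_comap_map f hKC
      rw [← eC, relIndex_comap_comap f hf] at hCi
      have hKC' : K ≤ C.map f := by
        have := Subgroup.map_mono (f := f) hKC
        rwa [Subgroup.map_comap_eq_self_of_surjective hf] at this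
      refine h4 (C.map f) hKC' (hmap C hCH) hCi ?_
      have := hcyc.map f
      rwa [Subgroup.map_comap_eq_self_of_surjective hf] at this

theorem Fac.map (f : P →* Q) (hf : Function.Injective f) {K H : Subgroup P} (h : Fac K H) :
    Fac (K.map f) (H.map f) := by
  obtain ⟨hn, h⟩ := h
  refine ⟨hn.map f, ?_⟩
  rw [Subgroup.relIndex_map_map_of_injective K H hf]
  have eq1 : ∀ B : Subgroup Q, B ≤ H.map f → (B.comap f).map f = B := by
    intro B hB
    exact Subgroup.map_comap_eq_self (hB.trans (Subgroup.map_le_range f H))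
  have eq2 : ∀ B : Subgroup P, (B.map f).comap f = B := fun B =>
    Subgroup.comap_map_eq_self_of_injective hf B
  have hcm : ∀ B : Subgroup Q, B ≤ H.map f → B.comap f ≤ H := by
    intro B hB
    have := Subgroup.comap_mono (f := f) hB
    rwa [eq2] at this
  rcases h with h | h | h | h
  · exact Or.inl h
  · exact Or.inr (Or.inl (h.map f))
  · right; right; left
    refine ⟨by rw [Subgroup.relIndex_map_map_of_injective K H hf]; exact h.1, ?_⟩
    intro B hB hBn
    have h1 : Nm (B.comap f) H := by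
      have := hBn.comap f
      rwa [eq2] at this
    rcases h.2 _ (Subgroup.map_le_iff_le_comap.1 hB) h1 with h3 | h3
    · left; rw [← eq1 B hBn.1, h3]
    · right; rw [← eq1 B hBn.1, h3]
  · right; right; right
    obtain ⟨h1, h2, h3, h4⟩ := h
    refine ⟨by rw [Subgroup.relIndex_map_map_of_injective K H hf]; exact h1, ?_, ?_, ?_⟩
    · rintro _ ⟨x, hx, rfl⟩ hxK
      have hxK' : x ∉ K := fun hc => hxK ⟨x, hc, rfl⟩
      obtain ⟨L, hL1, hL2, hL3, hL4⟩ := h2 x hx hxK'
      refine ⟨L.map f, Subgroup.map_mono hL1, Subgroup.map_mono hL2,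
        by rw [Subgroup.relIndex_map_map_of_injective L H hf]; exact hL3, ?_⟩
      rintro ⟨y, hy, hyx⟩
      exact hL4 (hf hyx ▸ hy)
    · intro L B hKB hBL hL hLi hBK
      have eB := eq1 B (hBL.1.trans hL)
      have eL := eq1 L hL
      rw [← eL, Subgroup.relIndex_map_map_of_injective _ H hf] at hLi
      rw [← eB, Subgroup.relIndex_map_map_of_injective _ H hf]
      refine h3 (L.comap f) (B.comap f) (Subgroup.map_le_iff_le_comap.1 hKB) (hBL.comap f)
        (hcm L hL) hLi ?_
      intro hcon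
      exact hBK (by rw [← eB, hcon])
    · intro C hKC hCH hCi hcyc
      have eC := eq1 C hCH
      rw [← eC, Subgroup.relIndex_map_map_of_injective _ H hf] at hCi
      refine h4 (C.comap f) (Subgroup.map_le_iff_le_comap.1 hKC) (hcm C hCH) hCi ?_
      rw [← eC] at hcyc
      exact hcyc.comap_inj f hf

theorem Ser.comap (f : P →* Q) (hf : Function.Surjective f) {K H : Subgroup Q} (h : Ser K H) :
    Ser (K.comap f) (H.comap f) := by
  induction h with
  | refl => exact Ser.refl _
  | step _ hf' ih => exact Ser.step ih (hf'.comap f hf)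

theorem Ser.map (f : P →* Q) (hf : Function.Injective f) {K H : Subgroup P} (h : Ser K H) :
    Ser (K.map f) (H.map f) := by
  induction h with
  | refl => exact Ser.refl _
  | step _ hf' ih => exact Ser.step ih (hf'.map f hf)

end Pool.Agent.Helper317
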