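import Mathlib
import Pool.Agent.Helper317.Ser

set_option autoImplicit false
set_option linter.style.haveILetI false

/-!
# Groups with the maximal condition in which subnormal subgroups are finite or of finite index
-/

namespace Pool.Agent.Helper317

open scoped Pointwise

variable {G P Q : Type*} [Group G] [Group P] [Group Q]

theorem wf_of_fg (hmax : ∀ K : Subgroup G, K.FG) : WellFoundedGT (Subgroup G) := by
  classical
  rw [← CompleteLattice.isSupClosedCompact_iff_wellFoundedGT]
  intro s hs hsup
  obtain ⟨S, hS⟩ := hmax (sSup s)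
  have hdir : DirectedOn (· ≤ ·) s := fun a ha b hb => ⟨a ⊔ b, hsup ha hb, le_sup_left, le_sup_right⟩
  have key : ∀ T : Finset G, (T : Set G) ⊆ ((sSup s : Subgroup G) : Set G) →
      ∃ K ∈ s, (T : Set G) ⊆ K := by
    intro T
    induction T using Finset.induction_on with
    | empty =>
      intro _
      obtain ⟨K, hK⟩ := hs
      exact ⟨K, hK, by simp⟩
    | insert a T _ ih =>
      intro hT
      rw [Finset.coe_insert, Set.insert_subset_iff] at hT
      obtain ⟨K, hK, hTK⟩ := ih hT.2
      obtain ⟨L, hL, haL⟩ := (Subgroup.mem_sSup_of_directedOn hs hdir).1 hT.1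
      refine ⟨K ⊔ L, hsup hK hL, ?_⟩
      rw [Finset.coe_insert, Set.insert_subset_iff]
      exact ⟨(le_sup_right : L ≤ K ⊔ L) haL, hTK.trans (le_sup_left : K ≤ K ⊔ L)⟩
  obtain ⟨K, hK, hSK⟩ := key S (by rw [← hS]; exact Subgroup.subset_closure)
  have h1 : sSup s ≤ K := by rw [← hS]; exact (Subgroup.closure_le K).2 hSK
  have h2 : sSup s = K := le_antisymm h1 (le_sSup hK)
  rw [h2]; exact hK

theorem fg_of_inj (f : P →* Q) (hf : Function.Injective f) (hmax : ∀ K : Subgroup Q, K.FG)
    (K : Subgroup P) : K.FG := by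
  rw [← Group.fg_iff_subgroup_fg]
  haveI : Group.FG (K.map f) := (Group.fg_iff_subgroup_fg _).2 (hmax _)
  exact Group.fg_of_surjective (f := (K.equivMapOfInjective f hf).symm.toMonoidHom)
    (K.equivMapOfInjective f hf).symm.surjective

theorem fg_of_surj (f : P →* Q) (hf : Function.Surjective f) (hmax : ∀ K : Subgroup P, K.FG)
    (K : Subgroup Q) : K.FG := by
  rw [← Group.fg_iff_subgroup_fg]
  haveI : Group.FG (K.comap f) := (Group.fg_iff_subgroup_fg _).2 (hmax _)
  exact Group.fg_of_surjective (f.subgroupComap_surjective_of_surjective K hf)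

theorem nm_iff_map {X N : Subgroup G} :
    Nm X N ↔ X ≤ N ∧ ∀ h ∈ N, X.map (MulAut.conj h).toMonoidHom ≤ X := by
  constructor
  · rintro ⟨h1, h2⟩
    refine ⟨h1, ?_⟩
    rintro h hh _ ⟨x, hx, rfl⟩
    exact h2 h hh x hx
  · rintro ⟨h1, h2⟩
    exact ⟨h1, fun h hh x hx => h2 h hh ⟨x, hx, rfl⟩⟩

theorem Nm.sup {X Y N : Subgroup G} (hX : Nm X N) (hY : Nm Y N) : Nm (X ⊔ Y) N := by
  rw [nm_iff_map] at *
  refine ⟨sup_le hX.1 hY.1, ?_⟩
  intro h hh
  rw [Subgroup.map_sup]
  exact sup_le_sup (hX.2 h hh) (hY.2 h hh)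

theorem Nm.inf {X L N : Subgroup G} (hX : Nm X L) (hN : N ≤ L) (hNL : Nm N L) : Nm (X ⊓ N) N :=
  ⟨inf_le_right, fun h hh x hx => ⟨hX.2 h (hN hh) x hx.1, hNL.2 h (hN hh) x hx.2⟩⟩

theorem nm_top {N : Subgroup G} (h : N.Normal) : Nm N ⊤ := ⟨le_top, fun g _ n hn => h.conj_mem n hn g⟩

theorem normal_of_nm {N : Subgroup G} (h : Nm N ⊤) : N.Normal := ⟨fun n hn g => h.2 g trivial n hn⟩

theorem finite_sup {X Y N : Subgroup G} (hX : Nm X N) (hY : Y ≤ N) (hfX : Finite X)
    (hfY : Finite Y) : Finite (X ⊔ Y : Subgroup G) := by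
  let T : Subgroup G :=
    { carrier := (X : Set G) * (Y : Set G)
      one_mem' := ⟨1, X.one_mem, 1, Y.one_mem, by simp⟩
      mul_mem' := by
        rintro _ _ ⟨x, hx, y, hy, rfl⟩ ⟨x', hx', y', hy', rfl⟩
        refine ⟨x * (y * x' * y⁻¹), X.mul_mem hx (hX.2 y (hY hy) x' hx'), y * y', Y.mul_mem hy hy', ?_⟩
        simp only
        group
      inv_mem' := by
        rintro _ ⟨x, hx, y, hy, rfl⟩
        refine ⟨y⁻¹ * x⁻¹ * y, ?_, y⁻¹, Y.inv_mem hy, ?_⟩
        · have := hX.2 y⁻¹ (hY (Y.inv_mem hy)) x⁻¹ (X.inv_mem hx)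
          simpa using this
        · simp only
          group }
  have hT : (T : Set G).Finite := Set.Finite.mul (Set.toFinite _) (Set.toFinite _)
  have hle : X ⊔ Y ≤ T := by
    refine sup_le ?_ ?_
    · intro x hx; exact ⟨x, hx, 1, Y.one_mem, by simp⟩
    · intro y hy; exact ⟨1, X.one_mem, y, hy, by simp⟩
  exact (hT.subset hle).to_subtype

theorem exists_largest (hmax : ∀ K : Subgroup G, K.FG) (N : Subgroup G) :
    ∃ X : Subgroup G, Nm X N ∧ Finite X ∧ ∀ Y : Subgroup G, Nm Y N → Finite Y → Y ≤ X := by
  haveI := wf_of_fg hmax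
  obtain ⟨X, ⟨hX1, hX2⟩, hX3⟩ := WellFounded.has_min (wellFounded_gt (α := Subgroup G))
    {X : Subgroup G | Nm X N ∧ Finite X}
    ⟨⊥, ⟨bot_le, fun h _ k hk => by
      rw [Subgroup.mem_bot] at hk ⊢; rw [hk]; simp⟩, inferInstance⟩
  refine ⟨X, hX1, hX2, fun Y hY hYf => ?_⟩
  by_contra hcon
  refine hX3 (X ⊔ Y) ⟨hX1.sup hY, finite_sup hX1 hY.1 hX2 hYf⟩ ?_
  refine lt_of_le_of_ne le_sup_left ?_
  intro he
  exact hcon (by rw [he]; exact le_sup_right)

/-- In a group without nontrivial finite normal subgroups, normal subgroups have no nontrivial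
finite normal subgroups. -/
theorem no_finite (hmax : ∀ K : Subgroup G, K.FG)
    (h0 : ∀ X : Subgroup G, X.Normal → Finite X → X = ⊥) (N : Subgroup G) (hN : N.Normal)
    (X : Subgroup G) (hX : Nm X N) (hXf : Finite X) : X = ⊥ := by
  obtain ⟨Y, hY1, hY2, hY3⟩ := exists_largest hmax N
  have hYn : Y.Normal := by
    refine ⟨fun y hy g => ?_⟩
    have h1 : Nm (Y.map (MulAut.conj g).toMonoidHom) N := by
      have := hY1.map (MulAut.conj g).toMonoidHom
      have e : N.map (MulAut.conj g).toMonoidHom = N := by
        apply le_antisymm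
        · rintro _ ⟨n, hn, rfl⟩
          exact hN.conj_mem n hn g
        · intro n hn
          refine ⟨g⁻¹ * n * g, ?_, by simp [mul_assoc]⟩
          have := hN.conj_mem n hn g⁻¹
          simpa using this
      rwa [e] at this
    have h2 : Finite (Y.map (MulAut.conj g).toMonoidHom) :=
      Finite.of_equiv Y (Y.equivMapOfInjective _ (MulAut.conj g).injective).toEquiv
    exact hY3 _ h1 h2 ⟨y, hy, rfl⟩
  have h3 := h0 Y hYn hY2
  rw [eq_bot_iff, ← h3]
  exact hY3 X hX hXf

theorem serB (hmax : ∀ K : Subgroup Q, K.FG) (hQ : Infinite Q)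
    (h2 : ∀ L : Subgroup Q, L.Normal → L.FiniteIndex → ∀ B : Subgroup Q, Nm B L →
      Finite B ∨ B.FiniteIndex)
    (h0 : ∀ X : Subgroup Q, X.Normal → Finite X → X = ⊥) : Ser (⊥ : Subgroup Q) ⊤ := by
  classical
  have hfin_top : ∀ N : Subgroup Q, N.Normal → N.FiniteIndex → Fac N ⊤ := by
    intro N hN hNi
    refine ⟨nm_top hN, Or.inl ?_⟩
    rw [Subgroup.relIndex_top_right]
    exact hNi.index_ne_zero
  have hinf : ∀ N : Subgroup Q, N.FiniteIndex → Infinite N := by
    intro N hN
    by_contra hcon
    rw [not_infinite_iff_finite] at hcon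
    have : Finite Q := Subgroup.finite_iff_finite_and_finiteIndex (H := N) |>.2 ⟨hcon, hN⟩
    exact not_finite Q
  by_cases hvc : ∃ C : Subgroup Q, C.FiniteIndex ∧ Cyc ⊥ C
  · -- virtually cyclic case
    obtain ⟨C, hC, x, hxC, hx⟩ := hvc
    haveI := hC
    have hC0 : (C.normalCore).FiniteIndex := inferInstance
    have hcyc : Cyc ⊥ C.normalCore := by
      have h1 : IsCyclic C := by
        refine ⟨⟨x, hxC⟩, ?_⟩
        rintro ⟨y, hy⟩
        obtain ⟨n, hn⟩ := hx y hy
        rw [Subgroup.mem_bot] at hn
        refine ⟨-n, ?_⟩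
        apply Subtype.ext
        have : y = (x ^ n)⁻¹ := eq_inv_of_mul_eq_one_left hn
        simp [this]
      have h2 : IsCyclic (C.normalCore) :=
        isCyclic_of_injective (Subgroup.inclusion (Subgroup.normalCore_le C))
          (Subgroup.inclusion_injective _)
      obtain ⟨⟨z, hz⟩, hz'⟩ := h2
      refine ⟨z, hz, ?_⟩
      intro h hh
      obtain ⟨n, hn⟩ := hz' ⟨h, hh⟩
      refine ⟨-n, ?_⟩
      have : z ^ n = h := congrArg Subtype.val hn
      rw [Subgroup.mem_bot, ← this]
      simp
    have hbotn : Nm (⊥ : Subgroup Q) C.normalCore := by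
      refine ⟨bot_le, fun h _ k hk => ?_⟩
      rw [Subgroup.mem_bot] at hk ⊢
      rw [hk]; simp
    exact Ser.step (Ser.of_fac ⟨hbotn, Or.inr (Or.inl hcyc)⟩)
      (hfin_top _ (Subgroup.normalCore_normal C) hC0)
  · push Not at hvc
    have hJ : ∀ L : Subgroup Q, L.FiniteIndex → ∀ B : Subgroup Q, Nm B L → B ≠ ⊥ →
        B.FiniteIndex := by
      intro L hL B hB hBne
      haveI := hL
      have hL0n := Subgroup.normalCore_normal L
      have hL0i : (L.normalCore).FiniteIndex := inferInstance
      have hL0L : Nm L.normalCore L :=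
        ⟨Subgroup.normalCore_le L, fun h _ k hk => hL0n.conj_mem k hk h⟩
      rcases h2 L.normalCore hL0n hL0i (B ⊓ L.normalCore) (hB.inf (Subgroup.normalCore_le L) hL0L)
        with h3 | h3
      · exfalso
        have h4 := no_finite hmax h0 L.normalCore hL0n _
          (hB.inf (Subgroup.normalCore_le L) hL0L) h3
        have h5 : B ≤ Subgroup.centralizer (L.normalCore : Set Q) := by
          intro b hb
          rw [Subgroup.mem_centralizer_iff]
          intro l hl
          have e1 : b * l * b⁻¹ * l⁻¹ ∈ B ⊓ L.normalCore := by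
            refine ⟨?_, ?_⟩
            · have := hB.2 l (Subgroup.normalCore_le L hl) b⁻¹ (B.inv_mem hb)
              have h6 := B.mul_mem hb this
              have e : b * (l * b⁻¹ * l⁻¹) = b * l * b⁻¹ * l⁻¹ := by group
              rwa [e] at h6
            · exact L.normalCore.mul_mem (hL0n.conj_mem l hl b) (L.normalCore.inv_mem hl)
          rw [h4, Subgroup.mem_bot] at e1
          have e2 : b * l * b⁻¹ = l := by
            have := mul_inv_eq_one.1 e1
            exact this
          have e3 : b * l = l * b := by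
            rw [mul_inv_eq_iff_eq_mul] at e2
            exact e2
          exact e3.symm
        set C := Subgroup.centralizer (L.normalCore : Set Q) with hCdef
        have hCn : C.Normal := by
          haveI := hL0n
          exact Subgroup.normal_centralizer
        rcases h2 ⊤ inferInstance inferInstance C (nm_top hCn) with h6 | h6
        · have h7 := h0 C hCn h6
          rw [h7] at h5
          exact hBne (eq_bot_iff.2 h5)
        · haveI := h6
          set A := C ⊓ L.normalCore with hA
          have hAi : A.FiniteIndex := inferInstance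
          have hAn : A.Normal := by
            haveI := hL0n
            exact Subgroup.normal_inf_normal C L.normalCore
          have hAcomm : ∀ a ∈ A, ∀ b ∈ A, a * b = b * a := by
            intro a ha b hb
            exact (Subgroup.mem_centralizer_iff.1 ha.1 b hb.2).symm
          -- an element of infinite order
          have hAinf := hinf A hAi
          have hex : ∃ x ∈ A, ¬ IsOfFinOrder x := by
            by_contra hcon
            push Not at hcon
            letI : CommGroup A :=
              { (inferInstance : Group A) with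
                mul_comm := fun a b => Subtype.ext (hAcomm a a.2 b b.2) }
            have htor : IsMulTorsion A := by
              intro a
              rw [← Submonoid.isOfFinOrder_coe]
              exact hcon a a.2
            haveI : Group.FG A := (Group.fg_iff_subgroup_fg A).2 (hmax A)
            have : Finite A := CommGroup.finite_of_fg_isMulTorsion A htor
            exact not_finite A
          obtain ⟨x, hxA, hx⟩ := hex
          have h8 : Nm (Subgroup.zpowers x) A := by
            refine ⟨by rwa [Subgroup.zpowers_le], ?_⟩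
            intro h hh k hk
            have hkA : k ∈ A := (Subgroup.zpowers_le.2 hxA) hk
            rw [hAcomm h hh k hkA]
            simpa using hk
          rcases h2 A hAn hAi _ h8 with h9 | h9
          · apply hx
            rw [← finite_zpowers]
            exact Set.toFinite _
          · refine hvc _ h9 ⟨x, Subgroup.mem_zpowers x, ?_⟩
            intro h hh
            obtain ⟨n, hn⟩ := Subgroup.mem_zpowers_iff.1 hh
            exact ⟨-n, by rw [Subgroup.mem_bot, ← hn]; simp⟩
      · haveI := h3
        exact Subgroup.finiteIndex_of_le (inf_le_left : B ⊓ L.normalCore ≤ B)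
    -- the finite residual
    let D : Subgroup Q := sInf {L : Subgroup Q | L.FiniteIndex}
    have hDle : ∀ L : Subgroup Q, L.FiniteIndex → D ≤ L := fun L hL => sInf_le hL
    have hDn : D.Normal := by
      refine ⟨fun d hd g => ?_⟩
      rw [Subgroup.mem_sInf]
      intro L hL
      have hL' : (L.comap (MulAut.conj g).toMonoidHom).FiniteIndex := by
        refine ⟨?_⟩
        rw [Subgroup.index_comap_of_surjective _ (MulAut.conj g).surjective]
        exact (show L.FiniteIndex from hL).index_ne_zero
      exact (hDle _ hL') hd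
    by_cases hD : D = ⊥
    · refine Ser.of_fac ⟨nm_top inferInstance, Or.inr (Or.inr (Or.inr ⟨?_, ?_, ?_, ?_⟩))⟩
      · rw [Subgroup.relIndex_top_right, Subgroup.index_bot]
        exact Nat.card_eq_zero_of_infinite
      · intro x _ hx
        rw [← hD, Subgroup.mem_sInf] at hx
        push Not at hx
        obtain ⟨L, hL, hxL⟩ := hx
        exact ⟨L, bot_le, le_top, by
          rw [Subgroup.relIndex_top_right]; exact (show L.FiniteIndex from hL).index_ne_zero, hxL⟩
      · intro L B _ hBL _ hL hB
        rw [Subgroup.relIndex_top_right] at hL ⊢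
        exact (hJ L ⟨hL⟩ B hBL hB).index_ne_zero
      · intro C _ _ hC hcyc
        rw [Subgroup.relIndex_top_right] at hC
        exact hvc C ⟨hC⟩ hcyc
    · have hDi := hJ ⊤ inferInstance D (nm_top hDn) hD
      refine Ser.step (Ser.of_fac ⟨?_, Or.inr (Or.inr (Or.inl ⟨?_, ?_⟩))⟩) (hfin_top D hDn hDi)
      · refine ⟨bot_le, fun h _ k hk => ?_⟩
        rw [Subgroup.mem_bot] at hk ⊢
        rw [hk]; simp
      · rw [Subgroup.relIndex_bot_left]
        haveI := hinf D hDi
        exact Nat.card_eq_zero_of_infinite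
      · intro B _ hB
        by_cases hB0 : B = ⊥
        · exact Or.inl hB0
        · right
          exact le_antisymm hB.1 (hDle B (hJ D hDi B hB hB0))

end Pool.Agent.Helper317
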