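import Mathlib
import Pool.Agent.Helper317.JustInf

set_option autoImplicit false
set_option linter.style.haveILetI false

/-!
# Existence of series with admissible factors
-/

namespace Pool.Agent.Helper317

variable {G P Q : Type*} [Group G] [Group P] [Group Q]

theorem finite_of_relIndex {X Y : Subgroup G} (_h : X ≤ Y) (hX : Finite X) (hi : X.relIndex Y ≠ 0) :
    Finite Y := by
  have h1 : Finite (X.subgroupOf Y) := by
    refine Finite.of_injective (fun y : X.subgroupOf Y => (⟨((y : Y) : G), y.2⟩ : X)) ?_
    intro a b hab
    have := congrArg Subtype.val hab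
    exact Subtype.ext (Subtype.ext this)
  have h2 : (X.subgroupOf Y).FiniteIndex := ⟨hi⟩
  exact (Subgroup.finite_iff_finite_and_finiteIndex (H := X.subgroupOf Y)).2 ⟨h1, h2⟩

theorem comap_mk_bot (N : Subgroup Q) [N.Normal] :
    (⊥ : Subgroup (Q ⧸ N)).comap (QuotientGroup.mk' N) = N :=
  (MonoidHom.comap_bot (QuotientGroup.mk' N)).trans (QuotientGroup.ker_mk' N)

theorem serA_aux (hmax : ∀ K : Subgroup Q, K.FG) (hinf : Infinite Q)
    (h2 : ∀ L : Subgroup Q, L.Normal → L.FiniteIndex → ∀ B : Subgroup Q, Nm B L →
      Finite B ∨ B.FiniteIndex) (X : Subgroup Q) (hX1 : Nm X ⊤) (hX2 : Finite X)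
    (hX3 : ∀ Y : Subgroup Q, Nm Y ⊤ → Finite Y → Y ≤ X) (f : Q →* P)
    (hf : Function.Surjective f) (hker : (⊥ : Subgroup P).comap f = X) :
    Ser (⊥ : Subgroup Q) ⊤ := by
  have hser : Ser (⊥ : Subgroup P) ⊤ := by
    refine serB (fg_of_surj f hf hmax) ?_ ?_ ?_
    · by_contra hcon
      rw [not_infinite_iff_finite] at hcon
      have h1 : X.relIndex ⊤ ≠ 0 := by
        rw [← hker, ← Subgroup.comap_top f, relIndex_comap_comap f hf, Subgroup.relIndex_bot_left]
        exact Nat.card_pos.ne'
      have h3 : Finite (⊤ : Subgroup Q) := finite_of_relIndex le_top hX2 h1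
      have h4 : Finite Q := Finite.of_equiv _ Subgroup.topEquiv.toEquiv
      exact not_finite Q
    · intro L hLn hLi B hB
      have hLi' : (L.comap f).FiniteIndex := by
        refine ⟨?_⟩
        rw [Subgroup.index_comap_of_surjective _ hf]
        exact hLi.index_ne_zero
      rcases h2 (L.comap f) (hLn.comap f) hLi' (B.comap f) (hB.comap f) with h | h
      · left
        have : Finite ((B.comap f).map f) := by
          have h3 : ((B.comap f).map f : Set P).Finite := by
            rw [Subgroup.coe_map]
            exact Set.Finite.image _ (Set.toFinite _)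
          exact h3.to_subtype
        rwa [Subgroup.map_comap_eq_self_of_surjective hf] at this
      · right
        refine ⟨?_⟩
        rw [← Subgroup.index_comap_of_surjective B hf]
        exact h.index_ne_zero
    · intro Y hYn hYf
      have h1 : X.relIndex (Y.comap f) ≠ 0 := by
        rw [← hker, relIndex_comap_comap f hf, Subgroup.relIndex_bot_left]
        exact Nat.card_pos.ne'
      have h3 : X ≤ Y.comap f := by
        rw [← hker]; exact Subgroup.comap_mono bot_le
      have h4 : Finite (Y.comap f) := finite_of_relIndex h3 hX2 h1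
      have h5 := hX3 (Y.comap f) (nm_top (hYn.comap f)) h4
      have h6 : Y.comap f = (⊥ : Subgroup P).comap f := by
        rw [hker]; exact le_antisymm h5 h3
      exact Subgroup.comap_injective hf h6
  have h1 := hser.comap f hf
  rw [hker, Subgroup.comap_top] at h1
  refine Ser.trans (Ser.of_fac ⟨?_, Or.inl ?_⟩) h1
  · refine ⟨bot_le, fun h _ k hk => ?_⟩
    rw [Subgroup.mem_bot] at hk ⊢
    rw [hk]; simp
  · rw [Subgroup.relIndex_bot_left]
    exact Nat.card_pos.ne'

theorem serA (hmax : ∀ K : Subgroup Q, K.FG)
    (h2 : ∀ L : Subgroup Q, L.Normal → L.FiniteIndex → ∀ B : Subgroup Q, Nm B L →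
      Finite B ∨ B.FiniteIndex) : Ser (⊥ : Subgroup Q) ⊤ := by
  classical
  rcases finite_or_infinite Q with hfin | hinf
  · refine Ser.of_fac ⟨nm_top inferInstance, Or.inl ?_⟩
    rw [Subgroup.relIndex_top_right, Subgroup.index_bot]
    exact Nat.card_pos.ne'
  · obtain ⟨X, hX1, hX2, hX3⟩ := exists_largest hmax (⊤ : Subgroup Q)
    haveI hXn : X.Normal := normal_of_nm hX1
    exact serA_aux hmax hinf h2 X hX1 hX2 hX3 (QuotientGroup.mk' X)
      (QuotientGroup.mk'_surjective X) (comap_mk_bot X)

theorem ser_main (hmax : ∀ K : Subgroup G, K.FG) : ∀ (n : ℕ) (K H : Subgroup G), Nm K H →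
    ¬ InfChain n K H → Ser K H := by
  intro n
  induction n with
  | zero => intro K H h1 h2; exact (h2 h1.1).elim
  | succ n ih =>
    intro K H hKH hno
    by_cases hi : ∃ L B : Subgroup G, K ≤ B ∧ Nm B L ∧ Nm L H ∧ L.relIndex H ≠ 0 ∧
        K.relIndex B = 0 ∧ B.relIndex L = 0
    · obtain ⟨L, B, hKB, hBL, hLH, hLi, hKBi, hBLi⟩ := hi
      have hBH : B ≤ H := hBL.1.trans hLH.1
      have hKBn : Nm K B := ⟨hKB, fun h hh k hk => hKH.2 h (hBH hh) k hk⟩
      have h1 : Ser K B := by
        refine ih K B hKBn fun hc => hno ?_
        have h2 : InfChain 1 B L := ⟨B, L, le_rfl, hBL, hBLi, le_rfl⟩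
        exact (hc.trans n 1 h2).mono_top (n + 1) hLH.1
      have h2 : Ser B L := by
        refine ih B L hBL fun hc => hno ?_
        have h3 : InfChain 1 K B := ⟨K, B, le_rfl, hKBn, hKBi, le_rfl⟩
        have h4 := h3.trans 1 n hc
        rw [Nat.add_comm] at h4
        exact h4.mono_top (n + 1) hLH.1
      exact Ser.step (Ser.trans h1 h2) ⟨hLH, Or.inl hLi⟩
    · push Not at hi
      haveI hKn : (K.subgroupOf H).Normal := by
        refine ⟨fun k hk g => ?_⟩
        rw [Subgroup.mem_subgroupOf] at hk ⊢
        exact hKH.2 g g.2 k hk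
      let f : H →* H ⧸ K.subgroupOf H := QuotientGroup.mk' _
      have hf : Function.Surjective f := QuotientGroup.mk'_surjective _
      have hinj : Function.Injective H.subtype := H.subtype_injective
      have hker : (⊥ : Subgroup (H ⧸ K.subgroupOf H)).comap f = K.subgroupOf H :=
        comap_mk_bot _
      have hK : ((⊥ : Subgroup (H ⧸ K.subgroupOf H)).comap f).map H.subtype = K := by
        rw [hker, Subgroup.subgroupOf_map_subtype]
        exact inf_eq_left.2 hKH.1
      have hH : ((⊤ : Subgroup (H ⧸ K.subgroupOf H)).comap f).map H.subtype = H := by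
        rw [Subgroup.comap_top, ← MonoidHom.range_eq_map]
        exact H.range_subtype
      have htr : ∀ A B : Subgroup (H ⧸ K.subgroupOf H),
          ((A.comap f).map H.subtype).relIndex ((B.comap f).map H.subtype) = A.relIndex B := by
        intro A B
        rw [Subgroup.relIndex_map_map_of_injective _ _ hinj, relIndex_comap_comap f hf]
      have hser : Ser (⊥ : Subgroup (H ⧸ K.subgroupOf H)) ⊤ := by
        refine serA (fg_of_surj f hf (fg_of_inj H.subtype hinj hmax)) ?_
        intro L hLn hLi B hB
        have e1 : Nm ((B.comap f).map H.subtype) ((L.comap f).map H.subtype) :=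
          (hB.comap f).map H.subtype
        have e2 : Nm ((L.comap f).map H.subtype) H := by
          have := ((nm_top hLn).comap f).map H.subtype
          rwa [hH] at this
        have e3 : K ≤ (B.comap f).map H.subtype := by
          conv_lhs => rw [← hK]
          exact Subgroup.map_mono (Subgroup.comap_mono bot_le)
        have e4 : ((L.comap f).map H.subtype).relIndex H ≠ 0 := by
          have := htr L ⊤
          rw [hH] at this
          rw [this, Subgroup.relIndex_top_right]
          exact hLi.index_ne_zero
        by_cases e5 : K.relIndex ((B.comap f).map H.subtype) = 0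
        · right
          have e6 := hi _ _ e3 e1 e2 e4 e5
          rw [htr] at e6
          refine ⟨?_⟩
          rw [← Subgroup.relIndex_top_right]
          refine Subgroup.relIndex_ne_zero_trans e6 ?_
          rw [Subgroup.relIndex_top_right]
          exact hLi.index_ne_zero
        · left
          have e6 := htr ⊥ B
          rw [hK] at e6
          rw [e6, Subgroup.relIndex_bot_left] at e5
          exact Nat.finite_of_card_ne_zero e5
      have h1 := (hser.comap f hf).map H.subtype hinj
      rwa [hK, hH] at h1

end Pool.Agent.Helper317
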