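import Mathlib
import Pool.Agent.Helper317.SerMain

set_option autoImplicit false
set_option linter.style.haveILetI false

/-!
# Virtually solvable groups: extensions
-/

namespace Pool.Agent.Helper317

variable {G P Q : Type*} [Group G] [Group P] [Group Q]

/-- `Q` has a solvable subgroup of finite index -/
def VSol (Q : Type*) [Group Q] : Prop := ∃ S : Subgroup Q, S.FiniteIndex ∧ Group.IsSolvable S

theorem VSol.of_equiv (e : P ≃* Q) (h : VSol P) : VSol Q := by
  obtain ⟨S, hS, hs⟩ := h
  refine ⟨S.map e.toMonoidHom, ⟨?_⟩, ?_⟩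
  · have := Subgroup.index_map_equiv S e
    rw [show S.map e.toMonoidHom = S.map (e : P →* Q) from rfl, this]
    exact hS.index_ne_zero
  · exact Group.isSolvable_of_surjective (f := (S.equivMapOfInjective e.toMonoidHom e.injective).toMonoidHom)
      (S.equivMapOfInjective e.toMonoidHom e.injective).surjective

theorem solvable_map {f : P →* Q} {S : Subgroup P} (h : Group.IsSolvable S) : Group.IsSolvable (S.map f) :=
  Group.isSolvable_of_surjective (f := f.subgroupMap S) (f.subgroupMap_surjective S)

theorem VSol.of_finiteIndex (K : Subgroup Q) (hi : K.FiniteIndex) (h : VSol K) : VSol Q := by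
  obtain ⟨S, hS, hs⟩ := h
  refine ⟨S.map K.subtype, ⟨?_⟩, solvable_map hs⟩
  rw [Subgroup.index_map_subtype]
  exact Nat.mul_ne_zero hS.index_ne_zero hi.index_ne_zero

/-- finite-by-cyclic groups are virtually solvable -/
theorem vsol_finite_cyclic (N : Subgroup Q) [N.Normal] (hN : Finite N) (hc : Cyc N ⊤) :
    VSol Q := by
  classical
  obtain ⟨x, _, hx⟩ := hc
  -- the centralizer of `N`
  let C : Subgroup Q := Subgroup.centralizer (N : Set Q)
  have hC : C.FiniteIndex := by
    have h1 : (MulAut.conjNormal (H := N)).ker.FiniteIndex := by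
      haveI : Finite (MulAut N) := Finite.of_injective (fun e : MulAut N => (e : N → N))
        DFunLike.coe_injective
      infer_instance
    have h2 : (MulAut.conjNormal (H := N)).ker ≤ C := by
      intro c hc
      rw [MonoidHom.mem_ker] at hc
      rw [Subgroup.mem_centralizer_iff]
      intro n hn
      have h3 := congrArg (fun e : MulAut N => ((e ⟨n, hn⟩ : N) : Q)) hc
      simp only [MulAut.conjNormal_apply, MulAut.one_apply] at h3
      rw [mul_inv_eq_iff_eq_mul] at h3
      exact h3.symm
    exact Subgroup.finiteIndex_of_le h2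
  refine ⟨C, hC, ?_⟩
  let g : C →* Q ⧸ N := (QuotientGroup.mk' N).comp C.subtype
  have hker : Group.IsSolvable g.ker := by
    refine Group.isSolvable_of_comm ?_
    rintro ⟨⟨a, ha⟩, ha'⟩ ⟨⟨b, hb⟩, hb'⟩
    have hb2 : b ∈ N := by
      rw [MonoidHom.mem_ker] at hb'
      exact (QuotientGroup.eq_one_iff b).1 hb'
    have h3 := (Subgroup.mem_centralizer_iff.1 ha) b hb2
    apply Subtype.ext
    apply Subtype.ext
    exact h3.symm
  have hquot : Group.IsSolvable (Q ⧸ N) := by
    have hcyc : ∀ q : Q ⧸ N, ∃ n : ℤ, q = (QuotientGroup.mk' N x) ^ n := by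
      intro q
      obtain ⟨q, rfl⟩ := QuotientGroup.mk'_surjective N q
      obtain ⟨n, hn⟩ := hx q trivial
      refine ⟨-n, ?_⟩
      have h3 : QuotientGroup.mk' N (q * x ^ n) = 1 := (QuotientGroup.eq_one_iff _).2 hn
      rw [map_mul, map_zpow] at h3
      rw [zpow_neg]
      exact eq_inv_of_mul_eq_one_left h3
    refine Group.isSolvable_of_comm ?_
    intro a b
    obtain ⟨n, rfl⟩ := hcyc a
    obtain ⟨m, rfl⟩ := hcyc b
    rw [← zpow_add, ← zpow_add, add_comm]
  exact Group.isSolvable_of_ker_le_range g.ker.subtype g (by rw [Subgroup.range_subtype])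

theorem finite_hom (hfg : Group.FG P) [Finite Q] : Finite (P →* Q) := by
  obtain ⟨S, hS⟩ := hfg.out
  refine Finite.of_injective (fun (φ : P →* Q) (s : S) => φ s) ?_
  intro φ ψ h
  refine MonoidHom.eq_of_eqOn_dense hS ?_
  intro s hs
  exact congrFun h ⟨s, hs⟩

/-- A finitely generated virtually solvable group has a solvable subgroup of finite index that is
invariant under all automorphisms. -/
theorem exists_char (hfg : Group.FG P) (h : VSol P) :
    ∃ T : Subgroup P, T.FiniteIndex ∧ Group.IsSolvable T ∧ ∀ e : P ≃* P, ∀ t ∈ T, e t ∈ T := by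
  classical
  obtain ⟨S, hS, hs⟩ := h
  haveI := hS
  haveI : Finite (P ⧸ S) := Subgroup.finite_quotient_of_finiteIndex
  haveI : Finite (P →* Equiv.Perm (P ⧸ S)) := finite_hom hfg
  let T : Subgroup P := ⨅ φ : P →* Equiv.Perm (P ⧸ S), φ.ker
  have hTS : T ≤ S := by
    have h1 : T ≤ (MulAction.toPermHom P (P ⧸ S)).ker := iInf_le _ _
    refine h1.trans ?_
    rw [← Subgroup.normalCore_eq_ker]
    exact Subgroup.normalCore_le S
  refine ⟨T, ?_, ?_, ?_⟩
  · refine Subgroup.finiteIndex_iInf fun φ => ?_
    infer_instance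
  · exact Group.isSolvable_of_isSolvable_injective (Subgroup.inclusion_injective hTS)
  · intro e t ht
    rw [Subgroup.mem_iInf] at ht ⊢
    intro φ
    have := ht (φ.comp e.toMonoidHom)
    rw [MonoidHom.mem_ker] at this ⊢
    exact this

theorem VSol.of_cyclic (K : Subgroup Q) [K.Normal] (hfg : Group.FG K) (h : VSol K)
    (hc : Cyc K ⊤) : VSol Q := by
  classical
  obtain ⟨T, hT, hTs, hTc⟩ := exists_char hfg h
  let T' : Subgroup Q := T.map K.subtype
  have hT'K : T' ≤ K := Subgroup.map_subtype_le T
  haveI hT'n : T'.Normal := by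
    refine ⟨?_⟩
    rintro _ ⟨t, ht, rfl⟩ g
    refine ⟨MulAut.conjNormal g t, hTc (MulAut.conjNormal g) t ht, ?_⟩
    simp
  have hT's : Group.IsSolvable T' := solvable_map hTs
  have hT'i : T'.relIndex K ≠ 0 := by
    have h1 : T'.subgroupOf K = T := by
      show (T.map K.subtype).comap K.subtype = T
      exact Subgroup.comap_map_eq_self_of_injective K.subtype_injective T
    rw [Subgroup.relIndex, h1]
    exact hT.index_ne_zero
  let f := QuotientGroup.mk' T'
  have hf : Function.Surjective f := QuotientGroup.mk'_surjective T'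
  have hker : f.ker = T' := QuotientGroup.ker_mk' T'
  have hKn : (K.map f).Normal := Subgroup.Normal.map inferInstance f hf
  have hKfin : Finite (K.map f) := by
    have h1 : Nat.card (K.map f) ≠ 0 := by
      rw [← Subgroup.relIndex_ker, hker]
      exact hT'i
    exact Nat.finite_of_card_ne_zero h1
  have hcyc : Cyc (K.map f) ⊤ := by
    have := hc.map f
    rwa [Subgroup.map_top_of_surjective f hf] at this
  obtain ⟨C, hC, hCs⟩ := vsol_finite_cyclic (K.map f) hKfin hcyc
  refine ⟨C.comap f, ⟨?_⟩, ?_⟩
  · rw [Subgroup.index_comap_of_surjective _ hf]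
    exact hC.index_ne_zero
  · have hle : T' ≤ C.comap f := by
      intro t ht
      have ht' : f t = 1 := (QuotientGroup.eq_one_iff t).2 ht
      rw [Subgroup.mem_comap, ht']
      exact C.one_mem
    refine Group.isSolvable_of_ker_le_range (Subgroup.inclusion hle) (f.subgroupComap C) ?_
    intro y hy
    rw [MonoidHom.mem_ker] at hy
    have h1 : f (y : Q) = 1 := congrArg Subtype.val hy
    have h2 : (y : Q) ∈ T' := (QuotientGroup.eq_one_iff _).1 h1
    exact ⟨⟨y, h2⟩, Subtype.ext rfl⟩

/-- a virtually solvable group all of whose subgroups are finitely generated is virtually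
polycyclic; conversely -/
def VirtPolycyclic (Q : Type*) [Group Q] : Prop :=
  ∃ H : Subgroup Q, H.index ≠ 0 ∧ Group.IsSolvable H ∧ ∀ K : Subgroup H, K.FG

theorem virtPolycyclic_of_vsol (hmax : ∀ K : Subgroup Q, K.FG) (h : VSol Q) :
    VirtPolycyclic Q := by
  obtain ⟨S, hS, hs⟩ := h
  exact ⟨S, hS.index_ne_zero, hs, fg_of_inj S.subtype S.subtype_injective hmax⟩

theorem vsol_of_virtPolycyclic (h : VirtPolycyclic Q) : VSol Q := by
  obtain ⟨S, hS, hs, _⟩ := h
  exact ⟨S, ⟨hS⟩, hs⟩

end Pool.Agent.Helper317
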