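import Mathlib
import Pool.Agent.Helper317.VSol

set_option autoImplicit false
set_option linter.style.haveILetI false

/-!
# Factors of series as quotient groups
-/

namespace Pool.Agent.Helper317

open scoped commutatorElement

variable {G P Q : Type*} [Group G] [Group P] [Group Q]

/-- `Q` is residually finite: every nontrivial element lies outside some subgroup of finite
index. -/
def ResFin (Q : Type*) [Group Q] : Prop :=
  ∀ x : Q, x ≠ 1 → ∃ L : Subgroup Q, L.FiniteIndex ∧ x ∉ L

/-- `Q` is hereditarily just infinite: it is infinite, and every nontrivial normal subgroup of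
every subgroup of finite index has finite index. -/
def HJInf (Q : Type*) [Group Q] : Prop :=
  Infinite Q ∧ ∀ L : Subgroup Q, L.FiniteIndex → ∀ B : Subgroup Q, B ≤ L →
    (B.subgroupOf L).Normal → B ≠ ⊥ → B.FiniteIndex

/-- `Q` is not virtually polycyclic, and is either simple or residually finite and hereditarily
just infinite. -/
def Exotic (Q : Type*) [Group Q] : Prop :=
  ¬ VirtPolycyclic Q ∧ (IsSimpleGroup Q ∨ (ResFin Q ∧ HJInf Q))

theorem exists_infinite_order (A : Subgroup Q) (hfg : A.FG) (hinf : Infinite A)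
    (hAcomm : ∀ a ∈ A, ∀ b ∈ A, a * b = b * a) : ∃ x ∈ A, ¬ IsOfFinOrder x := by
  by_contra hcon
  push Not at hcon
  letI : CommGroup A :=
    { (inferInstance : Group A) with
      mul_comm := fun a b => Subtype.ext (hAcomm a a.2 b b.2) }
  have htor : IsMulTorsion A := by
    intro a
    rw [← Submonoid.isOfFinOrder_coe]
    exact hcon a a.2
  haveI : Group.FG A := (Group.fg_iff_subgroup_fg A).2 hfg
  have : Finite A := CommGroup.finite_of_fg_isMulTorsion A htor
  exact not_finite A

theorem infinite_of_finiteIndex (hQ : Infinite Q) (N : Subgroup Q) (hN : N.FiniteIndex) :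
    Infinite N := by
  by_contra hcon
  rw [not_infinite_iff_finite] at hcon
  have : Finite Q := (Subgroup.finite_iff_finite_and_finiteIndex (H := N)).2 ⟨hcon, hN⟩
  exact not_finite Q

theorem not_vsol_of_simple (hs : IsSimpleGroup Q) (hinf : Infinite Q) : ¬ VSol Q := by
  rintro ⟨S, hS, hss⟩
  haveI := hS
  have h1 : S.normalCore.FiniteIndex := inferInstance
  rcases hs.eq_bot_or_eq_top_of_normal S.normalCore (Subgroup.normalCore_normal S) with h | h
  · have := infinite_of_finiteIndex hinf S.normalCore h1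
    rw [h] at this
    exact not_finite (⊥ : Subgroup Q)
  · have h2 : S = ⊤ := by
      rw [eq_top_iff, ← h]
      exact Subgroup.normalCore_le S
    have h3 : Group.IsSolvable Q := by
      rw [h2] at hss
      exact Group.isSolvable_of_surjective (f := (Subgroup.topEquiv (G := Q)).toMonoidHom)
        (Subgroup.topEquiv (G := Q)).surjective
    have h4 := (IsSimpleGroup.comm_iff_isSolvable (G := Q)).2 h3
    letI : CommGroup Q := { (inferInstance : Group Q) with mul_comm := h4 }
    have h5 : (Nat.card Q).Prime := by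
      haveI : IsSimpleGroup Q := hs
      exact IsSimpleGroup.prime_card
    exact h5.ne_zero Nat.card_eq_zero_of_infinite

theorem cyc_of_hjinf (hmax : ∀ K : Subgroup Q, K.FG) (hJ : HJInf Q) (hV : VSol Q) :
    ∃ C : Subgroup Q, C.FiniteIndex ∧ Cyc ⊥ C := by
  classical
  obtain ⟨S, hS, hs⟩ := hV
  obtain ⟨hinf, hJ⟩ := hJ
  obtain ⟨n, hn⟩ := hs.solvable
  have hSinf := infinite_of_finiteIndex hinf S hS
  have h0 : derivedSeries S 0 ≠ ⊥ := by
    rw [derivedSeries_zero]
    intro h
    have h1 : Infinite (⊤ : Subgroup S) := infinite_of_finiteIndex hSinf ⊤ inferInstance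
    rw [h] at h1
    exact not_finite (⊥ : Subgroup S)
  have hex : ∃ m, derivedSeries S m ≠ ⊥ ∧ derivedSeries S (m + 1) = ⊥ := by
    by_contra hcon
    push Not at hcon
    have : ∀ m, derivedSeries S m ≠ ⊥ := by
      intro m
      induction m with
      | zero => exact h0
      | succ m ih => exact hcon m ih
    exact this n hn
  obtain ⟨m, hm1, hm2⟩ := hex
  let A : Subgroup Q := (derivedSeries S m).map S.subtype
  have hAS : A ≤ S := Subgroup.map_subtype_le _
  have hAn : (A.subgroupOf S).Normal := by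
    have : A.subgroupOf S = derivedSeries S m :=
      Subgroup.comap_map_eq_self_of_injective S.subtype_injective _
    rw [this]
    infer_instance
  have hA0 : A ≠ ⊥ := by
    intro h
    apply hm1
    exact (Subgroup.map_eq_bot_iff_of_injective _ S.subtype_injective).1 h
  have hAi := hJ S hS A hAS hAn hA0
  have hAcomm : ∀ a ∈ A, ∀ b ∈ A, a * b = b * a := by
    rintro _ ⟨a, ha, rfl⟩ _ ⟨b, hb, rfl⟩
    have h1 : ⁅a, b⁆ ∈ derivedSeries S (m + 1) := by
      rw [derivedSeries_succ]
      exact Subgroup.commutator_mem_commutator ha hb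
    rw [hm2, Subgroup.mem_bot, commutatorElement_eq_one_iff_mul_comm] at h1
    exact congrArg Subtype.val h1
  have hAinf := infinite_of_finiteIndex hinf A hAi
  obtain ⟨x, hxA, hx⟩ := exists_infinite_order A (hmax A) hAinf hAcomm
  have h8 : ((Subgroup.zpowers x).subgroupOf A).Normal := by
    refine ⟨?_⟩
    rintro ⟨k, hkA⟩ hk ⟨h, hh⟩
    rw [Subgroup.mem_subgroupOf] at hk ⊢
    simp only [Subgroup.coe_mul, InvMemClass.coe_inv] at hk ⊢
    rw [hAcomm h hh k hkA]
    simpa using hk
  have h9 : Subgroup.zpowers x ≠ ⊥ := by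
    intro h
    rw [Subgroup.zpowers_eq_bot] at h
    rw [h] at hx
    exact hx IsOfFinOrder.one
  refine ⟨_, hJ A hAi _ (Subgroup.zpowers_le.2 hxA) h8 h9, x, Subgroup.mem_zpowers x, ?_⟩
  intro h hh
  obtain ⟨n, hn⟩ := Subgroup.mem_zpowers_iff.1 hh
  exact ⟨-n, by rw [Subgroup.mem_bot, ← hn]; simp⟩

theorem normal_subgroupOf {K H : Subgroup G} (h : Nm K H) : (K.subgroupOf H).Normal := by
  refine ⟨fun k hk g => ?_⟩
  rw [Subgroup.mem_subgroupOf] at hk ⊢
  exact h.2 g g.2 k hk

theorem nm_of_normal {B L : Subgroup G} (h : B ≤ L) (hn : (B.subgroupOf L).Normal) : Nm B L := by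
  refine ⟨h, fun g hg b hb => ?_⟩
  have := hn.conj_mem ⟨b, h hb⟩ (Subgroup.mem_subgroupOf.2 hb) ⟨g, hg⟩
  exact Subgroup.mem_subgroupOf.1 this

/-- The factors of a series as quotient groups. -/
theorem factor_of_fac (hmax : ∀ K : Subgroup G, K.FG) {K H : Subgroup G} (h : Fac K H)
    (hn : (K.subgroupOf H).Normal) :
    Finite (H ⧸ K.subgroupOf H) ∨ IsCyclic (H ⧸ K.subgroupOf H) ∨
      Exotic (H ⧸ K.subgroupOf H) := by
  classical
  obtain ⟨hKH, h⟩ := h
  let f : H →* H ⧸ K.subgroupOf H := QuotientGroup.mk' _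
  have hf : Function.Surjective f := QuotientGroup.mk'_surjective _
  have hinj : Function.Injective H.subtype := H.subtype_injective
  have hker : (⊥ : Subgroup (H ⧸ K.subgroupOf H)).comap f = K.subgroupOf H := comap_mk_bot _
  have hmaxQ : ∀ B : Subgroup (H ⧸ K.subgroupOf H), B.FG :=
    fg_of_surj f hf (fg_of_inj H.subtype hinj hmax)
  let e : Subgroup (H ⧸ K.subgroupOf H) → Subgroup G := fun B => (B.comap f).map H.subtype
  have he_inj : Function.Injective e := by
    intro A B hAB
    exact Subgroup.comap_injective hf (Subgroup.map_injective hinj hAB)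
  have he_mono : ∀ A B, A ≤ B → e A ≤ e B := fun A B hAB =>
    Subgroup.map_mono (Subgroup.comap_mono hAB)
  have hK : e ⊥ = K := by
    show ((⊥ : Subgroup (H ⧸ K.subgroupOf H)).comap f).map H.subtype = K
    rw [hker, Subgroup.subgroupOf_map_subtype]
    exact inf_eq_left.2 hKH.1
  have hH : e ⊤ = H := by
    show ((⊤ : Subgroup (H ⧸ K.subgroupOf H)).comap f).map H.subtype = H
    rw [Subgroup.comap_top, ← MonoidHom.range_eq_map]
    exact H.range_subtype
  have htr : ∀ A B : Subgroup (H ⧸ K.subgroupOf H), (e A).relIndex (e B) = A.relIndex B := by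
    intro A B
    show ((A.comap f).map H.subtype).relIndex ((B.comap f).map H.subtype) = A.relIndex B
    rw [Subgroup.relIndex_map_map_of_injective _ _ hinj, relIndex_comap_comap f hf]
  have hnm : ∀ A B : Subgroup (H ⧸ K.subgroupOf H), Nm A B → Nm (e A) (e B) := fun A B hAB =>
    (hAB.comap f).map H.subtype
  have hidx : ∀ A : Subgroup (H ⧸ K.subgroupOf H), (e A).relIndex H = A.index := by
    intro A
    have := htr A ⊤
    rw [hH] at this
    rw [this, Subgroup.relIndex_top_right]
  have hinfQ : K.relIndex H = 0 → Infinite (H ⧸ K.subgroupOf H) := by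
    intro h0
    exact Subgroup.index_eq_zero_iff_infinite.1 h0
  rcases h with h | h | h | h
  · left
    exact Subgroup.index_ne_zero_iff_finite.1 h
  · right; left
    obtain ⟨x, hx, h⟩ := h
    refine ⟨f ⟨x, hx⟩, ?_⟩
    intro q
    obtain ⟨y, rfl⟩ := hf q
    obtain ⟨n, hn'⟩ := h y y.2
    refine ⟨-n, ?_⟩
    have h1 : f (y * (⟨x, hx⟩ : H) ^ n) = 1 := by
      refine (QuotientGroup.eq_one_iff _).2 ?_
      rw [Subgroup.mem_subgroupOf]
      simpa using hn'
    rw [map_mul, map_zpow] at h1
    show (f ⟨x, hx⟩) ^ (-n) = f y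
    rw [zpow_neg]
    exact (eq_inv_of_mul_eq_one_left h1).symm
  · right; right
    have hinfQ' := hinfQ h.1
    have hsimple : IsSimpleGroup (H ⧸ K.subgroupOf H) := by
      haveI : Nontrivial (H ⧸ K.subgroupOf H) := Infinite.instNontrivial _
      refine ⟨fun B hB => ?_⟩
      have h1 : Nm (e B) H := by
        have := hnm B ⊤ (nm_top hB)
        rwa [hH] at this
      have h2 : K ≤ e B := by
        rw [← hK]; exact he_mono _ _ bot_le
      rcases h.2 (e B) h2 h1 with h3 | h3
      · left; exact he_inj (by rw [h3, hK])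
      · right; exact he_inj (by rw [h3, hH])
    exact ⟨fun hv => not_vsol_of_simple hsimple hinfQ' (vsol_of_virtPolycyclic hv),
      Or.inl hsimple⟩
  · right; right
    obtain ⟨h1, h2, h3, h4⟩ := h
    have hinfQ' := hinfQ h1
    have hJ : HJInf (H ⧸ K.subgroupOf H) := by
      refine ⟨hinfQ', ?_⟩
      intro L hL B hBL hBn hB
      have h5 : K ≤ e B := by
        rw [← hK]; exact he_mono _ _ bot_le
      have h6 : e L ≤ H := by
        rw [← hH]; exact he_mono _ _ le_top
      have h7 : (e L).relIndex H ≠ 0 := by rw [hidx]; exact hL.index_ne_zero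
      have h8 := h3 (e L) (e B) h5 (hnm B L (nm_of_normal hBL hBn)) h6 h7 (by
        intro hc
        exact hB (he_inj (by rw [hc, hK])))
      rw [hidx] at h8
      exact ⟨h8⟩
    refine ⟨fun hv => ?_, Or.inr ⟨?_, hJ⟩⟩
    · obtain ⟨C, hC, hcyc⟩ := cyc_of_hjinf hmaxQ hJ (vsol_of_virtPolycyclic hv)
      refine h4 (e C) ?_ ?_ ?_ ?_
      · rw [← hK]; exact he_mono _ _ bot_le
      · rw [← hH]; exact he_mono _ _ le_top
      · rw [hidx]; exact hC.index_ne_zero
      · rw [← hK]
        exact (hcyc.comap f hf).map H.subtype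
    · intro q hq
      obtain ⟨x, rfl⟩ := hf q
      have h5 : (x : G) ∉ K := by
        intro hc
        exact hq ((QuotientGroup.eq_one_iff _).2 (Subgroup.mem_subgroupOf.2 hc))
      obtain ⟨L, hL1, hL2, hL3, hL4⟩ := h2 x x.2 h5
      have h6 : (L.subgroupOf H).map f = (L.subgroupOf H).map f := rfl
      have h7 : ((L.subgroupOf H).map f).comap f = L.subgroupOf H := by
        refine Subgroup.comap_map_eq_self ?_
        intro y hy
        rw [MonoidHom.mem_ker] at hy
        have h8 := (QuotientGroup.eq_one_iff (N := K.subgroupOf H) y).1 hy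
        rw [Subgroup.mem_subgroupOf] at h8 ⊢
        exact hL1 h8
      refine ⟨(L.subgroupOf H).map f, ⟨?_⟩, ?_⟩
      · rw [← Subgroup.index_comap_of_surjective _ hf, h7]
        exact hL3
      · intro hc
        apply hL4
        have h8 : x ∈ ((L.subgroupOf H).map f).comap f := hc
        rw [h7, Subgroup.mem_subgroupOf] at h8
        exact h8

end Pool.Agent.Helper317
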