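import Mathlib
import Pool.Agent.Helper317.Factor

set_option autoImplicit false
set_option linter.style.haveILetI false

/-!
# Groups whose integral group ring is Noetherian of finite Krull dimension
-/

namespace Pool.Agent.Helper317

variable {G P Q : Type*} [Group G] [Group P] [Group Q]

theorem exists_chain {K H : Subgroup G} (h : Ser K H) :
    ∃ (n : ℕ) (c : ℕ → Subgroup G), c 0 = K ∧ c n = H ∧ ∀ i < n, Fac (c i) (c (i + 1)) := by
  induction h with
  | refl => exact ⟨0, fun _ => K, rfl, rfl, fun i hi => by omega⟩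
  | @step H T _ hf ih =>
    obtain ⟨n, c, h0, hn, hc⟩ := ih
    refine ⟨n + 1, fun i => if i ≤ n then c i else T, by simpa using h0, by simp, ?_⟩
    intro i hi
    by_cases h1 : i + 1 ≤ n
    · have h2 : i ≤ n := by omega
      simp only [h1, h2, if_true]
      exact hc i (by omega)
    · have h2 : i = n := by omega
      subst h2
      simp only [le_refl, if_true, h1, if_false]
      rw [hn]; exact hf

theorem cyc_of_isCyclic (N : Subgroup Q) [N.Normal] (h : IsCyclic (Q ⧸ N)) : Cyc N ⊤ := by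
  obtain ⟨q, hq⟩ := h
  obtain ⟨x, rfl⟩ := QuotientGroup.mk'_surjective N q
  refine ⟨x, trivial, ?_⟩
  intro y _
  obtain ⟨n, hn⟩ := hq (QuotientGroup.mk' N y)
  have hn' : (QuotientGroup.mk' N x) ^ n = QuotientGroup.mk' N y := hn
  refine ⟨-n, ?_⟩
  refine (QuotientGroup.eq_one_iff _).1 ?_
  show QuotientGroup.mk' N (y * x ^ (-n)) = 1
  rw [map_mul, map_zpow, ← hn', ← zpow_add, add_neg_cancel, zpow_zero]

theorem vsol_step (hmax : ∀ K : Subgroup G, K.FG) {K H : Subgroup G} (hKH : K ≤ H)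
    (hn : (K.subgroupOf H).Normal)
    (h : Finite (H ⧸ K.subgroupOf H) ∨ IsCyclic (H ⧸ K.subgroupOf H)) (hV : VSol K) : VSol H := by
  have hV' : VSol (K.subgroupOf H) := hV.of_equiv (Subgroup.subgroupOfEquivOfLe hKH).symm
  rcases h with h | h
  · exact VSol.of_finiteIndex _ Subgroup.finiteIndex_of_finite_quotient hV'
  · have hfg : Group.FG (K.subgroupOf H) :=
      (Group.fg_iff_subgroup_fg _).2 (fg_of_inj H.subtype H.subtype_injective hmax _)
    exact VSol.of_cyclic _ hfg hV' (cyc_of_isCyclic _ h)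

theorem vsol_chain (hmax : ∀ K : Subgroup G, K.FG) (c : ℕ → Subgroup G) (n : ℕ) (h0 : c 0 = ⊥)
    (hc : ∀ i < n, c i ≤ c (i + 1) ∧ ∃ _ : ((c i).subgroupOf (c (i + 1))).Normal,
      (Finite (c (i + 1) ⧸ (c i).subgroupOf (c (i + 1))) ∨
        IsCyclic (c (i + 1) ⧸ (c i).subgroupOf (c (i + 1))))) :
    ∀ i ≤ n, VSol (c i) := by
  intro i
  induction i with
  | zero =>
    intro _
    refine ⟨⊤, inferInstance, ?_⟩
    rw [h0]
    infer_instance
  | succ i ih =>
    intro hi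
    obtain ⟨h1, h2, h3⟩ := hc i (by omega)
    exact vsol_step hmax h1 h2 h3 (ih (by omega))

theorem finite_krull_series [IsNoetherianRing (MonoidAlgebra ℤ G)]
    (hdim : FiniteKrullDim (MonoidAlgebra ℤ G)) :
    ∃ (n : ℕ) (c : ℕ → Subgroup G), c 0 = ⊥ ∧ c n = ⊤ ∧
      (∀ i < n, c i ≤ c (i + 1) ∧ ∃ _ : ((c i).subgroupOf (c (i + 1))).Normal,
        (Finite (c (i + 1) ⧸ (c i).subgroupOf (c (i + 1))) ∨
          IsCyclic (c (i + 1) ⧸ (c i).subgroupOf (c (i + 1))) ∨
          Exotic (c (i + 1) ⧸ (c i).subgroupOf (c (i + 1))))) ∧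
      (¬ VirtPolycyclic G → ∃ i < n, ∃ _ : ((c i).subgroupOf (c (i + 1))).Normal,
        Exotic (c (i + 1) ⧸ (c i).subgroupOf (c (i + 1)))) := by
  have hmax : ∀ K : Subgroup G, K.FG := fg_of_noetherian ℤ G
  obtain ⟨m, hm⟩ := hdim
  have hno := not_infChain hmax m hm
  have hser : Ser (⊥ : Subgroup G) ⊤ := ser_main hmax m ⊥ ⊤ (nm_top inferInstance) hno
  obtain ⟨n, c, h0, hn, hc⟩ := exists_chain hser
  have hfac : ∀ i < n, c i ≤ c (i + 1) ∧ ∃ _ : ((c i).subgroupOf (c (i + 1))).Normal,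
        (Finite (c (i + 1) ⧸ (c i).subgroupOf (c (i + 1))) ∨
          IsCyclic (c (i + 1) ⧸ (c i).subgroupOf (c (i + 1))) ∨
          Exotic (c (i + 1) ⧸ (c i).subgroupOf (c (i + 1)))) := by
    intro i hi
    have h1 := hc i hi
    have h2 := normal_subgroupOf h1.1
    exact ⟨h1.1.1, h2, factor_of_fac hmax h1 h2⟩
  refine ⟨n, c, h0, hn, hfac, ?_⟩
  intro hv
  by_contra hcon
  push Not at hcon
  apply hv
  apply virtPolycyclic_of_vsol hmax
  have h1 : VSol (c n) := by
    refine vsol_chain hmax c n h0 ?_ n le_rfl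
    intro i hi
    obtain ⟨h1, h2, h3⟩ := hfac i hi
    refine ⟨h1, h2, ?_⟩
    rcases h3 with h3 | h3 | h3
    · exact Or.inl h3
    · exact Or.inr h3
    · exact (hcon i hi h2 h3).elim
  rw [hn] at h1
  exact h1.of_equiv Subgroup.topEquiv

end Pool.Agent.Helper317
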