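import Mathlib
import Pool.Agent.Helper317.FiniteKrull

set_option autoImplicit false
set_option linter.style.haveILetI false

/-!
# Noetherian group rings of finite Krull dimension: passing to subgroups and quotients
-/

namespace Pool.Agent.Helper317

open MonoidAlgebra

variable {G P Q : Type*} [Group G] [Group P] [Group Q]

open Classical in
/-- restriction of an element of the group ring to a subgroup -/
noncomputable def proj (H : Subgroup G) : MonoidAlgebra ℤ G →+ MonoidAlgebra ℤ H :=
  (Finsupp.liftAddHom fun g : G =>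
    if h : g ∈ H then
      ({ toFun := fun r : ℤ => single (⟨g, h⟩ : H) r
         map_zero' := by simp
         map_add' := fun a b => by simp } : ℤ →+ MonoidAlgebra ℤ H)
    else 0).comp (coeffAddEquiv (R := ℤ) (M := G)).toAddMonoidHom

theorem proj_single_mem (H : Subgroup G) (g : G) (h : g ∈ H) (r : ℤ) :
    proj H (single g r) = single (⟨g, h⟩ : H) r := by
  simp [proj, h]

theorem proj_single_not_mem (H : Subgroup G) (g : G) (h : g ∉ H) (r : ℤ) :
    proj H (single g r) = 0 := by
  simp [proj, h]

/-- the inclusion of the group ring of a subgroup -/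
noncomputable def incl (H : Subgroup G) : MonoidAlgebra ℤ H →+* MonoidAlgebra ℤ G :=
  MonoidAlgebra.mapDomainRingHom ℤ H.subtype

theorem incl_single (H : Subgroup G) (h : H) (r : ℤ) : incl H (single h r) = single (h : G) r := by
  simp [incl]

theorem proj_mul_incl (H : Subgroup G) (x : MonoidAlgebra ℤ G) (y : MonoidAlgebra ℤ H) :
    proj H (x * incl H y) = proj H x * y := by
  induction y using MonoidAlgebra.induction_linear with
  | zero => simp
  | add a b ha hb => rw [map_add, mul_add, map_add, ha, hb, mul_add]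
  | single h r =>
    rw [incl_single]
    induction x using MonoidAlgebra.induction_linear with
    | zero => simp
    | add a b ha hb => rw [add_mul, map_add, map_add, ha, hb, add_mul]
    | single g s =>
      rw [single_mul_single]
      by_cases hg : g ∈ H
      · rw [proj_single_mem H g hg, single_mul_single, proj_single_mem H _ (H.mul_mem hg h.2)]
        rfl
      · have h1 : g * (h : G) ∉ H := fun hc => hg ((H.mul_mem_cancel_right h.2).1 hc)
        rw [proj_single_not_mem H g hg, proj_single_not_mem H _ h1, zero_mul]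

theorem proj_incl (H : Subgroup G) (y : MonoidAlgebra ℤ H) : proj H (incl H y) = y := by
  have h1 := proj_mul_incl H 1 y
  rw [one_mul] at h1
  rw [h1, one_def, proj_single_mem H 1 H.one_mem]
  exact one_mul y

/-- the left ideal generated in the big group ring -/
noncomputable def extI (H : Subgroup G) (I : Ideal (MonoidAlgebra ℤ H)) :
    Ideal (MonoidAlgebra ℤ G) := Ideal.span (incl H '' (I : Set (MonoidAlgebra ℤ H)))

theorem proj_extI (H : Subgroup G) (I : Ideal (MonoidAlgebra ℤ H)) {z : MonoidAlgebra ℤ G}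
    (hz : z ∈ extI H I) : proj H z ∈ I := by
  have key : ∀ z ∈ extI H I, ∀ a : MonoidAlgebra ℤ G, proj H (a * z) ∈ I := by
    intro z hz
    unfold extI at hz
    induction hz using Submodule.span_induction with
    | mem z h =>
      obtain ⟨y, hy, rfl⟩ := h
      intro a
      rw [proj_mul_incl]
      exact I.mul_mem_left _ hy
    | zero => intro a; simp
    | add x y _ _ hx hy => intro a; rw [mul_add, map_add]; exact I.add_mem (hx a) (hy a)
    | smul b x _ hx => intro a; rw [smul_eq_mul, ← mul_assoc]; exact hx _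
  have := key z hz 1
  rwa [one_mul] at this

theorem extI_strictMono (H : Subgroup G) : StrictMono (extI H) := by
  have hmono : Monotone (extI H) := fun I J h => Ideal.span_mono (Set.image_mono h)
  have hinj : ∀ I J : Ideal (MonoidAlgebra ℤ H), extI H I ≤ extI H J → I ≤ J := by
    intro I J h x hx
    have h1 : incl H x ∈ extI H J := h (Ideal.subset_span ⟨x, hx, rfl⟩)
    have h2 := proj_extI H J h1
    rwa [proj_incl] at h2
  intro I J h
  refine lt_of_le_of_ne (hmono h.le) ?_
  intro he
  exact h.not_ge (hinj J I he.ge)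

theorem noeth_sub (H : Subgroup G) [hN : IsNoetherianRing (MonoidAlgebra ℤ G)] :
    IsNoetherianRing (MonoidAlgebra ℤ H) := by
  have hwf : WellFoundedGT (Ideal (MonoidAlgebra ℤ G)) := isNoetherian_iff'.1 hN
  exact isNoetherian_iff'.2 (extI_strictMono H).wellFoundedGT

theorem noeth_quot [hN : IsNoetherianRing (MonoidAlgebra ℤ P)] (f : P →* Q)
    (hf : Function.Surjective f) : IsNoetherianRing (MonoidAlgebra ℤ Q) := by
  refine isNoetherianRing_of_surjective _ _ (MonoidAlgebra.mapDomainRingHom ℤ f) ?_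
  intro x
  induction x using MonoidAlgebra.induction_linear with
  | zero => exact ⟨0, map_zero _⟩
  | add x y hx hy =>
    obtain ⟨a, rfl⟩ := hx
    obtain ⟨b, rfl⟩ := hy
    exact ⟨a + b, map_add _ _ _⟩
  | single g r =>
    obtain ⟨g, rfl⟩ := hf g
    exact ⟨single g r, by simp⟩

theorem dev_strictMono {α β : Type*} [PartialOrder α] [PartialOrder β] [BoundedOrder α]
    [BoundedOrder β] {φ : α → β} (hφ : StrictMono φ) (n : ℕ) (h : DevLT n (⊥ : β) ⊤) :
    DevLT n (⊥ : α) ⊤ := by
  refine DevLT.of_map φ n h bot_le bot_le le_top ?_ ?_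
  · intro x y _ hxy _
    exact hφ.monotone hxy
  · intro x y _ hxy _ he
    rcases hxy.eq_or_lt with h1 | h1
    · exact h1
    · exact absurd he (hφ h1).ne

theorem krull_sub (H : Subgroup G) (h : FiniteKrullDim (MonoidAlgebra ℤ G)) :
    FiniteKrullDim (MonoidAlgebra ℤ H) := by
  obtain ⟨n, hn⟩ := h
  exact ⟨n, dev_strictMono (extI_strictMono H) n hn⟩

theorem krull_quot (f : P →* Q) (hf : Function.Surjective f)
    (h : FiniteKrullDim (MonoidAlgebra ℤ P)) : FiniteKrullDim (MonoidAlgebra ℤ Q) := by
  obtain ⟨n, hn⟩ := h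
  have hsurj : Function.Surjective (MonoidAlgebra.mapDomainRingHom ℤ f) := by
    intro x
    induction x using MonoidAlgebra.induction_linear with
    | zero => exact ⟨0, map_zero _⟩
    | add x y hx hy =>
      obtain ⟨a, rfl⟩ := hx
      obtain ⟨b, rfl⟩ := hy
      exact ⟨a + b, map_add _ _ _⟩
    | single g r =>
      obtain ⟨g, rfl⟩ := hf g
      exact ⟨single g r, by simp⟩
  refine ⟨n, dev_strictMono (φ := Ideal.comap (MonoidAlgebra.mapDomainRingHom ℤ f)) ?_ n hn⟩
  intro I J hIJ
  refine lt_of_le_of_ne (Ideal.comap_mono hIJ.le) ?_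
  intro he
  apply hIJ.not_ge
  intro x hx
  obtain ⟨y, rfl⟩ := hsurj x
  have h1 : y ∈ Ideal.comap (MonoidAlgebra.mapDomainRingHom ℤ f) J := hx
  rw [← he] at h1
  exact h1

theorem finite_krull_series' [IsNoetherianRing (MonoidAlgebra ℤ G)]
    (hdim : FiniteKrullDim (MonoidAlgebra ℤ G)) :
    ∃ (n : ℕ) (c : ℕ → Subgroup G), c 0 = ⊥ ∧ c n = ⊤ ∧
      (∀ i < n, c i ≤ c (i + 1) ∧ ∃ _ : ((c i).subgroupOf (c (i + 1))).Normal,
        (Finite (c (i + 1) ⧸ (c i).subgroupOf (c (i + 1))) ∨
          IsCyclic (c (i + 1) ⧸ (c i).subgroupOf (c (i + 1))) ∨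
          Exotic (c (i + 1) ⧸ (c i).subgroupOf (c (i + 1))))) ∧
      (¬ VirtPolycyclic G → ∃ i < n, ∃ _ : ((c i).subgroupOf (c (i + 1))).Normal,
        Exotic (c (i + 1) ⧸ (c i).subgroupOf (c (i + 1))) ∧
        IsNoetherianRing (MonoidAlgebra ℤ (c (i + 1) ⧸ (c i).subgroupOf (c (i + 1)))) ∧
        FiniteKrullDim (MonoidAlgebra ℤ (c (i + 1) ⧸ (c i).subgroupOf (c (i + 1))))) := by
  obtain ⟨n, c, h0, hn, hfac, hvp⟩ := finite_krull_series (G := G) hdim
  refine ⟨n, c, h0, hn, hfac, fun hv => ?_⟩
  obtain ⟨i, hi, hN, hE⟩ := hvp hv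
  refine ⟨i, hi, hN, hE, ?_, ?_⟩
  · haveI := noeth_sub (c (i + 1))
    exact noeth_quot (QuotientGroup.mk' ((c i).subgroupOf (c (i + 1))))
      (QuotientGroup.mk'_surjective _)
  · exact krull_quot (QuotientGroup.mk' ((c i).subgroupOf (c (i + 1))))
      (QuotientGroup.mk'_surjective _) (krull_sub _ hdim)

end Pool.Agent.Helper317
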