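import Mathlib
import Pool.Agent.Helper317.Tor
import Pool.Agent.Helper317.Sections

set_option autoImplicit false
set_option linter.style.haveILetI false

/-!
# Connell's theorem: prime group rings (for groups with the maximal condition)
-/

namespace Pool.Agent.Helper317

open MonoidAlgebra
open scoped Pointwise commutatorElement

variable {G : Type*} [Group G]

theorem fcc_conj {g : G} (hg : g ∈ FCC G) (x : G) : x * g * x⁻¹ ∈ FCC G := by
  have h1 : (Subgroup.centralizer {g}).FiniteIndex := hg
  show (Subgroup.centralizer {x * g * x⁻¹}).FiniteIndex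
  have h2 : Subgroup.centralizer {x * g * x⁻¹} =
      (Subgroup.centralizer {g}).map (MulAut.conj x).toMonoidHom := by
    ext y
    simp only [Subgroup.mem_centralizer_singleton_iff, Subgroup.mem_map]
    constructor
    · intro h
      refine ⟨x⁻¹ * y * x, ?_, ?_⟩
      · calc x⁻¹ * y * x * g = x⁻¹ * (y * (x * g * x⁻¹)) * x := by group
          _ = x⁻¹ * ((x * g * x⁻¹) * y) * x := by rw [h]
          _ = g * (x⁻¹ * y * x) := by group
      · simp [mul_assoc]
    · rintro ⟨z, hz, rfl⟩
      simp only [MulEquiv.coe_toMonoidHom, MulAut.conj_apply]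
      calc x * z * x⁻¹ * (x * g * x⁻¹) = x * (z * g) * x⁻¹ := by group
        _ = x * (g * z) * x⁻¹ := by rw [hz]
        _ = _ := by group
  rw [h2]
  constructor
  have h3 := Subgroup.index_map_equiv (H := Subgroup.centralizer {g}) (MulAut.conj x)
  intro h0
  apply h1.index_ne_zero
  rw [← h3]
  exact h0

theorem fcc_normal : (FCC G).Normal := ⟨fun _ hg x => fcc_conj hg x⟩

theorem finite_commutator {Q : Type*} [Group Q] (Z : Subgroup Q) (hZ : Z.FiniteIndex)
    (hc : ∀ z ∈ Z, ∀ x : Q, x * z = z * x) : Finite (_root_.commutator Q) := by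
  haveI := hZ
  haveI : Finite (Q ⧸ Z) := Subgroup.finite_quotient_of_finiteIndex
  have key : ∀ a b z : Q, z ∈ Z → a * z * b * (a * z)⁻¹ * b⁻¹ = a * b * a⁻¹ * b⁻¹ := by
    intro a b z hz
    have h1 := hc z hz b
    calc a * z * b * (a * z)⁻¹ * b⁻¹ = a * (z * b) * z⁻¹ * a⁻¹ * b⁻¹ := by group
      _ = a * (b * z) * z⁻¹ * a⁻¹ * b⁻¹ := by rw [h1]
      _ = _ := by group
  have key2 : ∀ a b z : Q, z ∈ Z → a * (b * z) * a⁻¹ * (b * z)⁻¹ = a * b * a⁻¹ * b⁻¹ := by
    intro a b z hz
    have h1 := hc z hz a⁻¹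
    calc a * (b * z) * a⁻¹ * (b * z)⁻¹ = a * b * (z * a⁻¹) * z⁻¹ * b⁻¹ := by group
      _ = a * b * (a⁻¹ * z) * z⁻¹ * b⁻¹ := by rw [h1]
      _ = _ := by group
  have hfin : (commutatorSet Q).Finite := by
    refine (Set.finite_range fun p : (Q ⧸ Z) × (Q ⧸ Z) =>
      Quotient.out p.1 * Quotient.out p.2 * (Quotient.out p.1)⁻¹ * (Quotient.out p.2)⁻¹).subset ?_
    rintro _ ⟨a, b, rfl⟩
    refine ⟨((a : Q ⧸ Z), (b : Q ⧸ Z)), ?_⟩
    simp only
    set a' := Quotient.out (a : Q ⧸ Z) with ha'
    set b' := Quotient.out (b : Q ⧸ Z) with hb'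
    have h1 : a'⁻¹ * a ∈ Z := QuotientGroup.eq.1 (Quotient.out_eq' (a : Q ⧸ Z))
    have h2 : b'⁻¹ * b ∈ Z := QuotientGroup.eq.1 (Quotient.out_eq' (b : Q ⧸ Z))
    have e1 := key a' b _ h1
    have e2 := key2 a' b' _ h2
    rw [mul_inv_cancel_left] at e1 e2
    rw [commutatorElement_def, e1, e2]
  haveI : Finite (commutatorSet Q) := hfin.to_subtype
  infer_instance

theorem fcc_structure (hmax : ∀ K : Subgroup G, K.FG)
    (h0 : ∀ X : Subgroup G, X.Normal → Finite X → X = ⊥) :
    (∀ a ∈ FCC G, ∀ b ∈ FCC G, a * b = b * a) ∧ ∀ a ∈ FCC G, IsOfFinOrder a → a = 1 := by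
  classical
  have hcomm : ∀ a ∈ FCC G, ∀ b ∈ FCC G, a * b = b * a := by
    obtain ⟨S, hS⟩ := hmax (FCC G)
    let Z : Subgroup G := ⨅ s : S, Subgroup.centralizer {(s : G)}
    have hZ : Z.FiniteIndex := by
      apply Subgroup.finiteIndex_iInf
      intro s
      have : (s : G) ∈ FCC G := by rw [← hS]; exact Subgroup.subset_closure s.2
      exact this
    have hZcomm : ∀ z ∈ Z, ∀ d ∈ FCC G, d * z = z * d := by
      intro z hz d hd
      have h1 : d ∈ Subgroup.centralizer {z} := by
        rw [← hS] at hd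
        refine (Subgroup.closure_le _).2 ?_ hd
        intro s hs
        have := (Subgroup.mem_iInf.1 hz) ⟨s, hs⟩
        rw [Subgroup.mem_centralizer_singleton_iff] at this
        rw [SetLike.mem_coe, Subgroup.mem_centralizer_singleton_iff]
        exact this.symm
      rw [Subgroup.mem_centralizer_singleton_iff] at h1
      exact h1
    have hZ' : (Z.subgroupOf (FCC G)).FiniteIndex := by
      haveI := hZ
      infer_instance
    have hfin := finite_commutator (Z.subgroupOf (FCC G)) hZ' (by
      rintro ⟨z, hz⟩ hz' ⟨x, hx⟩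
      exact Subtype.ext (hZcomm z (Subgroup.mem_subgroupOf.1 hz') x hx))
    let X : Subgroup G := (_root_.commutator (FCC G)).map (FCC G).subtype
    have hXn : X.Normal := by
      have : X = ⁅FCC G, FCC G⁆ := by
        show (_root_.commutator (FCC G)).map (FCC G).subtype = _
        rw [_root_.commutator_def, Subgroup.map_commutator, ← MonoidHom.range_eq_map,
          Subgroup.range_subtype]
      rw [this]
      haveI := fcc_normal (G := G)
      infer_instance
    have hXf : Finite X := by
      have h3 : (X : Set G).Finite := by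
        rw [Subgroup.coe_map]
        exact Set.Finite.image _ (Set.toFinite _)
      exact h3.to_subtype
    have hX := h0 X hXn hXf
    intro a ha b hb
    have h1 : ⁅a, b⁆ ∈ X := by
      refine ⟨⁅(⟨a, ha⟩ : FCC G), ⟨b, hb⟩⁆, ?_, rfl⟩
      rw [SetLike.mem_coe, _root_.commutator_def]
      exact Subgroup.commutator_mem_commutator trivial trivial
    rw [hX, Subgroup.mem_bot, commutatorElement_eq_one_iff_mul_comm] at h1
    exact h1
  refine ⟨hcomm, ?_⟩
  let B : Subgroup G :=
    { carrier := {a | a ∈ FCC G ∧ IsOfFinOrder a}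
      one_mem' := ⟨(FCC G).one_mem, IsOfFinOrder.one⟩
      mul_mem' := by
        rintro a b ⟨ha, ha'⟩ ⟨hb, hb'⟩
        exact ⟨(FCC G).mul_mem ha hb, (show Commute a b from hcomm a ha b hb).isOfFinOrder_mul ha' hb'⟩
      inv_mem' := by
        rintro a ⟨ha, ha'⟩
        exact ⟨(FCC G).inv_mem ha, ha'.inv⟩ }
  have hBf : Finite B := by
    have h1 : (B : Set G).Finite := (tfc_finite hmax).subset fun x hx => ⟨hx.2, hx.1⟩
    exact h1.to_subtype
  have hBn : B.Normal := by
    refine ⟨?_⟩
    rintro b ⟨hb, hb'⟩ x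
    refine ⟨fcc_conj hb x, ?_⟩
    have := tfc_conj (G := G) (g := b) ⟨hb', hb⟩ x⁻¹
    have h2 := this.1
    rwa [inv_inv] at h2
  have hB := h0 B hBn hBf
  intro a ha ha'
  have : a ∈ B := ⟨ha, ha'⟩
  rwa [hB, Subgroup.mem_bot] at this

theorem proj_coeff (H : Subgroup G) (x : MonoidAlgebra ℤ G) (h : H) :
    (proj H x).coeff h = x.coeff (h : G) := by
  classical
  induction x using MonoidAlgebra.induction_linear with
  | zero => simp
  | add a b ha hb => rw [map_add, coeff_add, coeff_add, Finsupp.add_apply, Finsupp.add_apply, ha, hb]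
  | single g r =>
    by_cases hg : g ∈ H
    · rw [proj_single_mem H g hg, coeff_single, coeff_single, Finsupp.single_apply,
        Finsupp.single_apply]
      congr 1
      rw [eq_iff_iff]
      exact ⟨fun h => congrArg Subtype.val h, fun h => Subtype.ext h⟩
    · rw [proj_single_not_mem H g hg, coeff_single, Finsupp.single_apply, if_neg]
      · simp
      · intro he; exact hg (he ▸ h.2)

theorem incl_coeff_mem (H : Subgroup G) (y : MonoidAlgebra ℤ H) (h : H) :
    (incl H y).coeff (h : G) = y.coeff h := by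
  rw [← proj_coeff, proj_incl]

theorem incl_coeff_not_mem (H : Subgroup G) (y : MonoidAlgebra ℤ H) (g : G) (hg : g ∉ H) :
    (incl H y).coeff g = 0 := by
  classical
  induction y using MonoidAlgebra.induction_linear with
  | zero => simp
  | add a b ha hb => rw [map_add, coeff_add, Finsupp.add_apply, ha, hb, add_zero]
  | single h r =>
    rw [incl_single, coeff_single, Finsupp.single_apply, if_neg]
    intro he; exact hg (he ▸ h.2)

theorem proj_incl_mul (H : Subgroup G) (x : MonoidAlgebra ℤ G) (y : MonoidAlgebra ℤ H) :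
    proj H (incl H y * x) = y * proj H x := by
  induction y using MonoidAlgebra.induction_linear with
  | zero => simp
  | add a b ha hb => rw [map_add, add_mul, map_add, ha, hb, add_mul]
  | single h r =>
    rw [incl_single]
    induction x using MonoidAlgebra.induction_linear with
    | zero => simp
    | add a b ha hb => rw [mul_add, map_add, map_add, ha, hb, mul_add]
    | single g s =>
      rw [single_mul_single]
      by_cases hg : g ∈ H
      · rw [proj_single_mem H g hg, single_mul_single, proj_single_mem H _ (H.mul_mem h.2 hg)]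
        rfl
      · have h1 : (h : G) * g ∉ H := fun hc => hg ((H.mul_mem_cancel_left h.2).1 hc)
        rw [proj_single_not_mem H g hg, proj_single_not_mem H _ h1, mul_zero]

theorem delta_lemma (a b : MonoidAlgebra ℤ G) (h : ∀ x : G, a * single x 1 * b = 0) :
    incl (FCC G) (proj (FCC G) a) * b = 0 := by
  classical
  set a0 := incl (FCC G) (proj (FCC G) a) with ha0
  set a1 := a - a0 with ha1
  have hsupp1 : ∀ u ∈ a1.coeff.support, u ∉ FCC G := by
    intro u hu hu2
    rw [Finsupp.mem_support_iff] at hu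
    apply hu
    rw [ha1, coeff_sub, Finsupp.sub_apply, ha0, incl_coeff_mem _ _ ⟨u, hu2⟩, proj_coeff, sub_self]
  -- the centralizer of the support of `a0`
  let W : Subgroup G := ⨅ u : a0.coeff.support, Subgroup.centralizer {(u : G)}
  have hW : W.FiniteIndex := by
    apply Subgroup.finiteIndex_iInf
    intro u
    have hu := u.2
    rw [Finsupp.mem_support_iff] at hu
    have : (u : G) ∈ FCC G := by
      by_contra hc
      exact hu (incl_coeff_not_mem _ _ _ hc)
    exact this
  have hWc : ∀ x ∈ W, single x (1 : ℤ) * a0 = a0 * single x 1 := by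
    intro x hx
    have h1 : ∀ u ∈ a0.coeff.support, x * u = u * x := by
      intro u hu
      have := (Subgroup.mem_iInf.1 hx) ⟨u, hu⟩
      exact Subgroup.mem_centralizer_singleton_iff.1 this
    have h2 : a0 = ∑ u ∈ a0.coeff.support, single u (a0.coeff u) := by
      ext g
      rw [coeff_sum, Finsupp.finsetSum_apply]
      simp only [coeff_single, Finsupp.single_apply]
      rw [Finset.sum_ite_eq']
      split_ifs with h3
      · rfl
      · simpa using h3
    rw [h2, Finset.mul_sum, Finset.sum_mul]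
    refine Finset.sum_congr rfl fun u hu => ?_
    rw [single_mul_single, single_mul_single, h1 u hu, one_mul, mul_one]
  by_contra hne
  obtain ⟨g, hg⟩ : ∃ g, (a0 * b).coeff g ≠ 0 := by
    by_contra hcon
    push Not at hcon
    apply hne
    ext g
    simpa using hcon g
  -- every element of `W` conjugates a support element of `a1` to a fixed finite set
  have key : ∀ x ∈ W, ∃ u ∈ a1.coeff.support, ∃ v ∈ b.coeff.support, x⁻¹ * u * x = g * v⁻¹ := by
    intro x hx
    have h1 : single x⁻¹ (1 : ℤ) * (a * single x 1 * b) = 0 := by rw [h x, mul_zero]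
    have h2 : a = a0 + a1 := by rw [ha1]; abel
    have h3 : single x⁻¹ (1 : ℤ) * a0 * single x 1 = a0 := by
      rw [mul_assoc, ← hWc x hx, ← mul_assoc, single_mul_single, inv_mul_cancel, one_mul, ← one_def,
        one_mul]
    have h4 : single x⁻¹ (1 : ℤ) * (a * single x 1 * b) =
        a0 * b + single x⁻¹ 1 * a1 * single x 1 * b := by
      conv_lhs => rw [h2]
      rw [add_mul, add_mul, mul_add, ← mul_assoc, ← mul_assoc, h3, ← mul_assoc, ← mul_assoc]
    rw [h1] at h4
    have h5 : (single x⁻¹ (1 : ℤ) * a1 * single x 1 * b).coeff g ≠ 0 := by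
      intro h6
      apply hg
      have h7 := congrArg (fun z => z.coeff g) h4
      simp only [coeff_zero, Finsupp.coe_zero, Pi.zero_apply, coeff_add, Finsupp.add_apply, h6,
        add_zero] at h7
      exact h7.symm
    have h6 : g ∈ (single x⁻¹ (1 : ℤ) * a1 * single x 1 * b).coeff.support := by
      rw [Finsupp.mem_support_iff]; exact h5
    have h7 := support_coeff_mul_subset _ _ h6
    rw [Finset.mem_mul] at h7
    obtain ⟨w, hw, v, hv, rfl⟩ := h7
    have h8 := support_coeff_mul_subset _ _ hw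
    rw [Finset.mem_mul] at h8
    obtain ⟨w2, hw2, y, hy, rfl⟩ := h8
    have h9 := support_coeff_mul_subset _ _ hw2
    rw [Finset.mem_mul] at h9
    obtain ⟨z, hz, u, hu, rfl⟩ := h9
    have hz' : z = x⁻¹ := by
      rw [Finsupp.mem_support_iff, coeff_single, Finsupp.single_apply] at hz
      by_contra hc
      exact hz (if_neg (fun h => hc h.symm))
    have hy' : y = x := by
      rw [Finsupp.mem_support_iff, coeff_single, Finsupp.single_apply] at hy
      by_contra hc
      exact hy (if_neg (fun h => hc h.symm))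
    refine ⟨u, hu, v, hv, ?_⟩
    rw [hz', hy']
    group
  -- a finite cover of `G` by cosets of centralizers
  haveI := hW
  haveI : Finite (G ⧸ W) := Subgroup.finite_quotient_of_finiteIndex
  haveI : Fintype (G ⧸ W) := Fintype.ofFinite _
  let s : Finset ((G ⧸ W) × (G × G)) :=
    (Finset.univ ×ˢ (a1.coeff.support ×ˢ b.coeff.support)).filter fun p =>
      ∃ x : G, x⁻¹ * p.2.1 * x = g * p.2.2⁻¹
  let gg : G × G → G := fun p => if h : ∃ x : G, x⁻¹ * p.1 * x = g * p.2⁻¹ then h.choose else 1
  have hgg : ∀ p : G × G, (∃ x : G, x⁻¹ * p.1 * x = g * p.2⁻¹) →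
      (gg p)⁻¹ * p.1 * gg p = g * p.2⁻¹ := by
    intro p hp
    simp only [gg, dif_pos hp]
    exact hp.choose_spec
  have hcov : ⋃ p ∈ s, (Quotient.out p.1 * gg p.2) •
      ((Subgroup.centralizer {g * p.2.2⁻¹} : Subgroup G) : Set G) = Set.univ := by
    rw [Set.eq_univ_iff_forall]
    intro y
    set r := Quotient.out (y : G ⧸ W) with hr
    have h1 : r⁻¹ * y ∈ W := QuotientGroup.eq.1 (Quotient.out_eq' (y : G ⧸ W))
    obtain ⟨u, hu, v, hv, huv⟩ := key _ h1
    refine Set.mem_iUnion₂.2 ⟨((y : G ⧸ W), (u, v)), ?_, ?_⟩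
    · simp only [s, Finset.mem_filter, Finset.mem_product, Finset.mem_univ, true_and]
      exact ⟨⟨hu, hv⟩, _, huv⟩
    · rw [Set.mem_smul_set]
      have h2 := hgg (u, v) ⟨_, huv⟩
      simp only at h2
      set w := gg (u, v) with hw
      refine ⟨w⁻¹ * (r⁻¹ * y), ?_, ?_⟩
      · rw [SetLike.mem_coe, Subgroup.mem_centralizer_singleton_iff]
        simp only
        calc w⁻¹ * (r⁻¹ * y) * (g * v⁻¹) = w⁻¹ * (r⁻¹ * y) * ((r⁻¹ * y)⁻¹ * u * (r⁻¹ * y)) := by
              rw [huv]
          _ = w⁻¹ * u * w * (w⁻¹ * (r⁻¹ * y)) := by group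
          _ = g * v⁻¹ * (w⁻¹ * (r⁻¹ * y)) := by rw [h2]
      · show r * w * (w⁻¹ * (r⁻¹ * y)) = y
        group
  obtain ⟨p, hp, hfin⟩ := Subgroup.exists_finiteIndex_of_leftCoset_cover hcov
  simp only [s, Finset.mem_filter, Finset.mem_product, Finset.mem_univ, true_and] at hp
  obtain ⟨⟨hu, hv⟩, hx⟩ := hp
  have h2 := hgg p.2 hx
  have h3 : g * p.2.2⁻¹ ∈ FCC G := hfin
  have h4 := fcc_conj h3 (gg p.2)
  rw [← h2] at h4
  have h5 : gg p.2 * ((gg p.2)⁻¹ * p.2.1 * gg p.2) * (gg p.2)⁻¹ = p.2.1 := by group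
  rw [h5] at h4
  exact hsupp1 _ hu h4

/-- Connell: if `G` has the maximal condition and no nontrivial finite normal subgroup, its integral
group ring is prime. -/
theorem connell (hmax : ∀ K : Subgroup G, K.FG)
    (h0 : ∀ X : Subgroup G, X.Normal → Finite X → X = ⊥) (a b : MonoidAlgebra ℤ G)
    (h : ∀ r : MonoidAlgebra ℤ G, a * r * b = 0) : a = 0 ∨ b = 0 := by
  classical
  by_contra hcon
  push Not at hcon
  obtain ⟨ha, hb⟩ := hcon
  obtain ⟨hcomm, htf⟩ := fcc_structure hmax h0
  obtain ⟨g, hg⟩ : ∃ g, a.coeff g ≠ 0 := by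
    by_contra hc
    push Not at hc
    exact ha (by ext g; simpa using hc g)
  obtain ⟨k, hk⟩ : ∃ k, b.coeff k ≠ 0 := by
    by_contra hc
    push Not at hc
    exact hb (by ext g; simpa using hc g)
  have h1 : ∀ x : G, (single g⁻¹ 1 * a) * single x 1 * (b * single k⁻¹ 1) = 0 := by
    intro x
    have : (single g⁻¹ (1 : ℤ) * a) * single x 1 * (b * single k⁻¹ 1) =
        single g⁻¹ 1 * (a * single x 1 * b) * single k⁻¹ 1 := by
      simp only [mul_assoc]
    rw [this, h, mul_zero, zero_mul]
  have h2 := delta_lemma _ _ h1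
  have h3 := proj_incl_mul (FCC G) (b * single k⁻¹ 1) (proj (FCC G) (single g⁻¹ 1 * a))
  rw [h2, map_zero] at h3
  letI : CommGroup (FCC G) := { (inferInstance : Group (FCC G)) with
    mul_comm := fun a b => Subtype.ext (hcomm a a.2 b b.2) }
  haveI : IsMulTorsionFree (FCC G) := by
    refine ⟨fun n hn x y hxy => ?_⟩
    have h4 : (x * y⁻¹) ^ n = 1 := by
      rw [mul_pow, inv_pow]
      have : x ^ n = y ^ n := hxy
      rw [this, mul_inv_cancel]
    have h5 : IsOfFinOrder (x * y⁻¹) := isOfFinOrder_iff_pow_eq_one.2 ⟨n, Nat.pos_of_ne_zero hn, h4⟩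
    have h6 := htf ((x * y⁻¹ : FCC G) : G) (x * y⁻¹).2 (Submonoid.isOfFinOrder_coe.2 h5)
    have h7 : x * y⁻¹ = 1 := Subtype.ext h6
    exact mul_inv_eq_one.1 h7
  haveI : Group.FG (FCC G) := (Group.fg_iff_subgroup_fg _).2 (hmax _)
  haveI : Monoid.FG (FCC G) := Group.fg_iff_monoid_fg.1 inferInstance
  have h4 : proj (FCC G) (single g⁻¹ 1 * a) ≠ 0 := by
    intro hz
    have h5 := proj_coeff (FCC G) (single g⁻¹ 1 * a) 1
    rw [hz] at h5
    have h6 : (single g⁻¹ (1 : ℤ) * a).coeff (1 : G) = a.coeff g := by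
      rw [coeff_single_mul_eq_mul_coeff (m₂ := g) (by
        intro m' _
        constructor
        · intro h; rw [← mul_right_inj g⁻¹, h]; simp
        · intro h; rw [h]; simp)]
      simp
    rw [Subgroup.coe_one, h6] at h5
    exact hg (by simpa using h5.symm)
  have h5 : proj (FCC G) (b * single k⁻¹ 1) ≠ 0 := by
    intro hz
    have h5 := proj_coeff (FCC G) (b * single k⁻¹ 1) 1
    rw [hz] at h5
    have h6 : (b * single k⁻¹ (1 : ℤ)).coeff (1 : G) = b.coeff k := by
      rw [coeff_mul_single_eq_coeff_mul (m₂ := k) (by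
        intro m' _
        constructor
        · intro h; rw [← mul_left_inj k⁻¹, h]; simp
        · intro h; rw [h]; simp)]
      simp
    rw [Subgroup.coe_one, h6] at h5
    exact hk (by simpa using h5.symm)
  have h6 : NoZeroDivisors (MonoidAlgebra ℤ (FCC G)) := inferInstance
  rcases h6.eq_zero_or_eq_zero_of_mul_eq_zero h3.symm with h7 | h7
  · exact h4 h7
  · exact h5 h7

end Pool.Agent.Helper317
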