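import Mathlib
import Pool.Agent.Helper317.Folner

set_option autoImplicit false
set_option linter.style.haveILetI false

/-!
# Conradian orders on right-ordered groups satisfying the Folner condition (Witte Morris)
-/

namespace Pool.Agent.Helper317

section

variable {L : Type*} [Group L] [LinearOrder L]

/-- the points at which the pair `f, g` violates the Conrad inequality -/
def Bad (f g : L) : Set L := {x | x < x * f ∧ x < x * g ∧ x * (g * g * f) ≤ x * g}

theorem bad_disjoint (hr : ∀ a b c : L, a < b → a * c < b * c) {f g x : L} (hx : x ∈ Bad f g)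
    (k : ℕ) : x * (g * f) ^ (k + 1) ∉ Bad f g := by
  have hr' : ∀ a b c : L, a ≤ b → a * c ≤ b * c := fun a b c h => by
    rcases lt_or_eq_of_le h with h | h
    · exact (hr _ _ _ h).le
    · rw [h]
  obtain ⟨hxf, hxg, hxb⟩ := hx
  have h1 : x < x * (g * f) := by
    rw [← mul_assoc]
    exact hxf.trans (hr _ _ f hxg)
  have h2 : ∀ k : ℕ, x ≤ x * (g * f) ^ k := by
    intro k
    induction k with
    | zero => simp
    | succ k ih =>
      rw [pow_succ, ← mul_assoc]
      exact h1.le.trans (hr' _ _ _ ih)
  have h3 : ∀ k : ℕ, x * (g * f) ^ k < x * g := by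
    intro k
    induction k with
    | zero => simpa using hxg
    | succ k ih =>
      rw [pow_succ, ← mul_assoc]
      have h4 := hr _ _ (g * f) ih
      have e : x * g * (g * f) = x * (g * g * f) := by group
      rw [e] at h4
      exact h4.trans_le hxb
  rintro ⟨h4, _, _⟩
  have e1 : x * (g * f) ^ (k + 1) = x * (g * f) ^ k * g * f := by
    rw [pow_succ]; group
  have h5 : x * (g * f) ^ k * g * f < x * (g * f) ^ k * g := by
    rw [← e1]
    exact (h3 (k + 1)).trans_le (hr' _ _ g (h2 k))
  have h6 := hr _ _ f h5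
  rw [← e1] at h6
  exact lt_asymm h4 h6

theorem exists_good (hr : ∀ a b c : L, a < b → a * c < b * c) (hF : Fol L)
    (Φ : Finset (L × L)) : ∃ x : L, ∀ p ∈ Φ, x ∉ Bad p.1 p.2 := by
  classical
  let M : ℕ := 2 * Φ.card + 1
  let S : Finset L := (Φ ×ˢ Finset.range M).image fun q => (q.1.2 * q.1.1) ^ q.2
  obtain ⟨F, hFne, hFS⟩ := hF S M
  have key : ∀ p ∈ Φ, M * (F.filter fun x => x ∈ Bad p.1 p.2).card ≤ 2 * F.card := by
    intro p hp
    set B := F.filter fun x => x ∈ Bad p.1 p.2 with hB
    set h := p.2 * p.1 with hh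
    have hdisj : ∀ i ∈ Finset.range M, ∀ j ∈ Finset.range M, i ≠ j →
        Disjoint (B.image fun x => x * h ^ i) (B.image fun x => x * h ^ j) := by
      have aux : ∀ i j : ℕ, i < j → Disjoint (B.image fun x => x * h ^ i)
          (B.image fun x => x * h ^ j) := by
        intro i j hij
        rw [Finset.disjoint_left]
        intro z hz1 hz2
        obtain ⟨x, hx, rfl⟩ := Finset.mem_image.1 hz1
        obtain ⟨y, hy, hyx⟩ := Finset.mem_image.1 hz2
        obtain ⟨k, rfl⟩ := Nat.exists_eq_add_of_lt hij
        have h1 : y * h ^ (k + 1) = x := by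
          have e : h ^ (i + k + 1) = h ^ (k + 1) * h ^ i := by
            rw [← pow_add]; congr 1; omega
          rw [e, ← mul_assoc] at hyx
          exact mul_right_cancel hyx
        have h2 := bad_disjoint hr (Finset.mem_filter.1 hy).2 k
        rw [← hh, h1] at h2
        exact h2 (Finset.mem_filter.1 hx).2
      intro i _ j _ hij
      rcases lt_or_gt_of_ne hij with h1 | h1
      · exact aux i j h1
      · exact (aux j i h1).symm
    have hcard : ∀ j, (B.image fun x => x * h ^ j).card = B.card := fun j =>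
      Finset.card_image_of_injective _ (mul_left_injective _)
    have h1 : M * B.card = ((Finset.range M).biUnion fun j => B.image fun x => x * h ^ j).card := by
      rw [Finset.card_biUnion hdisj, Finset.sum_congr rfl fun j _ => hcard j, Finset.sum_const,
        Finset.card_range, smul_eq_mul]
    have h2 : ((Finset.range M).biUnion fun j => B.image fun x => x * h ^ j) ⊆
        F ∪ (Finset.range M).biUnion fun j => (F.image fun x => x * h ^ j) \ F := by
      intro z hz
      obtain ⟨j, hj, hz⟩ := Finset.mem_biUnion.1 hz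
      obtain ⟨x, hx, rfl⟩ := Finset.mem_image.1 hz
      by_cases hzF : x * h ^ j ∈ F
      · exact Finset.mem_union_left _ hzF
      · refine Finset.mem_union_right _ (Finset.mem_biUnion.2 ⟨j, hj, ?_⟩)
        rw [Finset.mem_sdiff]
        exact ⟨Finset.mem_image.2 ⟨x, (Finset.mem_filter.1 hx).1, rfl⟩, hzF⟩
    have h3 : ∑ j ∈ Finset.range M, ((F.image fun x => x * h ^ j) \ F).card ≤ F.card := by
      have h4 : M * ∑ j ∈ Finset.range M, ((F.image fun x => x * h ^ j) \ F).card ≤ M * F.card := by
        rw [Finset.mul_sum]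
        calc ∑ j ∈ Finset.range M, M * ((F.image fun x => x * h ^ j) \ F).card
            ≤ ∑ j ∈ Finset.range M, F.card := by
              refine Finset.sum_le_sum fun j hj => ?_
              have h5 := hFS (h ^ j)
                (Finset.mem_image.2 ⟨(p, j), Finset.mem_product.2 ⟨hp, hj⟩, rfl⟩)
              refine le_of_eq_of_le (congrArg (fun t => M * t) (congrArg Finset.card ?_)) h5
              ext z
              simp only [Finset.mem_sdiff, Finset.mem_image]
          _ = M * F.card := by rw [Finset.sum_const, Finset.card_range, smul_eq_mul]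
      exact Nat.le_of_mul_le_mul_left h4 (by omega)
    calc M * B.card ≤ (F ∪ (Finset.range M).biUnion fun j => (F.image fun x => x * h ^ j) \ F).card := by
          rw [h1]; exact Finset.card_le_card h2
      _ ≤ F.card + ((Finset.range M).biUnion fun j => (F.image fun x => x * h ^ j) \ F).card :=
          Finset.card_union_le _ _
      _ ≤ F.card + ∑ j ∈ Finset.range M, ((F.image fun x => x * h ^ j) \ F).card :=
          Nat.add_le_add_left Finset.card_biUnion_le _
      _ ≤ 2 * F.card := by omega
  by_contra hcon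
  push Not at hcon
  have h1 : F ⊆ Φ.biUnion fun p => F.filter fun x => x ∈ Bad p.1 p.2 := by
    intro x hx
    obtain ⟨p, hp, hxp⟩ := hcon x
    exact Finset.mem_biUnion.2 ⟨p, hp, Finset.mem_filter.2 ⟨hx, hxp⟩⟩
  have h2 : M * F.card ≤ Φ.card * (2 * F.card) := by
    calc M * F.card ≤ M * ∑ p ∈ Φ, (F.filter fun x => x ∈ Bad p.1 p.2).card :=
          Nat.mul_le_mul_left _ ((Finset.card_le_card h1).trans Finset.card_biUnion_le)
      _ = ∑ p ∈ Φ, M * (F.filter fun x => x ∈ Bad p.1 p.2).card := Finset.mul_sum _ _ _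
      _ ≤ ∑ p ∈ Φ, 2 * F.card := Finset.sum_le_sum key
      _ = Φ.card * (2 * F.card) := by rw [Finset.sum_const, smul_eq_mul]
  have h3 : 0 < F.card := Finset.card_pos.2 hFne
  have h4 : M * F.card = Φ.card * (2 * F.card) + F.card := by
    show (2 * Φ.card + 1) * F.card = _
    ring
  omega

/-- Witte Morris: a right-ordered group with the Folner condition has a Conradian cone. -/
theorem exists_conrad_cone (hr : ∀ a b c : L, a < b → a * c < b * c) (hF : Fol L) :
    ∃ P : Set L, (1 : L) ∉ P ∧ (∀ a ∈ P, ∀ b ∈ P, a * b ∈ P) ∧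
      (∀ g : L, g ≠ 1 → g ∈ P ∨ g⁻¹ ∈ P) ∧
      (∀ f ∈ P, ∀ g ∈ P, g * g * f * g⁻¹ ∈ P) := by
  classical
  choose x hx using fun Φ : Finset (L × L) => exists_good hr hF Φ
  let U : Ultrafilter (Finset (L × L)) := Ultrafilter.of Filter.atTop
  have hU : ∀ p : L × L, ∀ᶠ Φ in (U : Filter (Finset (L × L))), p ∈ Φ := by
    intro p
    refine Ultrafilter.of_le _ ?_
    filter_upwards [Filter.eventually_ge_atTop {p}] with Φ hΦ
    exact hΦ (Finset.mem_singleton_self p)
  have hpos : ∀ a b : L, a < b ↔ 1 < b * a⁻¹ := by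
    intro a b
    constructor
    · intro h
      have := hr _ _ a⁻¹ h
      rwa [mul_inv_cancel] at this
    · intro h
      have := hr _ _ a h
      rwa [one_mul, inv_mul_cancel_right] at this
  refine ⟨{a | ∀ᶠ Φ in (U : Filter (Finset (L × L))), x Φ < x Φ * a}, ?_, ?_, ?_, ?_⟩
  · intro h
    have h1 : ∀ᶠ Φ in (U : Filter (Finset (L × L))), False := by
      have h' : ∀ᶠ Φ in (U : Filter (Finset (L × L))), x Φ < x Φ * 1 := h
      filter_upwards [h'] with Φ hΦ
      rw [mul_one] at hΦ
      exact lt_irrefl _ hΦ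
    exact U.neBot.ne (Filter.eventually_false_iff_eq_bot.1 h1)
  · intro a ha b hb
    have ha' : ∀ᶠ Φ in (U : Filter (Finset (L × L))), x Φ < x Φ * a := ha
    have hb' : ∀ᶠ Φ in (U : Filter (Finset (L × L))), x Φ < x Φ * b := hb
    show ∀ᶠ Φ in (U : Filter (Finset (L × L))), x Φ < x Φ * (a * b)
    filter_upwards [ha', hb'] with Φ h1 h2
    have h3 := hr _ _ b h1
    rw [← mul_assoc]
    exact h2.trans h3
  · intro g hg
    show (∀ᶠ Φ in (U : Filter (Finset (L × L))), x Φ < x Φ * g) ∨
      (∀ᶠ Φ in (U : Filter (Finset (L × L))), x Φ < x Φ * g⁻¹)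
    rw [← Ultrafilter.eventually_or]
    refine Filter.Eventually.of_forall fun Φ => ?_
    rcases lt_trichotomy (x Φ) (x Φ * g) with h | h | h
    · exact Or.inl h
    · exact (hg (left_eq_mul.1 h)).elim
    · right
      have := hr _ _ g⁻¹ h
      rwa [mul_inv_cancel_right] at this
  · intro f hf g hg
    have hf' : ∀ᶠ Φ in (U : Filter (Finset (L × L))), x Φ < x Φ * f := hf
    have hg' : ∀ᶠ Φ in (U : Filter (Finset (L × L))), x Φ < x Φ * g := hg
    show ∀ᶠ Φ in (U : Filter (Finset (L × L))), x Φ < x Φ * (g * g * f * g⁻¹)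
    filter_upwards [hf', hg', hU (f, g)] with Φ h1 h2 h3
    have h4 := hx Φ (f, g) h3
    by_contra hcon
    push Not at hcon
    apply h4
    refine ⟨h1, h2, ?_⟩
    rcases lt_or_eq_of_le hcon with h5 | h5
    · have := hr _ _ g h5
      have e : x Φ * (g * g * f * g⁻¹) * g = x Φ * (g * g * f) := by group
      rw [e] at this
      exact this.le
    · have e : x Φ * (g * g * f) = x Φ * (g * g * f * g⁻¹) * g := by group
      show x Φ * (g * g * f) ≤ x Φ * g
      rw [e, h5]

end

end Pool.Agent.Helper317
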