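import Mathlib
import Pool.Agent.Helper317.WM
import Pool.Agent.Helper94.EngelOrderG

set_option autoImplicit false
set_option linter.style.haveILetI false

/-!
# A nontrivial finitely generated group with a Conradian order maps onto the integers
-/

namespace Pool.Agent.Helper317

section

variable {L : Type*} [Group L] [LinearOrder L]

/-- the elements at least `1` all of whose powers are below `g` -/
def Sp (g : L) : Set L := {x | 1 ≤ x ∧ ∀ n : ℕ, x ^ n < g}

variable (hr : ∀ a b c : L, a < b → a * c < b * c)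
  (hc : ∀ f g : L, 1 < f → 1 < g → g < g * g * f)

include hr in
theorem hr_le (a b c : L) (h : a ≤ b) : a * c ≤ b * c := by
  rcases lt_or_eq_of_le h with h | h
  · exact (hr _ _ _ h).le
  · rw [h]

include hr in
theorem one_lt_pow_r {g : L} (hg : 1 < g) : ∀ m : ℕ, 1 ≤ m → 1 < g ^ m := by
  intro m hm
  induction m, hm using Nat.le_induction with
  | base => simpa using hg
  | succ m _ ih =>
    rw [pow_succ']
    have := hr _ _ (g ^ m) hg
    rw [one_mul] at this
    exact ih.trans this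

include hr in
theorem pow_lt_pow_r {g : L} (hg : 1 < g) {m n : ℕ} (h : m < n) : g ^ m < g ^ n := by
  obtain ⟨k, rfl⟩ := Nat.exists_eq_add_of_lt h
  have h1 := one_lt_pow_r hr hg (k + 1) (by omega)
  have := hr _ _ (g ^ m) h1
  rw [one_mul, ← pow_add] at this
  have e : k + 1 + m = m + k + 1 := by ring
  rwa [e] at this

include hr in
theorem inv_lt_one_r {g : L} (hg : 1 < g) : g⁻¹ < 1 := by
  have := hr _ _ g⁻¹ hg
  rwa [one_mul, mul_inv_cancel] at this

include hr in
theorem one_lt_inv_r {g : L} (hg : g < 1) : 1 < g⁻¹ := by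
  have := hr _ _ g⁻¹ hg
  rwa [one_mul, mul_inv_cancel] at this

include hr hc in
theorem pow_mul_lt {g t : L} (hg : 1 < g) (ht : t < g) (m : ℕ) (hm : 1 ≤ m) :
    g ^ m * t < g ^ (2 * m + 1) := by
  have h1 : 1 < g * t⁻¹ := by
    have := hr _ _ t⁻¹ ht
    rwa [mul_inv_cancel] at this
  have h2 := hc (g * t⁻¹) (g ^ m) h1 (one_lt_pow_r hr hg m hm)
  have h3 := hr _ _ t h2
  have e : g ^ m * g ^ m * (g * t⁻¹) * t = g ^ (2 * m + 1) := by
    rw [← pow_add, ← mul_assoc, inv_mul_cancel_right, ← pow_succ]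
    congr 1
    ring
  rwa [e] at h3

include hr hc in
theorem cofinal_of_dom {T : Finset L} (hT : Subgroup.closure (T : Set L) = ⊤) {g : L} (hg : 1 < g)
    (hgT : ∀ t ∈ T, t < g ∧ t⁻¹ < g) (x : L) : ∃ k : ℕ, 1 ≤ k ∧ x < g ^ k := by
  have key : ∀ x ∈ Subgroup.closure (T : Set L), ∀ m : ℕ, 1 ≤ m →
      ∃ k : ℕ, 1 ≤ k ∧ g ^ m * x < g ^ k := by
    intro x hx
    induction hx using Subgroup.closure_induction'' with
    | mem t ht => intro m hm; exact ⟨2 * m + 1, by omega, pow_mul_lt hr hc hg (hgT t ht).1 m hm⟩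
    | inv_mem t ht => intro m hm; exact ⟨2 * m + 1, by omega, pow_mul_lt hr hc hg (hgT t ht).2 m hm⟩
    | one =>
      intro m hm
      refine ⟨m + 1, by omega, ?_⟩
      rw [mul_one]
      exact pow_lt_pow_r hr hg (by omega)
    | mul a b _ _ ha hb =>
      intro m hm
      obtain ⟨k, hk, hak⟩ := ha m hm
      obtain ⟨j, hj, hbj⟩ := hb k hk
      refine ⟨j, hj, ?_⟩
      rw [← mul_assoc]
      exact (hr _ _ b hak).trans hbj
  obtain ⟨k, hk, h⟩ := key x (by rw [hT]; trivial) 1 le_rfl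
  refine ⟨k, hk, ?_⟩
  rw [pow_one] at h
  have h1 := hr _ _ x hg
  rw [one_mul] at h1
  exact h1.trans h

include hr hc in
theorem sp_down {g z s : L} (h1 : 1 ≤ z) (hzs : z ≤ s) (hs : s ∈ Sp g) : z ∈ Sp g := by
  rcases lt_or_eq_of_le hzs with h | h
  · have hs1 : 1 < s := lt_of_le_of_lt h1 h
    refine ⟨h1, ?_⟩
    have key : ∀ n : ℕ, ∃ k : ℕ, 1 ≤ k ∧ z ^ n ≤ s ^ k := by
      intro n
      induction n with
      | zero => exact ⟨1, le_rfl, by simpa using hs1.le⟩
      | succ n ih =>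
        obtain ⟨k, hk, hn⟩ := ih
        refine ⟨2 * k + 1, by omega, ?_⟩
        rw [pow_succ]
        exact (hr_le hr _ _ z hn).trans (pow_mul_lt hr hc hs1 h k hk).le
    intro n
    obtain ⟨k, _, hk⟩ := key n
    exact lt_of_le_of_lt hk (hs.2 k)
  · rw [h]; exact hs

include hr hc in
theorem sp_mul {g x y : L} (hx : x ∈ Sp g) (hy : y ∈ Sp g) : x * y ∈ Sp g := by
  have hpow : ∀ w ∈ Sp g, ∀ k : ℕ, 1 ≤ w ^ k → w ^ k ∈ Sp g := fun w hw k hk =>
    ⟨hk, fun n => by rw [← pow_mul]; exact hw.2 _⟩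
  have hone : ∀ w : L, 1 ≤ w → ∀ k : ℕ, 1 ≤ w ^ k := by
    intro w hw k
    rcases lt_or_eq_of_le hw with h | h
    · rcases Nat.eq_zero_or_pos k with h2 | h2
      · rw [h2, pow_zero]
      · exact (one_lt_pow_r hr h k h2).le
    · rw [← h, one_pow]
  have h1 : 1 ≤ x * y := by
    have := hr_le hr _ _ y hx.1
    rw [one_mul] at this
    exact hy.1.trans this
  rcases le_or_gt x y with h | h
  · have h2 : x * y ≤ y ^ 2 := by rw [pow_two]; exact hr_le hr _ _ y h
    exact sp_down hr hc h1 h2 (hpow y hy 2 (hone y hy.1 2))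
  · have hx1 : 1 < x := lt_of_le_of_lt hy.1 h
    have h2 := pow_mul_lt hr hc hx1 h 1 le_rfl
    rw [pow_one] at h2
    exact sp_down hr hc h1 h2.le (hpow x hx _ (hone x hx.1 _))

include hr hc in
theorem sp_div {g x y : L} (hx : x ∈ Sp g) (hy : y ∈ Sp g) (h1 : 1 ≤ x * y⁻¹) :
    x * y⁻¹ ∈ Sp g := by
  rcases lt_or_eq_of_le hy.1 with h | h
  · have h2 : y ≤ x := by
      have := hr_le hr _ _ y h1
      rwa [one_mul, inv_mul_cancel_right] at this
    have hx1 : 1 < x := lt_of_lt_of_le h h2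
    have h3 : x * y⁻¹ ≤ x ^ 2 := by
      by_contra hcon
      push Not at hcon
      have h4 := hr _ _ y hcon
      rw [inv_mul_cancel_right, pow_two] at h4
      exact lt_asymm h4 (hc y x h hx1)
    refine sp_down hr hc h1 h3 ⟨(one_lt_pow_r hr hx1 2 (by norm_num)).le, fun n => ?_⟩
    rw [← pow_mul]; exact hx.2 _
  · rw [← h, inv_one, mul_one]; exact hx

include hr hc in
theorem sp_div' {g x y : L} (hx : x ∈ Sp g) (hy : y ∈ Sp g) (h1 : 1 ≤ x⁻¹ * y) :
    x⁻¹ * y ∈ Sp g := by
  have h2 : x⁻¹ * y ≤ y := by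
    have := hr_le hr _ _ (x⁻¹ * y) hx.1
    rwa [one_mul, mul_inv_cancel_left] at this
  exact sp_down hr hc h1 h2 hy

include hr in
theorem le_one_of_inv {x : L} (h : 1 ≤ x⁻¹) : x ≤ 1 := by
  have := hr_le hr _ _ x h
  rwa [one_mul, inv_mul_cancel] at this

include hr in
theorem inv_le_one_of {x : L} (h : 1 ≤ x) : x⁻¹ ≤ 1 := by
  have := hr_le hr _ _ x⁻¹ h
  rwa [one_mul, mul_inv_cancel] at this

/-- the small elements -/
def SS (g : L) (hg : 1 < g) : Subgroup L where
  carrier := {x | x ∈ Sp g ∨ x⁻¹ ∈ Sp g}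
  one_mem' := Or.inl ⟨le_rfl, fun n => by rw [one_pow]; exact hg⟩
  inv_mem' := by
    rintro x (h | h)
    · right; rw [inv_inv]; exact h
    · exact Or.inl h
  mul_mem' := by
    have hinv1 : ∀ z : L, 1 ≤ z ∨ 1 ≤ z⁻¹ := by
      intro z
      rcases le_or_gt 1 z with h | h
      · exact Or.inl h
      · exact Or.inr (one_lt_inv_r hr h).le
    rintro a b (ha | ha) (hb | hb)
    · exact Or.inl (sp_mul hr hc ha hb)
    · rcases hinv1 (a * b) with h | h
      · left
        have h2 := sp_div hr hc ha hb (by rwa [inv_inv])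
        rwa [inv_inv] at h2
      · right
        rw [mul_inv_rev] at h ⊢
        exact sp_div hr hc hb ha h
    · rcases hinv1 (a * b) with h | h
      · left
        have h2 := sp_div' hr hc ha hb (by rwa [inv_inv])
        rwa [inv_inv] at h2
      · right
        rw [mul_inv_rev] at h ⊢
        exact sp_div' hr hc hb ha h
    · right
      rw [mul_inv_rev]
      exact sp_mul hr hc hb ha

theorem mem_SS {g : L} {hg : 1 < g} {x : L} : x ∈ SS hr hc g hg ↔ x ∈ Sp g ∨ x⁻¹ ∈ Sp g := Iff.rfl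

include hr hc in
theorem ss_conv {g : L} {hg : 1 < g} {x z : L} (hx : 1 < x) (hxz : x ≤ z)
    (hz : z ∈ SS hr hc g hg) : x ∈ SS hr hc g hg := by
  rcases hz with h | h
  · exact Or.inl (sp_down hr hc hx.le hxz h)
  · have := le_one_of_inv hr h.1
    exact absurd (hx.trans_le hxz) (not_lt.2 this)

end

section main

variable {L : Type*} [Group L] [LinearOrder L]

theorem surj_of_conrad (hr : ∀ a b c : L, a < b → a * c < b * c)
    (hc : ∀ f g : L, 1 < f → 1 < g → g < g * g * f) [Nontrivial L] (hfg : Group.FG L) :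
    ∃ φ : L →* Multiplicative ℤ, Function.Surjective φ := by
  classical
  obtain ⟨T, hT⟩ := Group.fg_def.1 hfg
  obtain ⟨g, hg, hgT⟩ : ∃ g : L, 1 < g ∧ ∀ t ∈ T, t < g ∧ t⁻¹ < g := by
    obtain ⟨x, hx⟩ := exists_ne (1 : L)
    obtain ⟨x, hx⟩ : ∃ x : L, 1 < x := by
      rcases lt_or_gt_of_ne hx with h | h
      · exact ⟨_, one_lt_inv_r hr h⟩
      · exact ⟨_, h⟩
    let U : Finset L := insert x (T ∪ T.image (fun t => t⁻¹))
    have hU : U.Nonempty := ⟨x, Finset.mem_insert_self _ _⟩
    have hm : 1 < U.max' hU := hx.trans_le (Finset.le_max' _ _ (Finset.mem_insert_self _ _))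
    have hlt : U.max' hU < U.max' hU * U.max' hU := by
      have := hr _ _ (U.max' hU) hm
      rwa [one_mul] at this
    refine ⟨U.max' hU * U.max' hU, hm.trans hlt, fun t ht => ⟨?_, ?_⟩⟩
    · refine (Finset.le_max' _ _ ?_).trans_lt hlt
      exact Finset.mem_insert_of_mem (Finset.mem_union_left _ ht)
    · refine (Finset.le_max' _ _ ?_).trans_lt hlt
      exact Finset.mem_insert_of_mem (Finset.mem_union_right _ (Finset.mem_image_of_mem _ ht))
  set S := SS hr hc g hg with hSdef
  have hgS : g ∉ S := by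
    rintro (h | h)
    · have := h.2 1
      rw [pow_one] at this
      exact lt_irrefl _ this
    · exact absurd (le_one_of_inv hr h.1) (not_le.2 hg)
  -- elements above one outside `S` are cofinal
  have hcof : ∀ x : L, x ∉ S → 1 < x → ∀ z : L, ∃ m : ℕ, z < x ^ m := by
    intro x hxS hx z
    have h1 : ∃ n : ℕ, g ≤ x ^ n := by
      by_contra hcon
      push Not at hcon
      exact hxS (Or.inl ⟨hx.le, hcon⟩)
    obtain ⟨n, hn⟩ := h1
    obtain ⟨k, _, hk⟩ := cofinal_of_dom hr hc hT (g := x ^ n) (hg.trans_le hn)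
      (fun t ht => ⟨(hgT t ht).1.trans_le hn, (hgT t ht).2.trans_le hn⟩) z
    exact ⟨n * k, by rw [pow_mul]; exact hk⟩
  have hSpow : ∀ s ∈ S, ∀ m : ℕ, s ^ m < g := by
    rintro s (h | h) m
    · exact h.2 m
    · have h1 := le_one_of_inv hr h.1
      have h2 : ∀ m : ℕ, s ^ m ≤ 1 := by
        intro m
        induction m with
        | zero => simp
        | succ m ih =>
          rw [pow_succ]
          have := hr_le hr _ _ s ih
          rw [one_mul] at this
          exact this.trans h1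
      exact (h2 m).trans_lt hg
  have hSn : S.Normal := by
    refine ⟨fun s hs c => ?_⟩
    have key : ∀ s ∈ S, 1 < c * s * c⁻¹ → c * s * c⁻¹ ∈ S := by
      intro s hs h1
      by_contra hcon
      obtain ⟨k, hk, hck⟩ := cofinal_of_dom hr hc hT hg hgT c
      obtain ⟨m, hm⟩ := hcof _ hcon h1 (g ^ (2 * k + 1) * c⁻¹)
      have e : (c * s * c⁻¹) ^ m = c * s ^ m * c⁻¹ := conj_pow
      rw [e] at hm
      have h2 := hr _ _ c hm
      rw [inv_mul_cancel_right, inv_mul_cancel_right] at h2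
      have h3 := hr _ _ (s ^ m) hck
      have h4 := pow_mul_lt hr hc hg (hSpow s hs m) k hk
      exact lt_irrefl _ (h2.trans (h3.trans h4))
    rcases lt_trichotomy (c * s * c⁻¹) 1 with h | h | h
    · have h1 : 1 < c * s⁻¹ * c⁻¹ := by
        have := one_lt_inv_r hr h
        have e : (c * s * c⁻¹)⁻¹ = c * s⁻¹ * c⁻¹ := by group
        rwa [e] at this
      have h2 := key s⁻¹ (S.inv_mem hs) h1
      have h3 := S.inv_mem h2
      have e : (c * s⁻¹ * c⁻¹)⁻¹ = c * s * c⁻¹ := by group
      rwa [e] at h3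
    · rw [h]; exact S.one_mem
    · exact key s hs h
  have hPs : ∀ x s : L, x ∉ S → 1 < x → s ∈ S → 1 < x * s := by
    intro x s hx hx1 hs
    by_contra hcon
    push Not at hcon
    apply hx
    have h1 : x ≤ s⁻¹ := by
      have := hr_le hr _ _ s⁻¹ hcon
      rwa [mul_inv_cancel_right, one_mul] at this
    exact ss_conv hr hc hx1 h1 (S.inv_mem hs)
  -- the cone of the quotient
  let P : Set (L ⧸ S) := {q | ∃ h : L, h ∉ S ∧ 1 < h ∧ (h : L ⧸ S) = q}
  have hP : ∀ h : L, (h : L ⧸ S) ∈ P ↔ h ∉ S ∧ 1 < h := by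
    intro h
    constructor
    · rintro ⟨h', h1, h2, h3⟩
      have h4 : h'⁻¹ * h ∈ S := QuotientGroup.eq.1 h3
      refine ⟨fun hh => h1 ?_, ?_⟩
      · have := S.mul_mem hh (S.inv_mem h4)
        have e : h * (h'⁻¹ * h)⁻¹ = h' := by group
        rwa [e] at this
      · have := hPs h' (h'⁻¹ * h) h1 h2 h4
        rwa [mul_inv_cancel_left] at this
    · rintro ⟨h1, h2⟩
      exact ⟨h, h1, h2, rfl⟩
  have hPone : (1 : L ⧸ S) ∉ P := by
    have := (hP 1).not.2 (fun h => h.1 (one_mem _))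
    simpa using this
  have hPmul : ∀ a b : L ⧸ S, a ∈ P → b ∈ P → a * b ∈ P := by
    rintro _ _ ⟨x, hx1, hx2, rfl⟩ ⟨y, hy1, hy2, rfl⟩
    rw [← QuotientGroup.mk_mul, hP]
    have h1 : y < x * y := by
      have := hr _ _ y hx2
      rwa [one_mul] at this
    exact ⟨fun h => hy1 (ss_conv hr hc hy2 h1.le h), hy2.trans h1⟩
  have hPtot : ∀ a : L ⧸ S, a ∈ P ∨ a = 1 ∨ a⁻¹ ∈ P := by
    intro a
    obtain ⟨a, rfl⟩ := QuotientGroup.mk_surjective a
    by_cases h1 : a ∈ S
    · right; left; exact (QuotientGroup.eq_one_iff a).2 h1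
    · rcases lt_trichotomy a 1 with h2 | h2 | h2
      · right; right
        rw [← QuotientGroup.mk_inv, hP]
        exact ⟨fun h => h1 (by simpa using inv_mem h), one_lt_inv_r hr h2⟩
      · exact (h1 (h2 ▸ one_mem _)).elim
      · left; exact (hP a).2 ⟨h1, h2⟩
  have hPinv : ∀ a : L ⧸ S, a ∈ P → a⁻¹ ∉ P := fun a h1 h2 => hPone (by
    have := hPmul _ _ h1 h2
    rwa [mul_inv_cancel] at this)
  have hPconj : ∀ a c : L ⧸ S, a ∈ P → c * a * c⁻¹ ∈ P := by
    rintro _ c ⟨x, hx1, hx2, rfl⟩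
    obtain ⟨c, rfl⟩ := QuotientGroup.mk_surjective c
    rw [← QuotientGroup.mk_inv, ← QuotientGroup.mk_mul, ← QuotientGroup.mk_mul, hP]
    have h1 : c * x * c⁻¹ ∉ S := by
      intro h
      have := hSn.conj_mem _ h c⁻¹
      have e : c⁻¹ * (c * x * c⁻¹) * c⁻¹⁻¹ = x := by group
      rw [e] at this
      exact hx1 this
    refine ⟨h1, ?_⟩
    by_contra hcon
    have h2 : c * x * c⁻¹ < 1 := by
      refine lt_of_le_of_ne (not_lt.1 hcon) ?_
      intro h; rw [h] at h1; exact h1 S.one_mem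
    set b := (c * x * c⁻¹)⁻¹ with hb
    have hb1 : 1 < b := one_lt_inv_r hr h2
    have hbS : b ∉ S := fun h => h1 (by simpa [hb] using S.inv_mem h)
    have hbm : ∀ z : L, ∃ m : ℕ, z * c * x ^ m < c := by
      intro z
      obtain ⟨m, hm⟩ := hcof b hbS hb1 z
      refine ⟨m, ?_⟩
      have e : b ^ m = c * (x ^ m)⁻¹ * c⁻¹ := by
        rw [hb, inv_pow, conj_pow]; group
      rw [e] at hm
      have h3 := hr _ _ (c * x ^ m) hm
      have e2 : c * (x ^ m)⁻¹ * c⁻¹ * (c * x ^ m) = c := by group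
      rw [e2, ← mul_assoc] at h3
      exact h3
    rcases lt_or_ge 1 c with h3 | h3
    · obtain ⟨m, hm⟩ := hbm c
      rcases Nat.eq_zero_or_pos m with h4 | h4
      · rw [h4, pow_zero, mul_one] at hm
        have := hr _ _ c h3
        rw [one_mul] at this
        exact lt_asymm hm this
      · exact lt_asymm hm (hc (x ^ m) c (one_lt_pow_r hr hx2 m h4) h3)
    · obtain ⟨m, hm⟩ := hbm c⁻¹
      rw [inv_mul_cancel, one_mul] at hm
      have h4 : 1 ≤ x ^ m := by
        rcases Nat.eq_zero_or_pos m with h4 | h4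
        · rw [h4, pow_zero]
        · exact (one_lt_pow_r hr hx2 m h4).le
      exact absurd (hm.trans_le h3) (not_lt.2 h4)
  let _ : LinearOrder (L ⧸ S) :=
    { le := fun a b => a = b ∨ b * a⁻¹ ∈ P
      lt := fun a b => b * a⁻¹ ∈ P
      le_refl := fun a => Or.inl rfl
      le_trans := by
        rintro a b c (rfl | h1) (rfl | h2)
        · exact Or.inl rfl
        · exact Or.inr h2
        · exact Or.inr h1
        · refine Or.inr ?_
          have := hPmul _ _ h2 h1
          have e : c * b⁻¹ * (b * a⁻¹) = c * a⁻¹ := by group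
          rwa [e] at this
      le_antisymm := by
        rintro a b (rfl | h1) (h | h2)
        · rfl
        · rfl
        · exact h.symm
        · exfalso
          apply hPinv _ h1
          rwa [mul_inv_rev, inv_inv]
      lt_iff_le_not_ge := by
        intro a b
        constructor
        · intro h
          refine ⟨Or.inr h, ?_⟩
          rintro (rfl | h2)
          · rw [mul_inv_cancel] at h
            exact hPone h
          · apply hPinv _ h
            rwa [mul_inv_rev, inv_inv]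
        · rintro ⟨rfl | h1, h2⟩
          · exact (h2 (Or.inl rfl)).elim
          · exact h1
      le_total := by
        intro a b
        rcases hPtot (b * a⁻¹) with h | h | h
        · exact Or.inl (Or.inr h)
        · left; left
          rw [mul_inv_eq_one] at h
          exact h.symm
        · right; right
          rwa [mul_inv_rev, inv_inv] at h
      toDecidableLE := Classical.decRel _
      toDecidableEq := Classical.decEq _
      toDecidableLT := Classical.decRel _ }
  have hltdef : ∀ a b : L ⧸ S, a < b ↔ b * a⁻¹ ∈ P := fun a b => Iff.rfl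
  have hcomm := Pool.Agent.Helper94.holder_comm (Q := L ⧸ S)
    (by
      intro a b c h
      rw [hltdef] at h ⊢
      have : (c * b) * (c * a)⁻¹ = c * (b * a⁻¹) * c⁻¹ := by group
      rw [this]
      exact hPconj _ _ h)
    (by
      intro a b c h
      rw [hltdef] at h ⊢
      have : (b * c) * (a * c)⁻¹ = b * a⁻¹ := by group
      rwa [this])
    (by
      intro x y hx
      obtain ⟨x, rfl⟩ := QuotientGroup.mk_surjective x
      obtain ⟨y, rfl⟩ := QuotientGroup.mk_surjective y
      rw [hltdef, inv_one, mul_one, hP] at hx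
      obtain ⟨m, hm⟩ := hcof x hx.1 hx.2 (x * y)
      refine ⟨m, ?_⟩
      rw [hltdef, ← QuotientGroup.mk_pow, ← QuotientGroup.mk_inv, ← QuotientGroup.mk_mul, hP]
      have h1 := hr _ _ y⁻¹ hm
      rw [mul_inv_cancel_right] at h1
      exact ⟨fun h => hx.1 (ss_conv hr hc hx.2 h1.le h), hx.2.trans h1⟩)
  let _ : CommGroup (L ⧸ S) := { (inferInstance : Group (L ⧸ S)) with mul_comm := hcomm }
  have hnt : Nontrivial (L ⧸ S) := by
    refine ⟨⟨(g : L ⧸ S), 1, ?_⟩⟩
    intro h
    exact hgS ((QuotientGroup.eq_one_iff g).1 h)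
  haveI := hfg
  have hfgQ : Group.FG (L ⧸ S) := QuotientGroup.fg S
  have hpow : ∀ (a : L ⧸ S) (k : ℕ), a ∈ P → a ^ (k + 1) ∈ P := by
    intro a k ha
    induction k with
    | zero => simpa using ha
    | succ k ih => rw [pow_succ]; exact hPmul _ _ ih ha
  obtain ⟨φ, hφ⟩ := Pool.Agent.Helper94.exists_surj_of_comm (Q := L ⧸ S) (by
    intro x k hk hx
    obtain ⟨k, rfl⟩ := Nat.exists_eq_succ_of_ne_zero hk
    rcases hPtot x with h | h | h
    · exact (hPone (hx ▸ hpow _ k h)).elim
    · exact h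
    · have h1 := hpow _ k h
      rw [inv_pow] at h1
      rw [Nat.succ_eq_add_one] at hx
      rw [hx, inv_one] at h1
      exact (hPone h1).elim)
  exact ⟨φ.comp (QuotientGroup.mk' S), hφ.comp (QuotientGroup.mk'_surjective S)⟩

end main

end Pool.Agent.Helper317
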