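import Mathlib
import Pool.Agent.Helper317.WM
import Pool.Agent.Helper317.Conrad
import Pool.Agent.Helper317.Sections

set_option autoImplicit false
set_option linter.style.haveILetI false

/-!
# Left-orderable groups with Noetherian group ring map onto the integers
-/

namespace Pool.Agent.Helper317

/-- `M` is left-orderable: it has a total order invariant under left multiplication. -/
def LeftOrderable (M : Type*) [Group M] : Prop :=
  ∃ _ : LinearOrder M, ∀ a b c : M, a < b → c * a < c * b

/-- order from a cone -/
@[reducible] noncomputable def coneOrder {G : Type*} [Group G] (P : Set G)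
    (h1 : (1 : G) ∉ P) (hmul : ∀ a ∈ P, ∀ b ∈ P, a * b ∈ P)
    (htri : ∀ g : G, g ≠ 1 → g ∈ P ∨ g⁻¹ ∈ P) : LinearOrder G :=
    { le := fun a b => a = b ∨ b * a⁻¹ ∈ P
      lt := fun a b => b * a⁻¹ ∈ P
      le_refl := fun a => Or.inl rfl
      le_trans := by
        rintro a b c (rfl | h2) (rfl | h3)
        · exact Or.inl rfl
        · exact Or.inr h3
        · exact Or.inr h2
        · right
          have := hmul _ h3 _ h2
          have e : c * b⁻¹ * (b * a⁻¹) = c * a⁻¹ := by group
          rwa [e] at this
      le_antisymm := by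
        rintro a b (rfl | h2) (h3 | h3)
        · rfl
        · rfl
        · exact h3.symm
        · exfalso
          have := hmul _ h3 _ h2
          have e : a * b⁻¹ * (b * a⁻¹) = 1 := by group
          rw [e] at this
          exact h1 this
      le_total := by
        intro a b
        by_cases hab : b * a⁻¹ = 1
        · exact Or.inl (Or.inl (mul_inv_eq_one.1 hab).symm)
        · rcases htri _ hab with h | h
          · exact Or.inl (Or.inr h)
          · right; right
            have e : (b * a⁻¹)⁻¹ = a * b⁻¹ := by group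
            rwa [e] at h
      lt_iff_le_not_ge := by
        intro a b
        constructor
        · intro h
          refine ⟨Or.inr h, ?_⟩
          rintro (h2 | h2)
          · rw [h2, mul_inv_cancel] at h; exact h1 h
          · have := hmul _ h _ h2
            have e : b * a⁻¹ * (a * b⁻¹) = 1 := by group
            rw [e] at this
            exact h1 this
        · rintro ⟨h | h, h2⟩
          · exact absurd (Or.inl h.symm) h2
          · exact h
      toDecidableLE := Classical.decRel _ }

theorem LeftOrderable.of_injective {M N : Type*} [Group M] [Group N] (f : N →* M)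
    (hf : Function.Injective f) (h : LeftOrderable M) : LeftOrderable N := by
  obtain ⟨o, ho⟩ := h
  refine ⟨LinearOrder.lift' f hf, ?_⟩
  intro a b c hab
  show f (c * a) < f (c * b)
  rw [map_mul, map_mul]
  exact ho _ _ _ hab

theorem LeftOrderable.right {M : Type*} [Group M] (h : LeftOrderable M) :
    ∃ _ : LinearOrder M, ∀ a b c : M, a < b → a * c < b * c := by
  obtain ⟨o, ho⟩ := h
  refine ⟨LinearOrder.lift' (fun a : M => a⁻¹) inv_injective, ?_⟩
  intro a b c hab
  show (a * c)⁻¹ < (b * c)⁻¹
  rw [mul_inv_rev, mul_inv_rev]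
  exact ho _ _ _ hab

/-- a nontrivial finitely generated left-orderable group satisfying the Folner condition maps onto
the integers -/
theorem surj_of_lo {L : Type*} [Group L] [Nontrivial L] (hLO : LeftOrderable L)
    (hfg : Group.FG L) (hF : Fol L) : ∃ φ : L →* Multiplicative ℤ, Function.Surjective φ := by
  obtain ⟨o, ho⟩ := hLO.right
  obtain ⟨P, h1, hmul, htri, hc⟩ := exists_conrad_cone ho hF
  clear ho o
  let o2 : LinearOrder L := coneOrder P h1 hmul htri
  refine surj_of_conrad ?_ ?_ hfg
  · intro a b c hab
    have hab' : b * a⁻¹ ∈ P := hab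
    show (b * c) * (a * c)⁻¹ ∈ P
    have e : (b * c) * (a * c)⁻¹ = b * a⁻¹ := by group
    rwa [e]
  · intro f g hf hg
    have hf' : f * 1⁻¹ ∈ P := hf
    have hg' : g * 1⁻¹ ∈ P := hg
    rw [inv_one, mul_one] at hf' hg'
    exact hc f hf' g hg'

/-- `H` has a subgroup of finite index with a homomorphism onto the integers -/
def VInd (H : Type*) [Group H] : Prop :=
  ∃ L : Subgroup H, L.FiniteIndex ∧ ∃ φ : L →* Multiplicative ℤ, Function.Surjective φ

/-- No subgroup of finite index of `H` has a nontrivial left-orderable quotient. -/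
def NoLO (H : Type*) [Group H] : Prop :=
  ∀ L : Subgroup H, L.FiniteIndex → ∀ (N : Subgroup L) [N.Normal], LeftOrderable (L ⧸ N) → N = ⊤

theorem vind_of_not_noLO {H : Type*} [Group H] [IsNoetherianRing (MonoidAlgebra ℤ H)]
    (h : ¬ NoLO H) : VInd H := by
  unfold NoLO at h
  push Not at h
  obtain ⟨L, hL, N, hN, hLO, hne⟩ := h
  haveI := noeth_sub L
  haveI : IsNoetherianRing (MonoidAlgebra ℤ (L ⧸ N)) :=
    noeth_quot (QuotientGroup.mk' N) (QuotientGroup.mk'_surjective N)
  haveI : Nontrivial (L ⧸ N) := QuotientGroup.nontrivial_iff.2 hne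
  have hfg : ∀ K : Subgroup (L ⧸ N), K.FG := fg_of_noetherian ℤ (L ⧸ N)
  have hF : Fol (L ⧸ N) := fol_of_noetherian ℤ (L ⧸ N)
  obtain ⟨φ, hφ⟩ := surj_of_lo hLO (Group.fg_def.2 (hfg ⊤)) hF
  exact ⟨L, hL, φ.comp (QuotientGroup.mk' N), hφ.comp (QuotientGroup.mk'_surjective N)⟩

theorem leftOrderable_int : LeftOrderable (Multiplicative ℤ) :=
  ⟨inferInstance, fun _ _ _ h => mul_lt_mul_right h _⟩

end Pool.Agent.Helper317
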