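import Mathlib
import Pool.Agent.Helper317.LO
import Pool.Agent.Helper317.Connell

set_option autoImplicit false
set_option linter.style.haveILetI false

/-!
# Descending chains of normal subgroups with virtually polycyclic quotients
-/

namespace Pool.Agent.Helper317

open scoped commutatorElement

variable {G : Type*} [Group G]

/-- derived series inside the lattice of subgroups of `G` -/
def dser (S : Subgroup G) : ℕ → Subgroup G
  | 0 => S
  | k + 1 => ⁅dser S k, dser S k⁆

theorem dser_mono {S T : Subgroup G} (h : S ≤ T) : ∀ k, dser S k ≤ dser T k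
  | 0 => h
  | k + 1 => Subgroup.commutator_mono (dser_mono h k) (dser_mono h k)

theorem dser_le (S : Subgroup G) : ∀ k, dser S k ≤ S
  | 0 => le_rfl
  | k + 1 => by
    refine le_trans ?_ (dser_le S k)
    exact Subgroup.commutator_le_self (dser S k)

/-- `G / N` is virtually solvable -/
def VQ (N : Subgroup G) : Prop := ∃ S : Subgroup G, S.FiniteIndex ∧ ∃ k, dser S k ≤ N

theorem vq_top : VQ (⊤ : Subgroup G) := ⟨⊤, inferInstance, 0, le_top⟩

theorem VQ.mono {N N' : Subgroup G} (h : VQ N) (hle : N ≤ N') : VQ N' := by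
  obtain ⟨S, hS, k, hk⟩ := h
  exact ⟨S, hS, k, hk.trans hle⟩

theorem VQ.comm {N : Subgroup G} (h : VQ N) : VQ ⁅N, N⁆ := by
  obtain ⟨S, hS, k, hk⟩ := h
  exact ⟨S, hS, k + 1, Subgroup.commutator_mono hk hk⟩

theorem VQ.finite {N T : Subgroup G} [N.Normal] [T.Normal] (_hT : T ≤ N) (hi : T.relIndex N ≠ 0)
    (h : VQ N) : VQ T := by
  classical
  obtain ⟨S, hS, k, hk⟩ := h
  let f := QuotientGroup.mk' T
  have hf : Function.Surjective f := QuotientGroup.mk'_surjective T
  have hNn : (N.map f).Normal := Subgroup.Normal.map inferInstance f hf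
  have hNfin : Finite (N.map f) := by
    have h1 : Nat.card (N.map f) ≠ 0 := by
      rw [← Subgroup.relIndex_ker, QuotientGroup.ker_mk']
      exact hi
    exact Nat.finite_of_card_ne_zero h1
  let C : Subgroup (G ⧸ T) := Subgroup.centralizer (N.map f : Set (G ⧸ T))
  have hC : C.FiniteIndex := by
    have h1 : (MulAut.conjNormal (H := N.map f)).ker.FiniteIndex := by
      haveI : Finite (MulAut (N.map f)) := Finite.of_injective
        (fun e : MulAut (N.map f) => (e : N.map f → N.map f)) DFunLike.coe_injective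
      infer_instance
    have h2 : (MulAut.conjNormal (H := N.map f)).ker ≤ C := by
      intro c hc
      rw [MonoidHom.mem_ker] at hc
      rw [Subgroup.mem_centralizer_iff]
      intro n hn
      have h3 := congrArg (fun e : MulAut (N.map f) => ((e ⟨n, hn⟩ : N.map f) : G ⧸ T)) hc
      simp only [MulAut.conjNormal_apply, MulAut.one_apply] at h3
      rw [mul_inv_eq_iff_eq_mul] at h3
      exact h3.symm
    exact Subgroup.finiteIndex_of_le h2
  have hC' : (C.comap f).FiniteIndex := ⟨by
    rw [Subgroup.index_comap_of_surjective _ hf]; exact hC.index_ne_zero⟩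
  refine ⟨S ⊓ C.comap f, inferInstance, k + 1, ?_⟩
  show ⁅dser (S ⊓ C.comap f) k, dser (S ⊓ C.comap f) k⁆ ≤ T
  rw [Subgroup.commutator_le]
  intro a ha b hb
  have ha1 : a ∈ N := hk (dser_mono inf_le_left k ha)
  have hb1 : b ∈ C.comap f := (dser_le _ k hb).2
  have h3 : f b ∈ C := hb1
  have h4 := (Subgroup.mem_centralizer_iff.1 h3) (f a) ⟨a, ha1, rfl⟩
  have h5 : f ⁅a, b⁆ = 1 := by
    rw [map_commutatorElement, commutatorElement_eq_one_iff_mul_comm]
    exact h4
  exact (QuotientGroup.eq_one_iff _).1 h5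

theorem dser_map (S : Subgroup G) : ∀ k, (derivedSeries S k).map S.subtype = dser S k
  | 0 => by
    rw [derivedSeries_zero, ← MonoidHom.range_eq_map, S.range_subtype]; rfl
  | k + 1 => by
    rw [derivedSeries_succ, Subgroup.map_commutator, dser_map S k]; rfl

theorem VQ.vsol {N : Subgroup G} [N.Normal] (h : VQ N) : VSol (G ⧸ N) := by
  obtain ⟨S, hS, k, hk⟩ := h
  let f := QuotientGroup.mk' N
  have hf : Function.Surjective f := QuotientGroup.mk'_surjective N
  refine ⟨S.map f, ⟨?_⟩, ?_⟩
  · exact ne_zero_of_dvd_ne_zero hS.index_ne_zero (Subgroup.index_map_dvd S hf)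
  · refine ⟨k, ?_⟩
    let g : S →* S.map f := f.subgroupMap S
    have hg : Function.Surjective g := f.subgroupMap_surjective S
    rw [← map_derivedSeries_eq hg k]
    rw [eq_bot_iff]
    rintro _ ⟨x, hx, rfl⟩
    have h1 : (x : G) ∈ dser S k := by
      rw [← dser_map S k]
      exact ⟨x, hx, rfl⟩
    rw [Subgroup.mem_bot]
    apply Subtype.ext
    exact (QuotientGroup.eq_one_iff (x : G)).2 (hk h1)

theorem VQ.vsol_bot (h : VQ (⊥ : Subgroup G)) : VSol G :=
  VSol.of_equiv (QuotientGroup.quotientBot (G := G)) h.vsol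

/-- one step of the descending chain -/
theorem next_step (hmax : ∀ K : Subgroup G, K.FG) (N : Subgroup G) [hN : N.Normal] (hV : VQ N)
    (hI : VInd N) : ∃ N' : Subgroup G, N'.Normal ∧ VQ N' ∧ N' ≤ N ∧ N'.relIndex N = 0 := by
  classical
  obtain ⟨L, hL, φ, hφ⟩ := hI
  haveI := hL
  haveI : Finite (N ⧸ L) := Subgroup.finite_quotient_of_finiteIndex
  haveI : Finite (N →* Equiv.Perm (N ⧸ L)) :=
    finite_hom ((Group.fg_iff_subgroup_fg N).2 (hmax N))
  let T : Subgroup N := ⨅ ψ : N →* Equiv.Perm (N ⧸ L), ψ.ker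
  have hTL : T ≤ L := by
    have h1 : T ≤ (MulAction.toPermHom N (N ⧸ L)).ker := iInf_le _ _
    refine h1.trans ?_
    rw [← Subgroup.normalCore_eq_ker]
    exact Subgroup.normalCore_le L
  have hTi : T.FiniteIndex := Subgroup.finiteIndex_iInf fun ψ => inferInstance
  have hTc : ∀ e : N ≃* N, ∀ t ∈ T, e t ∈ T := by
    intro e t ht
    rw [Subgroup.mem_iInf] at ht ⊢
    intro ψ
    have := ht (ψ.comp e.toMonoidHom)
    rw [MonoidHom.mem_ker] at this ⊢
    exact this
  let T' : Subgroup G := T.map N.subtype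
  have hT'N : T' ≤ N := Subgroup.map_subtype_le T
  haveI hT'n : T'.Normal := by
    refine ⟨?_⟩
    rintro _ ⟨t, ht, rfl⟩ g
    refine ⟨MulAut.conjNormal g t, hTc (MulAut.conjNormal g) t ht, ?_⟩
    simp
  have hT'i : T'.relIndex N ≠ 0 := by
    have h1 : T'.subgroupOf N = T := by
      show (T.map N.subtype).comap N.subtype = T
      exact Subgroup.comap_map_eq_self_of_injective N.subtype_injective T
    rw [Subgroup.relIndex, h1]
    exact hTi.index_ne_zero
  have hVT : VQ T' := hV.finite hT'N hT'i
  refine ⟨⁅T', T'⁆, inferInstance, hVT.comm, (Subgroup.commutator_le_self T').trans hT'N, ?_⟩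
  -- it is enough to see that the index in `T'` is infinite
  have hle : ⁅T', T'⁆ ≤ T' := Subgroup.commutator_le_self T'
  -- the homomorphism on `T`
  let θ : T →* Multiplicative ℤ := φ.comp (Subgroup.inclusion hTL)
  have hθ : Infinite θ.range := by
    by_contra hcon
    rw [not_infinite_iff_finite] at hcon
    -- then `T` lies in the kernel of `φ`
    have h1 : ∀ t : T, θ t = 1 := by
      intro t
      by_contra ht
      have h2 : ∀ n : ℤ, (θ t) ^ n ∈ θ.range := fun n => ⟨t ^ n, map_zpow θ t n⟩
      have h3 : Function.Injective fun n : ℤ => (⟨(θ t) ^ n, h2 n⟩ : θ.range) := by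
        intro a b hab
        have h4 : (θ t) ^ a = (θ t) ^ b := congrArg Subtype.val hab
        have h5 : Multiplicative.toAdd ((θ t) ^ a) = Multiplicative.toAdd ((θ t) ^ b) := by rw [h4]
        rw [toAdd_zpow, toAdd_zpow, smul_eq_mul, smul_eq_mul] at h5
        have h6 : Multiplicative.toAdd (θ t) ≠ 0 := fun h => ht (by
          apply Multiplicative.toAdd.injective
          rw [h]; rfl)
        exact mul_right_cancel₀ h6 h5
      have := Finite.of_injective _ h3
      exact not_finite ℤ
    -- but `T` has finite index in `L`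
    have h2 : (T.subgroupOf L) ≤ φ.ker := by
      intro x hx
      rw [Subgroup.mem_subgroupOf] at hx
      have := h1 ⟨x, hx⟩
      rw [MonoidHom.mem_ker]
      exact this
    have h3 : (T.subgroupOf L).index ≠ 0 := by
      have : T.relIndex L ≠ 0 := by
        intro h0
        have h4 : T.relIndex L * L.relIndex ⊤ = T.relIndex ⊤ := Subgroup.relIndex_mul_relIndex _ _ _ hTL le_top
        rw [h0, zero_mul, Subgroup.relIndex_top_right] at h4
        exact hTi.index_ne_zero h4.symm
      exact this
    have h4 : φ.ker.index ≠ 0 := by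
      intro h0
      have h5 := Subgroup.index_dvd_of_le h2
      rw [h0, zero_dvd_iff] at h5
      exact h3 h5
    rw [Subgroup.index_ker, MonoidHom.range_eq_top.2 hφ] at h4
    have h5 : Finite (⊤ : Subgroup (Multiplicative ℤ)) := Nat.finite_of_card_ne_zero h4
    have h6 : Finite (Multiplicative ℤ) := Finite.of_equiv _ (Subgroup.topEquiv (G := Multiplicative ℤ)).toEquiv
    exact not_finite (Multiplicative ℤ)
  -- the commutator subgroup of `T'` has infinite index in `T'`
  have hkey : (⁅T', T'⁆).relIndex T' = 0 := by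
    have e1 : ⁅T', T'⁆ = (⁅T, T⁆ : Subgroup N).map N.subtype := by
      rw [Subgroup.map_commutator]
    rw [e1]
    show ((⁅T, T⁆ : Subgroup N).map N.subtype).relIndex (T.map N.subtype) = 0
    rw [Subgroup.relIndex_map_map_of_injective _ _ N.subtype_injective]
    have h1 : (⁅T, T⁆ : Subgroup N).subgroupOf T ≤ θ.ker := by
      have h2 : (⁅T, T⁆ : Subgroup N) ≤ θ.ker.map T.subtype := by
        rw [Subgroup.commutator_le]
        intro a ha b hb
        refine ⟨⁅(⟨a, ha⟩ : T), (⟨b, hb⟩ : T)⁆, ?_, rfl⟩
        show θ ⁅(⟨a, ha⟩ : T), (⟨b, hb⟩ : T)⁆ = 1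
        rw [map_commutatorElement, commutatorElement_eq_one_iff_mul_comm]
        exact mul_comm _ _
      intro x hx
      rw [Subgroup.mem_subgroupOf] at hx
      obtain ⟨y, hy, hyx⟩ := h2 hx
      have : y = x := Subtype.ext hyx
      rw [← this]
      exact hy
    have h2 : θ.ker.index = 0 := by
      rw [Subgroup.index_ker]
      exact Nat.card_eq_zero_of_infinite
    have h3 := Subgroup.index_dvd_of_le h1
    rw [h2, zero_dvd_iff] at h3
    exact h3
  have h1 := Subgroup.relIndex_mul_relIndex _ _ _ hle hT'N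
  rw [hkey, zero_mul] at h1
  exact h1.symm

end Pool.Agent.Helper317
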