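import Mathlib
import Pool.Agent.Helper317.Desc

set_option autoImplicit false
set_option linter.style.haveILetI false

/-!
# Strictly descending chains of prime ideals
-/

namespace Pool.Agent.Helper317

open MonoidAlgebra

/-- `I` is a prime ideal of the (noncommutative) ring `R`: it is proper, and `a R b ⊆ I` implies
`a ∈ I` or `b ∈ I`. -/
def IsPrimeTwoSided {R : Type*} [Ring R] (I : TwoSidedIdeal R) : Prop :=
  (1 : R) ∉ I ∧ ∀ a b : R, (∀ r : R, a * r * b ∈ I) → a ∈ I ∨ b ∈ I

variable {G : Type*} [Group G]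

/-- The kernel of the homomorphism from the integral group ring of `G` onto that of `G / N`. -/
noncomputable def kerQ (N : Subgroup G) [N.Normal] : TwoSidedIdeal (MonoidAlgebra ℤ G) :=
  TwoSidedIdeal.ker (MonoidAlgebra.mapDomainRingHom ℤ (QuotientGroup.mk' N))

theorem mem_kerQ (N : Subgroup G) [N.Normal] (x : MonoidAlgebra ℤ G) :
    x ∈ kerQ N ↔ MonoidAlgebra.mapDomainRingHom ℤ (QuotientGroup.mk' N) x = 0 :=
  TwoSidedIdeal.mem_ker _

theorem single_mem_kerQ (N : Subgroup G) [N.Normal] (g : G) :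
    (single g 1 - 1 : MonoidAlgebra ℤ G) ∈ kerQ N ↔ g ∈ N := by
  rw [mem_kerQ, map_sub, map_one]
  have h1 : MonoidAlgebra.mapDomainRingHom ℤ (QuotientGroup.mk' N) (single g (1 : ℤ)) =
      single (QuotientGroup.mk' N g) 1 := by simp
  rw [h1, one_def, sub_eq_zero]
  constructor
  · intro h
    have h2 : QuotientGroup.mk' N g = 1 := by
      have h3 := congrArg (fun z : MonoidAlgebra ℤ (G ⧸ N) => z.coeff 1) h
      simp only [coeff_single] at h3
      by_contra hc
      rw [Finsupp.single_eq_same, Finsupp.single_eq_of_ne (Ne.symm hc)] at h3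
      exact zero_ne_one h3
    exact (QuotientGroup.eq_one_iff g).1 h2
  · intro h
    have h2 : QuotientGroup.mk' N g = 1 := (QuotientGroup.eq_one_iff g).2 h
    rw [h2]

theorem kerQ_prime (hmax : ∀ K : Subgroup G, K.FG) (N : Subgroup G) [N.Normal]
    (h : ∀ X : Subgroup G, X.Normal → N ≤ X → N.relIndex X ≠ 0 → X ≤ N) :
    IsPrimeTwoSided (kerQ N) := by
  classical
  let f := QuotientGroup.mk' N
  have hf : Function.Surjective f := QuotientGroup.mk'_surjective N
  have hmaxQ : ∀ B : Subgroup (G ⧸ N), B.FG := fg_of_surj f hf hmax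
  have h0 : ∀ X : Subgroup (G ⧸ N), X.Normal → Finite X → X = ⊥ := by
    intro X hX hXf
    have h1 : N ≤ X.comap f := by
      intro n hn
      rw [Subgroup.mem_comap, show f n = 1 from (QuotientGroup.eq_one_iff n).2 hn]
      exact X.one_mem
    have h2 : N.relIndex (X.comap f) ≠ 0 := by
      have h3 : (⊥ : Subgroup (G ⧸ N)).comap f = N := comap_mk_bot N
      have h4 := relIndex_comap_comap f hf ⊥ X
      rw [h3] at h4
      rw [h4, Subgroup.relIndex_bot_left]
      exact Nat.card_pos.ne'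
    have h3 := h (X.comap f) (hX.comap f) h1 h2
    rw [eq_bot_iff]
    intro x hx
    obtain ⟨y, rfl⟩ := hf x
    exact (QuotientGroup.eq_one_iff y).2 (h3 hx)
  constructor
  · rw [mem_kerQ, map_one]
    exact one_ne_zero
  · intro a b hab
    rw [mem_kerQ, mem_kerQ]
    refine connell hmaxQ h0 _ _ ?_
    intro r
    obtain ⟨r, rfl⟩ : ∃ s, MonoidAlgebra.mapDomainRingHom ℤ f s = r := by
      induction r using MonoidAlgebra.induction_linear with
      | zero => exact ⟨0, map_zero _⟩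
      | add x y hx hy =>
        obtain ⟨a, rfl⟩ := hx
        obtain ⟨b, rfl⟩ := hy
        exact ⟨a + b, map_add _ _ _⟩
      | single g r =>
        obtain ⟨g, rfl⟩ := hf g
        exact ⟨single g r, by simp⟩
    have := (mem_kerQ N _).1 (hab r)
    rwa [map_mul, map_mul] at this

theorem kerQ_mono {N N' : Subgroup G} [N.Normal] [N'.Normal] (h : N ≤ N') : kerQ N ≤ kerQ N' := by
  rw [TwoSidedIdeal.le_iff]
  intro x hx
  have hx' : x ∈ kerQ N := hx
  show x ∈ kerQ N'
  rw [mem_kerQ] at hx' ⊢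
  let g : G ⧸ N →* G ⧸ N' := QuotientGroup.map N N' (MonoidHom.id G) (by simpa using h)
  have h1 : g.comp (QuotientGroup.mk' N) = QuotientGroup.mk' N' := by
    ext y
    rfl
  have h2 : ∀ x : MonoidAlgebra ℤ G, MonoidAlgebra.mapDomainRingHom ℤ (QuotientGroup.mk' N') x =
      MonoidAlgebra.mapDomainRingHom ℤ g (MonoidAlgebra.mapDomainRingHom ℤ (QuotientGroup.mk' N) x) := by
    intro x
    rw [← h1]
    induction x using MonoidAlgebra.induction_linear with
    | zero => simp
    | add x y hx hy => rw [map_add, map_add, map_add, hx, hy]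
    | single g r => simp
  rw [h2, hx', map_zero]

theorem kerQ_lt {N N' : Subgroup G} [N.Normal] [N'.Normal] (h : N < N') : kerQ N < kerQ N' := by
  refine lt_of_le_of_ne (kerQ_mono h.le) ?_
  intro he
  apply h.not_ge
  intro g hg
  rw [← single_mem_kerQ N, he, single_mem_kerQ N']
  exact hg

/-- the hull of a normal subgroup -/
theorem exists_hull (hmax : ∀ K : Subgroup G, K.FG) (N : Subgroup G) (hN : N.Normal) :
    ∃ D : Subgroup G, D.Normal ∧ N ≤ D ∧ N.relIndex D ≠ 0 ∧
      ∀ X : Subgroup G, X.Normal → N ≤ X → N.relIndex X ≠ 0 → X ≤ D := by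
  haveI := wf_of_fg hmax
  obtain ⟨D, ⟨hD1, hD2, hD3⟩, hD4⟩ := WellFounded.has_min (wellFounded_gt (α := Subgroup G))
    {D : Subgroup G | D.Normal ∧ N ≤ D ∧ N.relIndex D ≠ 0}
    ⟨N, hN, le_rfl, by rw [Subgroup.relIndex_self]; exact one_ne_zero⟩
  refine ⟨D, hD1, hD2, hD3, fun X hX hNX hi => ?_⟩
  by_contra hcon
  refine hD4 (X ⊔ D) ⟨inferInstance, hNX.trans le_sup_left, ?_⟩ ?_
  · rw [← Subgroup.relIndex_mul_relIndex N D (X ⊔ D) hD2 le_sup_right]
    refine mul_ne_zero hD3 ?_
    rw [Subgroup.relIndex_sup_right]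
    exact ne_zero_of_dvd_ne_zero hi (Subgroup.relIndex_dvd_of_le_left X hD2)
  · refine lt_of_le_of_ne le_sup_right ?_
    intro he
    exact hcon (by rw [he]; exact le_sup_left)

/-- If every infinite subgroup of `G` is virtually indicable, but `G` is not virtually solvable,
then there is an infinite descending chain of normal subgroups. -/
theorem exists_seq (hmax : ∀ K : Subgroup G, K.FG) (hnv : ¬ VSol G)
    (hI : ∀ H : Subgroup G, Infinite H → VInd H) :
    ∃ N : ℕ → Subgroup G, N 0 = ⊤ ∧ ∀ n, (N n).Normal ∧ VQ (N n) ∧ N (n + 1) ≤ N n ∧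
      (N (n + 1)).relIndex (N n) = 0 := by
  classical
  have step : ∀ N : {N : Subgroup G // N.Normal ∧ VQ N}, ∃ N' : {N : Subgroup G // N.Normal ∧ VQ N},
      N'.1 ≤ N.1 ∧ N'.1.relIndex N.1 = 0 := by
    rintro ⟨N, hN, hV⟩
    have hinf : Infinite N := by
      by_contra hcon
      rw [not_infinite_iff_finite] at hcon
      apply hnv
      refine (VQ.finite (N := N) (T := ⊥) bot_le ?_ hV).vsol_bot
      rw [Subgroup.relIndex_bot_left]
      exact Nat.card_pos.ne'
    obtain ⟨N', h1, h2, h3, h4⟩ := next_step hmax N hV (hI N hinf)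
    exact ⟨⟨N', h1, h2⟩, h3, h4⟩
  choose nx hnx using step
  let s : ℕ → {N : Subgroup G // N.Normal ∧ VQ N} :=
    fun n => Nat.rec ⟨⊤, inferInstance, vq_top⟩ (fun _ N => nx N) n
  refine ⟨fun n => (s n).1, rfl, fun n => ⟨(s n).2.1, (s n).2.2, (hnx (s n)).1, (hnx (s n)).2⟩⟩

theorem exists_prime_chain (hmax : ∀ K : Subgroup G, K.FG) (hnv : ¬ VSol G)
    (hI : ∀ H : Subgroup G, Infinite H → VInd H) :
    ∃ D : ℕ → Subgroup G, D 0 = ⊤ ∧ ∀ n, D (n + 1) < D n ∧ (D (n + 1)).relIndex (D n) = 0 ∧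
      ∃ _ : (D n).Normal, VirtPolycyclic (G ⧸ D n) ∧ IsPrimeTwoSided (kerQ (D n)) := by
  classical
  obtain ⟨N, hN0, hN⟩ := exists_seq hmax hnv hI
  choose D hD1 hD2 hD3 hD4 using fun n => exists_hull hmax (N n) (hN n).1
  have hle : ∀ n, D (n + 1) ≤ D n := by
    intro n
    haveI := hD1 (n + 1)
    haveI := (hN n).1
    refine le_trans (b := D (n + 1) ⊔ N n) le_sup_left ?_
    refine hD4 n _ inferInstance le_sup_right ?_
    rw [Subgroup.relIndex_sup_right]
    exact ne_zero_of_dvd_ne_zero (hD3 (n + 1)) (Subgroup.relIndex_dvd_of_le_left _ (hN n).2.2.1)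
  have hinf : ∀ n, (D (n + 1)).relIndex (D n) = 0 := by
    intro n
    by_contra hcon
    -- `N (n+1)` has finite index in `D (n+1)`, hence in `D n`, hence in `N n`
    have h1 : (N (n + 1)).relIndex (D n) ≠ 0 := by
      rw [← Subgroup.relIndex_mul_relIndex _ _ _ (hD2 (n + 1)) (hle n)]
      exact mul_ne_zero (hD3 (n + 1)) hcon
    apply h1
    rw [← Subgroup.relIndex_mul_relIndex _ _ _ (hN n).2.2.1 (hD2 n), (hN n).2.2.2, zero_mul]
  refine ⟨D, ?_, fun n => ⟨?_, hinf n, hD1 n, ?_, ?_⟩⟩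
  · rw [eq_top_iff, ← hN0]
    exact hD2 0
  · refine lt_of_le_of_ne (hle n) ?_
    intro he
    have := hinf n
    rw [he, Subgroup.relIndex_self] at this
    exact one_ne_zero this
  · haveI := hD1 n
    have h1 : VSol (G ⧸ D n) := ((hN n).2.1.mono (hD2 n)).vsol
    exact virtPolycyclic_of_vsol (fg_of_surj (QuotientGroup.mk' (D n)) (QuotientGroup.mk'_surjective _) hmax) h1
  · haveI := hD1 n
    refine kerQ_prime hmax (D n) ?_
    intro X hX hDX hi
    refine hD4 n X hX ((hD2 n).trans hDX) ?_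
    rw [← Subgroup.relIndex_mul_relIndex _ _ _ (hD2 n) hDX]
    exact mul_ne_zero (hD3 n) hi

end Pool.Agent.Helper317
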