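import Mathlib
import Pool.Agent.Helper317.Primes

set_option autoImplicit false
set_option linter.style.haveILetI false

/-!
# Exotic sections without virtual maps onto the integers
-/

namespace Pool.Agent.Helper317

variable {G : Type*} [Group G]

/-- `P / K` is virtually indicable -/
def VIndQ (K P : Subgroup G) : Prop :=
  ∃ L : Subgroup G, K ≤ L ∧ L ≤ P ∧ L.relIndex P ≠ 0 ∧
    ∃ φ : L →* Multiplicative ℤ, Function.Surjective φ ∧ K.subgroupOf L ≤ φ.ker

theorem VIndQ.of_le {K L P : Subgroup G} (hLP : L ≤ P) (hi : L.relIndex P ≠ 0)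
    (h : VIndQ K L) : VIndQ K P := by
  obtain ⟨M, h1, h2, h3, φ, h4, h5⟩ := h
  refine ⟨M, h1, h2.trans hLP, ?_, φ, h4, h5⟩
  rw [← Subgroup.relIndex_mul_relIndex _ _ _ h2 hLP]
  exact mul_ne_zero h3 hi

theorem VIndQ.of_bot {K B L : Subgroup G} (hKB : K ≤ B) (h : VIndQ B L) : VIndQ K L := by
  obtain ⟨M, h1, h2, h3, φ, h4, h5⟩ := h
  refine ⟨M, hKB.trans h1, h2, h3, φ, h4, le_trans ?_ h5⟩
  intro x hx
  rw [Subgroup.mem_subgroupOf] at hx ⊢
  exact hKB hx

/-- an infinite cyclic section is indicable -/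
theorem vindQ_of_cyc {K C : Subgroup G} (hn : Nm K C) (hi : K.relIndex C = 0) (hc : Cyc K C) :
    VIndQ K C := by
  classical
  haveI : (K.subgroupOf C).Normal := normal_subgroupOf hn
  obtain ⟨x, hx, h⟩ := hc
  have hcyc : IsCyclic (C ⧸ K.subgroupOf C) := by
    let f : C →* C ⧸ K.subgroupOf C := QuotientGroup.mk' _
    refine ⟨f ⟨x, hx⟩, ?_⟩
    intro q
    obtain ⟨y, rfl⟩ := QuotientGroup.mk'_surjective (K.subgroupOf C) q
    obtain ⟨n, hn'⟩ := h y y.2
    refine ⟨-n, ?_⟩
    have h1 : f (y * (⟨x, hx⟩ : C) ^ n) = 1 := by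
      refine (QuotientGroup.eq_one_iff _).2 ?_
      rw [Subgroup.mem_subgroupOf]
      simpa using hn'
    rw [map_mul, map_zpow] at h1
    show (f ⟨x, hx⟩) ^ (-n) = f y
    rw [zpow_neg]
    exact (eq_inv_of_mul_eq_one_left h1).symm
  have hinf : Infinite (C ⧸ K.subgroupOf C) := Subgroup.index_eq_zero_iff_infinite.1 hi
  let e : Multiplicative ℤ ≃* (C ⧸ K.subgroupOf C) := intCyclicMulEquiv
  refine ⟨C, hn.1, le_rfl, by rw [Subgroup.relIndex_self]; exact one_ne_zero,
    e.symm.toMonoidHom.comp (QuotientGroup.mk' (K.subgroupOf C)),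
    e.symm.surjective.comp (QuotientGroup.mk'_surjective _), ?_⟩
  intro y hy
  rw [MonoidHom.mem_ker, MonoidHom.comp_apply]
  rw [show QuotientGroup.mk' (K.subgroupOf C) y = 1 from (QuotientGroup.eq_one_iff y).2 hy, map_one]

/-- virtual indicability of the quotient group and of the section agree -/
theorem vindQ_of_vind {K P : Subgroup G} (hn : Nm K P) (hN : (K.subgroupOf P).Normal)
    (h : VInd (P ⧸ K.subgroupOf P)) : VIndQ K P := by
  classical
  obtain ⟨L, hL, φ, hφ⟩ := h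
  let f : P →* P ⧸ K.subgroupOf P := QuotientGroup.mk' _
  have hf : Function.Surjective f := QuotientGroup.mk'_surjective _
  let L1 : Subgroup P := L.comap f
  let L' : Subgroup G := L1.map P.subtype
  have hL'P : L' ≤ P := Subgroup.map_subtype_le _
  have hKL' : K ≤ L' := by
    intro k hk
    refine ⟨⟨k, hn.1 hk⟩, ?_, rfl⟩
    show f ⟨k, hn.1 hk⟩ ∈ L
    rw [show f ⟨k, hn.1 hk⟩ = 1 from (QuotientGroup.eq_one_iff _).2 (Subgroup.mem_subgroupOf.2 hk)]
    exact L.one_mem
  let e : L1 ≃* L' := L1.equivMapOfInjective P.subtype P.subtype_injective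
  let g : L1 →* L := f.subgroupComap L
  have hg : Function.Surjective g := f.subgroupComap_surjective_of_surjective L hf
  refine ⟨L', hKL', hL'P, ?_, (φ.comp g).comp e.symm.toMonoidHom,
    (hφ.comp hg).comp e.symm.surjective, ?_⟩
  · have h1 : L'.subgroupOf P = L1 := Subgroup.comap_map_eq_self_of_injective P.subtype_injective L1
    show (L'.subgroupOf P).index ≠ 0
    rw [h1, Subgroup.index_comap_of_surjective _ hf]
    exact hL.index_ne_zero
  · intro y hy
    obtain ⟨z, rfl⟩ := e.surjective y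
    rw [MonoidHom.mem_ker]
    show φ (g (e.symm (e z))) = 1
    rw [MulEquiv.symm_apply_apply]
    have h1 : ((z : P) : G) ∈ K := by
      rw [Subgroup.mem_subgroupOf] at hy
      exact hy
    have h2 : g z = 1 := by
      apply Subtype.ext
      exact (QuotientGroup.eq_one_iff (z : P)).2 (Subgroup.mem_subgroupOf.2 h1)
    rw [h2, map_one]

/-- In a subgroup `H` with no virtual map onto the integers there is a section `P / K` which is
simple or residually finite and hereditarily just infinite, again with no virtual map onto the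
integers. -/
theorem exists_section (hmax : ∀ K : Subgroup G, K.FG) (H : Subgroup G) (hH : Infinite H)
    (hI : ¬ VInd H) : ∃ K P : Subgroup G, P ≤ H ∧ Fac K P ∧ K.relIndex P = 0 ∧ ¬ VIndQ K P := by
  classical
  haveI := wf_of_fg hmax
  have hbot : Nm (⊥ : Subgroup G) H := ⟨bot_le, fun h _ k hk => by
    rw [Subgroup.mem_bot] at hk ⊢; rw [hk]; simp⟩
  have hgood : ∃ P : Subgroup G, P ≤ H ∧ Nm ⊥ P ∧ (⊥ : Subgroup G).relIndex P = 0 ∧ ¬ VIndQ ⊥ P := by
    refine ⟨H, le_rfl, hbot, ?_, ?_⟩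
    · rw [Subgroup.relIndex_bot_left]
      exact Nat.card_eq_zero_of_infinite
    · rintro ⟨L, _, h2, h3, φ, h4, _⟩
      apply hI
      refine ⟨L.subgroupOf H, ⟨h3⟩, φ.comp (Subgroup.subgroupOfEquivOfLe h2).toMonoidHom,
        h4.comp (Subgroup.subgroupOfEquivOfLe h2).surjective⟩
  obtain ⟨K, ⟨P, hPH, hn, hi, hv⟩, hmx⟩ := WellFounded.has_min (wellFounded_gt (α := Subgroup G))
    {K : Subgroup G | ∃ P : Subgroup G, P ≤ H ∧ Nm K P ∧ K.relIndex P = 0 ∧ ¬ VIndQ K P} ⟨⊥, hgood⟩
  -- finite-index subgroups are again good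
  have h1 : ∀ L : Subgroup G, K ≤ L → L ≤ P → L.relIndex P ≠ 0 →
      Nm K L ∧ K.relIndex L = 0 ∧ ¬ VIndQ K L := by
    intro L hKL hLP hLi
    refine ⟨⟨hKL, fun h hh k hk => hn.2 h (hLP hh) k hk⟩, ?_, fun h => hv (h.of_le hLP hLi)⟩
    have h2 := Subgroup.relIndex_mul_relIndex _ _ _ hKL hLP
    rw [hi] at h2
    rcases mul_eq_zero.1 h2 with h3 | h3
    · exact h3
    · exact absurd h3 hLi
  have h2 : ∀ L B : Subgroup G, K ≤ B → Nm B L → L ≤ P → L.relIndex P ≠ 0 → B ≠ K →
      B.relIndex P ≠ 0 := by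
    intro L B hKB hBL hLP hLi hne
    obtain ⟨_, _, h5⟩ := h1 L (hKB.trans hBL.1) hLP hLi
    rw [← Subgroup.relIndex_mul_relIndex _ _ _ hBL.1 hLP]
    refine mul_ne_zero ?_ hLi
    intro h6
    refine hmx B ⟨L, hLP.trans hPH, hBL, h6, fun h => h5 (h.of_bot hKB)⟩ ?_
    exact lt_of_le_of_ne hKB (Ne.symm hne)
  have h3 : ∀ C : Subgroup G, K ≤ C → C ≤ P → C.relIndex P ≠ 0 → ¬ Cyc K C := by
    intro C hKC hCP hCi hc
    obtain ⟨h4, h5, h6⟩ := h1 C hKC hCP hCi
    exact h6 (vindQ_of_cyc h4 h5 hc)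
  by_cases hres : ∀ x ∈ P, x ∉ K → ∃ L : Subgroup G, K ≤ L ∧ L ≤ P ∧ L.relIndex P ≠ 0 ∧ x ∉ L
  · exact ⟨K, P, hPH, ⟨hn, Or.inr (Or.inr (Or.inr ⟨hi, hres, h2, h3⟩))⟩, hi, hv⟩
  · -- the intersection of all subgroups of finite index
    let D : Subgroup G := sInf {L : Subgroup G | K ≤ L ∧ L ≤ P ∧ L.relIndex P ≠ 0}
    have hKD : K ≤ D := le_sInf fun L hL => hL.1
    have hDP : D ≤ P := sInf_le ⟨hn.1, le_rfl, by rw [Subgroup.relIndex_self]; exact one_ne_zero⟩
    have hDK : D ≠ K := by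
      intro he
      apply hres
      intro x hx hxK
      rw [← he, Subgroup.mem_sInf] at hxK
      push Not at hxK
      obtain ⟨L, hL, hxL⟩ := hxK
      exact ⟨L, hL.1, hL.2.1, hL.2.2, hxL⟩
    have hDn : Nm D P := by
      refine ⟨hDP, fun h hh d hd => ?_⟩
      rw [Subgroup.mem_sInf]
      rintro L ⟨hL1, hL2, hL3⟩
      -- conjugate of `L`
      let c := MulAut.conj h
      have hcP : P.map c.toMonoidHom = P := by
        apply le_antisymm
        · rintro _ ⟨n, hn, rfl⟩
          exact P.mul_mem (P.mul_mem hh hn) (P.inv_mem hh)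
        · intro n hn
          refine ⟨h⁻¹ * n * h, P.mul_mem (P.mul_mem (P.inv_mem hh) hn) hh, ?_⟩
          show h * (h⁻¹ * n * h) * h⁻¹ = n
          group
      have hL4 : d ∈ L.comap c.toMonoidHom := by
        refine Subgroup.mem_sInf.1 hd _ ⟨?_, ?_, ?_⟩
        · intro k hk
          exact hL1 (hn.2 h hh k hk)
        · intro y hy
          have h5 : c y ∈ P.map c.toMonoidHom := by rw [hcP]; exact hL2 hy
          obtain ⟨z, hz, hzy⟩ := h5
          have : z = y := c.injective hzy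
          rw [← this]; exact hz
        · have h5 : P.comap c.toMonoidHom = P := by
            have := Subgroup.comap_map_eq_self_of_injective (f := c.toMonoidHom) c.injective P
            rwa [hcP] at this
          have h6 := relIndex_comap_comap c.toMonoidHom c.surjective L P
          rw [h5] at h6
          rw [h6]
          exact hL3
      exact hL4
    have hDi : D.relIndex P ≠ 0 := h2 P D hKD hDn le_rfl
      (by rw [Subgroup.relIndex_self]; exact one_ne_zero) hDK
    obtain ⟨h4, h5, h6⟩ := h1 D hKD hDP hDi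
    refine ⟨K, D, hDP.trans hPH, ⟨h4, Or.inr (Or.inr (Or.inl ⟨h5, ?_⟩))⟩, h5, h6⟩
    intro B hKB hBD
    by_cases hBK : B = K
    · exact Or.inl hBK
    · right
      have h7 := h2 D B hKB hBD hDP hDi hBK
      exact le_antisymm hBD.1 (sInf_le ⟨hKB, hBD.1.trans hDP, h7⟩)

end Pool.Agent.Helper317
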