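import Mathlib
import Pool.Agent.Helper317.Sect

set_option autoImplicit false
set_option linter.style.haveILetI false

/-!
# Left orders and chains of prime ideals
-/

namespace Pool.Agent.Helper317

theorem chain_or_section (G : Type*) [Group G] [IsNoetherianRing (MonoidAlgebra ℤ G)]
    (hG : ¬ VirtPolycyclic G) :
    (∃ (D : ℕ → Subgroup G) (_ : ∀ n, (D n).Normal), D 0 = ⊤ ∧
      ∀ n, VirtPolycyclic (G ⧸ D n) ∧ (D (n + 1)).relIndex (D n) = 0 ∧
        IsPrimeTwoSided (kerQ (D n)) ∧ kerQ (D (n + 1)) < kerQ (D n)) ∨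
    (∃ H K P : Subgroup G, Infinite H ∧ NoLO H ∧ K ≤ P ∧ P ≤ H ∧
      ∃ _ : (K.subgroupOf P).Normal, Exotic (P ⧸ K.subgroupOf P) ∧ NoLO (P ⧸ K.subgroupOf P) ∧
        IsNoetherianRing (MonoidAlgebra ℤ (P ⧸ K.subgroupOf P))) := by
  classical
  have hmax : ∀ K : Subgroup G, K.FG := fg_of_noetherian ℤ G
  have hnv : ¬ VSol G := fun h => hG (virtPolycyclic_of_vsol hmax h)
  by_cases hI : ∀ H : Subgroup G, Infinite H → VInd H
  · left
    obtain ⟨D, hD0, hD⟩ := exists_prime_chain hmax hnv hI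
    have hN : ∀ n, (D n).Normal := fun n => (hD n).2.2.1
    refine ⟨D, hN, hD0, fun n => ?_⟩
    obtain ⟨h1, h2, _, h4, h5⟩ := hD n
    exact ⟨h4, h2, h5, kerQ_lt h1⟩
  · right
    push Not at hI
    obtain ⟨H, hH, hHI⟩ := hI
    obtain ⟨K, P, hPH, hF, hi, hv⟩ := exists_section hmax H hH hHI
    have hN : (K.subgroupOf P).Normal := normal_subgroupOf hF.1
    haveI := noeth_sub H
    haveI := noeth_sub P
    haveI hQ : IsNoetherianRing (MonoidAlgebra ℤ (P ⧸ K.subgroupOf P)) :=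
      noeth_quot (QuotientGroup.mk' (K.subgroupOf P)) (QuotientGroup.mk'_surjective _)
    have hinf : Infinite (P ⧸ K.subgroupOf P) := Subgroup.index_eq_zero_iff_infinite.1 hi
    have hvQ : ¬ VInd (P ⧸ K.subgroupOf P) := fun h => hv (vindQ_of_vind hF.1 hN h)
    refine ⟨H, K, P, hH, ?_, hF.1.1, hPH, hN, ?_, ?_, hQ⟩
    · by_contra hc
      exact hHI (vind_of_not_noLO hc)
    · rcases factor_of_fac hmax hF hN with h | h | h
      · exact (not_finite (P ⧸ K.subgroupOf P)).elim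
      · exfalso
        apply hvQ
        let e : Multiplicative ℤ ≃* (P ⧸ K.subgroupOf P) := intCyclicMulEquiv
        let t : (⊤ : Subgroup (P ⧸ K.subgroupOf P)) ≃* (P ⧸ K.subgroupOf P) := Subgroup.topEquiv
        exact ⟨⊤, inferInstance, (t.trans e.symm).toMonoidHom, (t.trans e.symm).surjective⟩
      · exact h
    · by_contra hc
      exact hvQ (vind_of_not_noLO hc)

end Pool.Agent.Helper317
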